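import Mathlib

namespace Pool.Agent.Lib.MP_dcb632_co

/-- A family of copies of `K_r` in `G` no two of which share an edge. -/
def IsPacking {V : Type} (G : SimpleGraph V) (r : ℕ) (P : Finset (Finset V)) : Prop :=
  (∀ K ∈ P, G.IsNClique r K) ∧
    ∀ K ∈ P, ∀ K' ∈ P, K ≠ K' → ∀ u v, G.Adj u v → ¬ (u ∈ K ∧ v ∈ K ∧ u ∈ K' ∧ v ∈ K')

/-- The `K_r`-packing number. -/
noncomputable def packingNumber {V : Type} (G : SimpleGraph V) (r : ℕ) : ℕ :=
  sSup {m | ∃ P, IsPacking G r P ∧ P.card = m}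

/-- The least packing number of an `n`-vertex graph of minimum degree at least `δ`. -/
noncomputable def minPacking (r n δ : ℕ) : ℕ :=
  sInf {m | ∃ G : SimpleGraph (Fin n), (∀ v, δ ≤ (G.neighborSet v).ncard) ∧ packingNumber G r = m}

end Pool.Agent.Lib.MP_dcb632_co
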