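import Mathlib
import Pool.Agent.Lib.MP_dcb632_co.Defs

namespace Pool.Agent.Lib.MP_dcb632_co

open Finset
open scoped Classical

variable {V : Type} [Fintype V]

noncomputable def sel (p : V → Prop) : Finset V := univ.filter p

@[simp] lemma mem_sel {p : V → Prop} {x : V} : x ∈ sel p ↔ p x := by simp [sel]

lemma card_sel_add (p : V → Prop) :
    (sel p).card + (sel (fun x => ¬ p x)).card = Fintype.card V := by
  rw [← card_union_of_disjoint (by simp [disjoint_left]), ← card_univ]
  congr 1
  ext x
  simp [em]

noncomputable def dg (H : SimpleGraph V) (x : V) : ℕ := (sel (fun y => H.Adj x y)).card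

def del (H : SimpleGraph V) (a b : V) : SimpleGraph V where
  Adj x y := H.Adj x y ∧ ¬ (x = a ∧ y = b) ∧ ¬ (x = b ∧ y = a)
  symm := ⟨fun _ _ h => ⟨h.1.symm, fun e => h.2.2 ⟨e.2, e.1⟩, fun e => h.2.1 ⟨e.2, e.1⟩⟩⟩
  loopless := ⟨fun _ h => h.1.ne rfl⟩

def ins (H : SimpleGraph V) (a b : V) : SimpleGraph V where
  Adj x y := x ≠ y ∧ (H.Adj x y ∨ (x = a ∧ y = b) ∨ (x = b ∧ y = a))
  symm := ⟨fun x y h => ⟨h.1.symm, by
    rcases h.2 with h | h | h
    · exact Or.inl h.symm
    · exact Or.inr (Or.inr ⟨h.2, h.1⟩)
    · exact Or.inr (Or.inl ⟨h.2, h.1⟩)⟩⟩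
  loopless := ⟨fun _ h => h.1 rfl⟩

lemma dg_del {H : SimpleGraph V} {a b : V} (h : H.Adj a b) (x : V) :
    dg (del H a b) x + (if x = a then 1 else 0) + (if x = b then 1 else 0) = dg H x := by
  have hab := h.ne
  by_cases ha : x = a
  · subst ha
    have : sel (fun y => H.Adj x y) = insert b (sel (fun y => (del H x b).Adj x y)) := by
      ext y
      by_cases hy : y = b <;> simp [del, hy, h, hab]
    rw [dg, dg, this, card_insert_of_notMem (by simp [del])]
    simp [hab]
  · by_cases hb : x = b
    · subst hb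
      have : sel (fun y => H.Adj x y) =
          insert a (sel (fun y => (del H a x).Adj x y)) := by
        ext y
        by_cases hy : y = a <;> simp [del, hy, h.symm, ha]
      rw [dg, dg, this, card_insert_of_notMem (by simp [del])]
      simp [ha]
    · simp [dg, del, ha, hb]

omit [Fintype V] in
lemma del_ins {H : SimpleGraph V} {a b : V} (h : ¬ H.Adj a b) : del (ins H a b) a b = H := by
  ext x y
  simp only [del, ins]
  constructor
  · rintro ⟨⟨-, h1 | h1 | h1⟩, h2, h3⟩
    · exact h1
    · exact absurd h1 h2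
    · exact absurd h1 h3
  · intro h1
    refine ⟨⟨h1.ne, Or.inl h1⟩, ?_, ?_⟩
    · rintro ⟨rfl, rfl⟩; exact h h1
    · rintro ⟨rfl, rfl⟩; exact h h1.symm

lemma dg_ins {H : SimpleGraph V} {a b : V} (h : ¬ H.Adj a b) (hab : a ≠ b) (x : V) :
    dg (ins H a b) x = dg H x + (if x = a then 1 else 0) + (if x = b then 1 else 0) := by
  have := dg_del (H := ins H a b) (a := a) (b := b) ⟨hab, Or.inr (Or.inl ⟨rfl, rfl⟩)⟩ x
  rw [del_ins h] at this
  omega

lemma sum_del {H : SimpleGraph V} {a b : V} (h : H.Adj a b) :
    ∑ x, dg (del H a b) x + 2 = ∑ x, dg H x := by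
  rw [← sum_congr rfl (fun x _ => dg_del h x), sum_add_distrib, sum_add_distrib]
  simp

lemma sum_ins {H : SimpleGraph V} {a b : V} (h : ¬ H.Adj a b) (hab : a ≠ b) :
    ∑ x, dg (ins H a b) x = ∑ x, dg H x + 2 := by
  rw [sum_congr rfl (fun x _ => dg_ins h hab x), sum_add_distrib, sum_add_distrib]
  simp

lemma near_regular (T : Finset V) (d : ℕ) : ∀ N, ∀ H : SimpleGraph V, ∑ x, dg H x = N →
    (∀ x y, H.Adj x y → x ∈ T) → (∀ x ∈ T, d ≤ dg H x) →
    ∃ H' : SimpleGraph V, (∀ x y, H'.Adj x y → x ∈ T) ∧ (∀ x ∈ T, d ≤ dg H' x) ∧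
      ∑ x, dg H' x ≤ T.card * d + 1 := by
  intro N
  induction N using Nat.strong_induction_on with
  | _ N ih =>
    intro H hN hs hd
    by_cases hle : ∑ x, dg H x ≤ T.card * d + 1
    · exact ⟨H, hs, hd, hle⟩
    by_cases hadj : ∃ u v, H.Adj u v ∧ d < dg H u ∧ d < dg H v
    · obtain ⟨u, v, huv, hu, hv⟩ := hadj
      have := sum_del huv
      refine ih _ (by omega) (del H u v) rfl (fun x y h => hs x y h.1) (fun x hx => ?_)
      have h1 := dg_del huv x
      have h2 := hd x hx
      have h3 := huv.ne
      split_ifs at h1 <;> subst_vars <;> first | omega | exact absurd rfl h3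
    push Not at hadj
    have hsum : ∑ x, dg H x = ∑ x ∈ T, dg H x := by
      refine (sum_subset (subset_univ _) (fun x _ hx => ?_)).symm
      simp only [dg, card_eq_zero, eq_empty_iff_forall_notMem, mem_sel]
      exact fun y h => hx (hs x y h)
    obtain ⟨u, v, hu, hv, huv⟩ : ∃ u v, d < dg H u ∧ d < dg H v ∧ (u = v → d + 2 ≤ dg H u) := by
      by_contra hcon
      push Not at hcon
      apply hle
      rw [hsum]
      by_cases hex : ∃ u, d < dg H u
      · obtain ⟨u, hu⟩ := hex
        have : ∀ x ∈ T, dg H x ≤ d + (if x = u then 1 else 0) := by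
          intro x _
          split_ifs with h
          · have := (hcon u u hu hu).2
            subst h
            omega
          · by_contra h'
            exact h (hcon x u (by omega) hu).1
        refine (sum_le_sum this).trans ?_
        rw [sum_add_distrib, sum_const, smul_eq_mul, sum_ite_eq']
        split_ifs <;> omega
      · push Not at hex
        exact (sum_le_card_nsmul T _ d (fun x _ => hex x)).trans (by simp)
    have hnuv : ¬ H.Adj u v := fun h => by have := hadj u v h hu; omega
    obtain ⟨a, ha⟩ : ∃ a, H.Adj u a := by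
      have : 0 < (sel (fun y => H.Adj u y)).card := by unfold dg at hu; omega
      obtain ⟨a, ha⟩ := card_pos.1 this
      exact ⟨a, by simpa using ha⟩
    have hda : dg H a ≤ d := hadj u a ha hu
    obtain ⟨b, hb, hba, hnab⟩ : ∃ b, H.Adj v b ∧ b ≠ a ∧ ¬ H.Adj a b := by
      by_contra hcon
      push Not at hcon
      have hsub : sel (fun y => H.Adj v y) ⊆
          insert a ((sel (fun y => H.Adj a y)).erase u) := by
        intro y hy
        simp only [mem_sel] at hy
        by_cases hya : y = a
        · simp [hya]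
        · simp only [mem_insert, hya, mem_erase, mem_sel, false_or]
          refine ⟨?_, hcon y hy hya⟩
          rintro rfl
          exact hnuv hy.symm
      have h1 := card_le_card hsub
      have h2 := card_insert_le a ((sel (fun y => H.Adj a y)).erase u)
      have h3 := card_erase_of_mem (s := sel (fun y => H.Adj a y)) (a := u)
        (by simpa using ha.symm)
      have h4 : 0 < (sel (fun y => H.Adj a y)).card :=
        card_pos.2 ⟨u, by simpa using ha.symm⟩
      unfold dg at hv hda
      omega
    have hav : a ≠ v := by rintro rfl; exact hnuv ha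
    have hbu : b ≠ u := by rintro rfl; exact hnuv hb.symm
    have hua := ha.ne
    have hvb := hb.ne
    have e1 : (del H u a).Adj v b := ⟨hb, fun h => hba h.2, fun h => hav h.1.symm⟩
    have e2 : ¬ (del (del H u a) v b).Adj a b := fun h => hnab h.1.1
    have s1 := sum_del ha
    have s2 := sum_del e1
    have s3 := sum_ins e2 hba.symm
    refine ih _ (by omega) (ins (del (del H u a) v b) a b) rfl ?_ (fun x hx => ?_)
    · rintro x y ⟨-, h | ⟨rfl, -⟩ | ⟨rfl, -⟩⟩
      · exact hs x y h.1.1
      · exact hs _ _ ha.symm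
      · exact hs _ _ hb.symm
    · have h1 := dg_del ha x
      have h2 := dg_del e1 x
      have h3 := dg_ins e2 hba.symm x
      have h4 := hd x hx
      by_cases x1 : x = u
      · subst x1
        by_cases x2 : x = v
        · have := huv x2
          subst x2
          simp [hua, hvb] at h1 h2 h3
          omega
        · simp [hua, hbu.symm, x2] at h1 h2 h3
          omega
      · by_cases x2 : x = v
        · subst x2
          simp [hav.symm, hvb, x1] at h1 h2 h3
          omega
        · simp only [x1, x2, if_false] at h1 h2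
          omega

lemma exists_near_regular (T : Finset V) (s : ℕ) (hs : 1 ≤ s) :
    ∃ H : SimpleGraph V, (∀ x y, H.Adj x y → x ∈ T) ∧ (∀ x ∈ T, T.card - s ≤ dg H x) ∧
      ∑ x, dg H x ≤ T.card * (T.card - s) + 1 := by
  let H : SimpleGraph V :=
    { Adj := fun x y => x ≠ y ∧ x ∈ T ∧ y ∈ T
      symm := ⟨fun x y h => ⟨h.1.symm, h.2.2, h.2.1⟩⟩
      loopless := ⟨fun _ h => h.1 rfl⟩ }
  refine near_regular T _ _ H rfl (fun x y h => h.2.1) (fun x hx => ?_)
  have : sel (fun y => H.Adj x y) = T.erase x := by
    ext y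
    simp [H, hx, eq_comm]
  rw [dg, this, card_erase_of_mem hx]
  omega

lemma upper {k : ℕ} (c : V → Fin k) (s : ℕ) (hs : 1 ≤ s) :
    ∃ G : SimpleGraph V, (∀ v, Fintype.card V - s ≤ dg G v) ∧ ∀ P, IsPacking G (k + 1) P →
      P.card ≤ ∑ j, ((sel (fun x => c x = j)).card *
        ((sel (fun x => c x = j)).card - s) + 1) / 2 := by
  choose H h1 h2 h3 using fun j => exists_near_regular (sel (fun x => c x = j)) s hs
  simp only [mem_sel] at h1 h2
  let G : SimpleGraph V :=
    { Adj := fun x y => c x ≠ c y ∨ (H (c x)).Adj x y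
      symm := ⟨fun x y h => by
        by_cases e : c x = c y
        · exact Or.inr (e ▸ (h.resolve_left (fun h => h e)).symm)
        · exact Or.inl (Ne.symm e)⟩
      loopless := ⟨fun _ h => h.elim (fun h => h rfl) (fun h => h.ne rfl)⟩ }
  refine ⟨G, fun v => ?_, fun P hP => ?_⟩
  · have e : sel (fun y => G.Adj v y) = sel (fun y => ¬ c y = c v) ∪
        sel (fun y => (H (c v)).Adj v y) := by
      ext y
      simp [G, eq_comm]
    have hd : Disjoint (sel (fun y => ¬ c y = c v))
        (sel (fun y => (H (c v)).Adj v y)) := by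
      simp only [disjoint_left, mem_sel]
      exact fun y h h' => h (h1 _ _ _ h'.symm)
    have h4 := h2 (c v) v rfl
    have h5 := card_sel_add (fun y => c y = c v)
    rw [dg, e, card_union_of_disjoint hd]
    unfold dg at h4
    omega
  · have hpair : ∀ K ∈ P, ∃ p : V × V, p.1 ∈ K ∧ p.2 ∈ K ∧ (H (c p.1)).Adj p.1 p.2 := by
      intro K hK
      obtain ⟨x, hx, y, hy, hxy, e⟩ := exists_ne_map_eq_of_card_lt_of_maps_to (s := K)
        (t := (univ : Finset (Fin k))) (f := c) (by simp [(hP.1 K hK).card_eq])
        (fun _ _ => mem_coe.2 (mem_univ _))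
      exact ⟨(x, y), hx, hy, ((hP.1 K hK).isClique hx hy hxy).resolve_left (fun h => h e)⟩
    rcases P.eq_empty_or_nonempty with rfl | ⟨K0, hK0⟩
    · simp
    have : Nonempty (V × V) := ⟨(hpair K0 hK0).choose⟩
    choose! p hp1 hp2 hp3 using hpair
    rw [card_eq_sum_card_fiberwise (f := fun K => c (p K).1) (t := univ)
      (fun _ _ => mem_coe.2 (mem_univ _))]
    refine sum_le_sum (fun j _ => ?_)
    have key : (P.filter (fun K => c (p K).1 = j)).card * 2 ≤ ∑ x, dg (H j) x := by
      have e : ∑ x, dg (H j) x = (sel (fun q : V × V => (H j).Adj q.1 q.2)).card := by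
        rw [card_eq_sum_card_fiberwise (f := Prod.fst) (t := univ)
          (fun _ _ => mem_coe.2 (mem_univ _))]
        refine sum_congr rfl (fun x _ => ?_)
        refine card_bij (fun y _ => (x, y)) (by simp) (by simp) ?_
        rintro ⟨a, b⟩ h
        simp only [mem_filter, mem_sel] at h
        obtain ⟨h, rfl⟩ := h
        exact ⟨b, by simpa using h, rfl⟩
      have e2 : (P.filter (fun K => c (p K).1 = j)).card * 2 =
          ((P.filter (fun K => c (p K).1 = j)) ×ˢ (univ : Finset Bool)).card := by simp
      rw [e, e2]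
      refine card_le_card_of_injOn (fun t => if t.2 then p t.1 else (p t.1).swap) ?_ ?_
      · rintro ⟨K, b⟩ h
        simp only [coe_product, coe_filter, coe_univ, Set.mem_prod, Set.mem_ofPred_eq,
          Set.mem_univ, and_true] at h
        have := hp3 K h.1
        rw [h.2] at this
        cases b <;> simp [this, this.symm]
      · rintro ⟨K, b⟩ h ⟨K', b'⟩ h' e
        simp only [coe_product, coe_filter, coe_univ, Set.mem_prod, Set.mem_ofPred_eq,
          Set.mem_univ, and_true] at h h'
        have hK : K = K' := by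
          by_contra hne
          refine hP.2 K h.1 K' h'.1 hne (p K).1 (p K).2 (Or.inr (hp3 K h.1))
            ⟨hp1 K h.1, hp2 K h.1, ?_⟩
          have q1 := hp1 K' h'.1
          have q2 := hp2 K' h'.1
          cases b <;> cases b' <;> simp [Prod.ext_iff] at e <;> simp [e, q1, q2]
        subst hK
        have hne := (hp3 K h.1).ne
        cases b <;> cases b' <;> simp [Prod.ext_iff] at e ⊢
        · exact hne e.2
        · exact hne e.1
    have := h3 j
    omega

end Pool.Agent.Lib.MP_dcb632_co
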