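import Mathlib
import Pool.Agent.Lib.MP_dcb632_co.Upper

namespace Pool.Agent.Lib.MP_dcb632_co

open Finset
open scoped Classical

variable {V : Type} [Fintype V]

lemma card_sel_split (p q : V → Prop) :
    (sel p).card = (sel (fun x => p x ∧ q x)).card + (sel (fun x => p x ∧ ¬ q x)).card := by
  rw [← card_union_of_disjoint (by simp only [disjoint_left, mem_sel]; tauto)]
  congr 1
  ext x
  simp only [mem_sel, mem_union]
  tauto

lemma sel_mono {p q : V → Prop} (h : ∀ x, p x → q x) : (sel p).card ≤ (sel q).card :=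
  card_le_card (fun x hx => mem_sel.2 (h x (mem_sel.1 hx)))

lemma card_sel_eq_sum (p : V → Prop) : (sel p).card = ∑ x, if p x then 1 else 0 := by
  simp [sel]

lemma sum_swap_adj (H : SimpleGraph V) (A B : Finset V) :
    ∑ x ∈ A, (sel (fun y => H.Adj x y ∧ y ∈ B)).card =
      ∑ y ∈ B, (sel (fun x => H.Adj y x ∧ x ∈ A)).card := by
  have e : ∀ (A B : Finset V), ∑ x ∈ A, (sel (fun y => H.Adj x y ∧ y ∈ B)).card =
      ∑ x, ∑ y, if H.Adj x y ∧ x ∈ A ∧ y ∈ B then 1 else 0 := by
    intro A B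
    rw [← sum_subset (subset_univ A)]
    · refine sum_congr rfl (fun x hx => ?_)
      rw [card_sel_eq_sum]
      refine sum_congr rfl (fun y _ => ?_)
      simp [hx]
    · intro x _ hx
      simp [hx]
  rw [e, e, sum_comm]
  refine sum_congr rfl (fun x _ => sum_congr rfl (fun y _ => ?_))
  simp only [H.adj_comm y x, and_comm]

lemma furedi (H : SimpleGraph V) : ∀ (k : ℕ) (U : Finset V),
    (∀ K, K ⊆ U → ¬ H.IsNClique (k + 1) K) → ∃ c : V → ℕ, (∀ v ∈ U, c v < k) ∧
      ((∑ v ∈ U, (sel (fun y => H.Adj v y ∧ y ∈ U)).card +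
        ∑ v ∈ U, (sel (fun y => (H.Adj v y ∧ y ∈ U) ∧ c y = c v)).card : ℕ) : ℝ) ≤
        (1 - 1 / k) * (U.card : ℝ) ^ 2 := by
  intro k
  induction k with
  | zero =>
    intro U hU
    have : U = ∅ := by
      rw [eq_empty_iff_forall_notMem]
      intro x hx
      exact hU {x} (by simpa using hx) (by simp)
    subst this
    exact ⟨fun _ => 0, by simp, by simp⟩
  | succ k ih =>
    intro U hU
    rcases U.eq_empty_or_nonempty with rfl | hne
    · exact ⟨fun _ => 0, by simp, by simp⟩
    obtain ⟨x, hx, hmax⟩ := exists_max_image U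
      (fun v => (sel (fun y => H.Adj v y ∧ y ∈ U)).card) hne
    set N := sel (fun y => H.Adj x y ∧ y ∈ U) with hN
    have hNU : N ⊆ U := fun y hy => (mem_sel.1 hy).2
    obtain ⟨c, hc, hb⟩ := ih N (fun K hK hcl => by
      refine hU (insert x K) (insert_subset hx (hK.trans hNU)) (hcl.insert ?_)
      exact fun y hy => (mem_sel.1 (hK hy)).1)
    have hk0 : k = 0 → N = ∅ := by
      rintro rfl
      rw [eq_empty_iff_forall_notMem]
      intro y hy
      exact absurd (hc y hy) (by omega)
    refine ⟨fun v => if v ∈ N then c v else k, fun v _ => ?_, ?_⟩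
    · simp only
      split_ifs with h
      · exact (hc v h).trans (Nat.lt_succ_self k)
      · exact Nat.lt_succ_self k
    set W := U \ N with hW
    have hUW : U = N ∪ W := (union_sdiff_of_subset hNU).symm
    have hdis : Disjoint N W := disjoint_sdiff
    have hsplit : ∀ v, (sel (fun y => H.Adj v y ∧ y ∈ U)).card =
        (sel (fun y => H.Adj v y ∧ y ∈ N)).card + (sel (fun y => H.Adj v y ∧ y ∈ W)).card := by
      intro v
      rw [card_sel_split _ (fun y => y ∈ N)]
      congr 2
      · ext y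
        simp only [mem_sel]
        exact ⟨fun h => ⟨h.1.1, h.2⟩, fun h => ⟨⟨h.1, hNU h.2⟩, h.2⟩⟩
      · ext y
        simp only [mem_sel, hW, mem_sdiff, and_assoc]
    have h1 : ∑ v ∈ W, (sel (fun y => H.Adj v y ∧ y ∈ U)).card ≤ W.card * N.card :=
      sum_le_card_nsmul W _ _ (fun v hv => hmax v (mem_sdiff.1 hv).1)
    have h2 : ∑ v ∈ N, (sel (fun y => (H.Adj v y ∧ y ∈ U) ∧
        (if y ∈ N then c y else k) = (if v ∈ N then c v else k))).card ≤
        ∑ v ∈ N, (sel (fun y => (H.Adj v y ∧ y ∈ N) ∧ c y = c v)).card := by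
      refine sum_le_sum (fun v hv => sel_mono (fun y hy => ?_))
      by_cases h : y ∈ N
      · simp only [h, hv, if_true] at hy
        exact ⟨⟨hy.1.1, h⟩, hy.2⟩
      · simp only [h, hv, if_true, if_false] at hy
        have := hc v hv
        omega
    have h3 : ∑ v ∈ W, (sel (fun y => (H.Adj v y ∧ y ∈ U) ∧
        (if y ∈ N then c y else k) = (if v ∈ N then c v else k))).card ≤
        ∑ v ∈ W, (sel (fun y => H.Adj v y ∧ y ∈ W)).card := by
      refine sum_le_sum (fun v hv => sel_mono (fun y hy => ?_))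
      have hv' := (mem_sdiff.1 hv).2
      by_cases h : y ∈ N
      · simp only [h, hv', if_true, if_false] at hy
        have := hc y h
        omega
      · exact ⟨hy.1.1, mem_sdiff.2 ⟨hy.1.2, h⟩⟩
    have h4 := sum_swap_adj H N W
    have h5 : ∑ v ∈ U, (sel (fun y => H.Adj v y ∧ y ∈ U)).card =
        ∑ v ∈ N, (sel (fun y => H.Adj v y ∧ y ∈ U)).card +
          ∑ v ∈ W, (sel (fun y => H.Adj v y ∧ y ∈ U)).card := by
      rw [← sum_union hdis, ← hUW]
    have h6 : ∑ v ∈ U, (sel (fun y => (H.Adj v y ∧ y ∈ U) ∧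
        (if y ∈ N then c y else k) = (if v ∈ N then c v else k))).card =
        ∑ v ∈ N, (sel (fun y => (H.Adj v y ∧ y ∈ U) ∧
          (if y ∈ N then c y else k) = (if v ∈ N then c v else k))).card +
        ∑ v ∈ W, (sel (fun y => (H.Adj v y ∧ y ∈ U) ∧
          (if y ∈ N then c y else k) = (if v ∈ N then c v else k))).card := by
      rw [← sum_union hdis, ← hUW]
    have h7 : ∑ v ∈ N, (sel (fun y => H.Adj v y ∧ y ∈ U)).card =
        ∑ v ∈ N, (sel (fun y => H.Adj v y ∧ y ∈ N)).card +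
          ∑ v ∈ N, (sel (fun y => H.Adj v y ∧ y ∈ W)).card := by
      rw [← sum_add_distrib]; exact sum_congr rfl (fun v _ => hsplit v)
    have h8 : ∑ v ∈ W, (sel (fun y => H.Adj v y ∧ y ∈ U)).card =
        ∑ v ∈ W, (sel (fun y => H.Adj v y ∧ y ∈ N)).card +
          ∑ v ∈ W, (sel (fun y => H.Adj v y ∧ y ∈ W)).card := by
      rw [← sum_add_distrib]; exact sum_congr rfl (fun v _ => hsplit v)
    have h9 : U.card = N.card + W.card := by rw [← card_union_of_disjoint hdis, ← hUW]
    have key : ∑ v ∈ U, (sel (fun y => H.Adj v y ∧ y ∈ U)).card +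
        ∑ v ∈ U, (sel (fun y => (H.Adj v y ∧ y ∈ U) ∧
          (if y ∈ N then c y else k) = (if v ∈ N then c v else k))).card ≤
        (∑ v ∈ N, (sel (fun y => H.Adj v y ∧ y ∈ N)).card +
          ∑ v ∈ N, (sel (fun y => (H.Adj v y ∧ y ∈ N) ∧ c y = c v)).card) +
          2 * (W.card * N.card) := by omega
    refine le_trans (Nat.cast_le.2 key) ?_
    rw [Nat.cast_add, h9]
    refine le_trans (add_le_add hb le_rfl) ?_
    push_cast
    rcases Nat.eq_zero_or_pos k with h0 | h0
    · simp [hk0 h0, h0]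
    · have hk : (0 : ℝ) < k := by exact_mod_cast h0
      have : (1 - 1 / ((k : ℝ) + 1)) * ((N.card : ℝ) + W.card) ^ 2 -
          ((1 - 1 / k) * (N.card : ℝ) ^ 2 + 2 * (W.card * N.card)) =
          ((N.card : ℝ) - k * W.card) ^ 2 / (k * (k + 1)) := by
        field_simp
        ring
      have h10 : 0 ≤ ((N.card : ℝ) - k * W.card) ^ 2 / (k * (k + 1)) := by positivity
      linarith

noncomputable def dc {C : Type} (G : SimpleGraph V) (c : V → C) (v : V) (j : C) : ℕ :=
  (sel (fun y => G.Adj v y ∧ c y = j)).card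

lemma ins_split {C : Type} (G : SimpleGraph V) (c : V → C) (v : V) :
    ∑ x, dc G c x (c x) = 2 * dc G c v (c v) +
      ∑ x ∈ univ.erase v, (sel (fun y => (G.Adj x y ∧ c y = c x) ∧ ¬ y = v)).card := by
  rw [← add_sum_erase univ _ (mem_univ v)]
  have h1 : ∑ x ∈ univ.erase v, dc G c x (c x) = ∑ x ∈ univ.erase v,
      ((if G.Adj v x ∧ c x = c v then 1 else 0) +
        (sel (fun y => (G.Adj x y ∧ c y = c x) ∧ ¬ y = v)).card) := by
    refine sum_congr rfl (fun x _ => ?_)
    rw [dc, card_sel_split _ (fun y => y = v)]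
    congr 1
    split_ifs with h
    · rw [card_eq_one]
      refine ⟨v, ?_⟩
      ext y
      simp only [mem_sel, mem_singleton]
      exact ⟨fun h => h.2, fun e => by subst e; exact ⟨⟨h.1.symm, h.2.symm⟩, rfl⟩⟩
    · rw [card_eq_zero, eq_empty_iff_forall_notMem]
      simp only [mem_sel]
      rintro y ⟨⟨h1, h2⟩, rfl⟩
      exact h ⟨h1.symm, h2.symm⟩
  have h2 : ∑ x ∈ univ.erase v, (if G.Adj v x ∧ c x = c v then 1 else 0) = dc G c v (c v) := by
    rw [dc, card_sel_eq_sum, ← add_sum_erase univ _ (mem_univ v)]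
    rw [if_neg (by simp), zero_add]
    exact sum_congr rfl (fun x _ => by split_ifs <;> rfl)
  rw [h1, sum_add_distrib, h2]
  omega

lemma max_cut {k : ℕ} (G : SimpleGraph V) (c0 : V → Fin k) : ∃ c : V → Fin k,
    ∑ x, dc G c x (c x) ≤ ∑ x, dc G c0 x (c0 x) ∧ ∀ v j, dc G c v (c v) ≤ dc G c v j := by
  obtain ⟨c, -, hc⟩ := exists_min_image (univ : Finset (V → Fin k))
    (fun c => ∑ x, dc G c x (c x)) ⟨c0, mem_univ _⟩
  refine ⟨c, hc c0 (mem_univ _), fun v j => ?_⟩
  have h1 := hc (Function.update c v j) (mem_univ _)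
  rw [ins_split G c v, ins_split G (Function.update c v j) v] at h1
  have h2 : ∑ x ∈ univ.erase v, (sel (fun y => (G.Adj x y ∧ Function.update c v j y =
      Function.update c v j x) ∧ ¬ y = v)).card =
      ∑ x ∈ univ.erase v, (sel (fun y => (G.Adj x y ∧ c y = c x) ∧ ¬ y = v)).card := by
    refine sum_congr rfl (fun x hx => ?_)
    congr 1
    ext y
    have hx' := (mem_erase.1 hx).1
    by_cases hy : y = v
    · simp [hy]
    · simp [hy, hx']
  have h3 : dc G (Function.update c v j) v (Function.update c v j v) = dc G c v j := by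
    unfold dc
    congr 1
    ext y
    by_cases hy : y = v
    · simp [hy]
    · simp [hy]
  omega

end Pool.Agent.Lib.MP_dcb632_co
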