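import Mathlib
import Pool.Agent.Lib.MP_dcb632_co.Stab

namespace Pool.Agent.Lib.MP_dcb632_co

open Finset
open scoped Classical

variable {V : Type} [Fintype V]

def Us (Q : Finset (Finset V)) (a b : V) : Prop := ∃ K ∈ Q, a ∈ K ∧ b ∈ K

lemma card_us {r : ℕ} {Q : Finset (Finset V)} (h : ∀ K ∈ Q, K.card = r) (w : V) :
    (sel (fun z => Us Q w z)).card ≤ (Q.filter (fun K => w ∈ K)).card * r := by
  refine le_trans (card_le_card (t := (Q.filter (fun K => w ∈ K)).biUnion id) ?_)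
    (card_biUnion_le_card_mul _ _ _ (fun K hK => (h K (mem_filter.1 hK).1).le))
  intro z hz
  obtain ⟨K, hK, h1, h2⟩ := mem_sel.1 hz
  exact mem_biUnion.2 ⟨K, mem_filter.2 ⟨hK, h1⟩, h2⟩

lemma sum_mem {r : ℕ} {Q : Finset (Finset V)} (h : ∀ K ∈ Q, K.card = r) :
    ∑ w, (Q.filter (fun K => w ∈ K)).card = Q.card * r := by
  simp only [card_filter]
  rw [sum_comm, ← smul_eq_mul, ← sum_const]
  refine sum_congr rfl (fun K hK => ?_)
  simp [h K hK]

lemma card_sel_or (p q t : V → Prop) (h : ∀ x, p x → q x ∨ t x) :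
    (sel p).card ≤ (sel q).card + (sel t).card := by
  refine le_trans (card_le_card (fun x hx => ?_)) (card_union_le _ _)
  simpa using h x (mem_sel.1 hx)

lemma sum_pairs (A : Finset V) (p : V → V → Prop) :
    ∑ x ∈ A, (sel (fun y => p x y)).card =
      (sel (fun q : V × V => q.1 ∈ A ∧ p q.1 q.2)).card := by
  rw [card_eq_sum_card_fiberwise (f := Prod.fst) (t := A)
    (fun q hq => mem_coe.2 (mem_sel.1 (mem_coe.1 hq)).1)]
  refine sum_congr rfl (fun x hx => ?_)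
  refine card_bij (fun y _ => (x, y)) (by simp [hx]) (by simp) ?_
  rintro ⟨a, b⟩ h
  simp only [mem_filter, mem_sel] at h
  obtain ⟨h, rfl⟩ := h
  exact ⟨b, by simpa using h.2, rfl⟩

lemma greedy {k : ℕ} (c : V → Fin k) (R : V → V → Prop) (hR : ∀ a b, R a b → R b a)
    (T M : Finset V) (hM : M ⊆ T) (b : ℕ)
    (hb : ∀ a ∈ T, ∀ j, j ≠ c a → (sel (fun z => c z = j ∧ ¬ R a z)).card ≤ b)
    (u v : V) (hu : u ∈ T) (huv : c u = c v)
    (hv : ∀ j, j ≠ c v → k * b < (sel (fun z => (c z = j ∧ R v z) ∧ z ∈ M)).card)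
    (J : Finset (Fin k)) : c v ∉ J → ∃ A ⊆ M, A.card = J.card ∧
      (∀ a ∈ A, c a ∈ J ∧ R u a ∧ R v a) ∧ ∀ a ∈ A, ∀ a' ∈ A, a ≠ a' → c a ≠ c a' ∧ R a a' := by
  induction J using Finset.induction_on with
  | empty => exact fun _ => ⟨∅, by simp⟩
  | insert j J hj ih =>
    intro hJ
    rw [mem_insert, not_or] at hJ
    obtain ⟨A, hA, hc, h1, h2⟩ := ih hJ.2
    have hk : J.card + 1 ≤ k := by
      rw [← card_insert_of_notMem hj]
      simpa using card_le_univ (insert j J)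
    have hbad : ((insert u A).biUnion (fun a => sel (fun z => c z = j ∧ ¬ R a z))).card ≤
        k * b := by
      refine le_trans (card_biUnion_le_card_mul _ _ b (fun a ha => ?_))
        (Nat.mul_le_mul_right b ((card_insert_le _ _).trans (by omega)))
      rcases mem_insert.1 ha with rfl | ha
      · exact hb _ hu j (huv ▸ Ne.symm hJ.1)
      · exact hb a (hM (hA ha)) j (fun e => hj (e ▸ (h1 a ha).1))
    obtain ⟨z, hz, hz'⟩ := exists_mem_notMem_of_card_lt_card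
      (hbad.trans_lt (hv j (Ne.symm hJ.1)))
    simp only [mem_sel, mem_biUnion, mem_insert, not_exists, not_and, not_not] at hz hz'
    have hzA : ∀ a ∈ A, c a ≠ c z := fun a ha e => hj (hz.1.1 ▸ e ▸ (h1 a ha).1)
    refine ⟨insert z A, insert_subset hz.2 hA, ?_, ?_, ?_⟩
    · rw [card_insert_of_notMem (fun h => hzA z h rfl), card_insert_of_notMem hj, hc]
    · intro a ha
      rcases mem_insert.1 ha with rfl | ha
      · exact ⟨by simp [hz.1.1], hz' u (Or.inl rfl) hz.1.1, hz.1.2⟩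
      · exact ⟨mem_insert_of_mem (h1 a ha).1, (h1 a ha).2⟩
    · intro a ha a' ha' hne
      rcases mem_insert.1 ha with rfl | hA1 <;> rcases mem_insert.1 ha' with rfl | hA2
      · exact absurd rfl hne
      · exact ⟨(hzA a' hA2).symm, hR _ _ (hz' a' (Or.inr hA2) hz.1.1)⟩
      · exact ⟨hzA a hA1, hz' a (Or.inr hA1) hz.1.1⟩
      · exact h2 a hA1 a' hA2 hne

def Good {C : Type} (c : V → C) (T K : Finset V) : Prop :=
  ∃ p : V × V, (∀ w ∈ K, w ≠ p.2 → w ∈ T) ∧ c p.1 = c p.2 ∧ (p.1 ∈ K ∧ p.1 ≠ p.2) ∧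
    ∀ a ∈ K, ∀ b ∈ K, a ≠ b → c a = c b → (a, b) = p ∨ (a, b) = p.swap

noncomputable def extn {C : Type} (c : V → C) (Q : Finset (Finset V)) (w : V) : ℕ :=
  (Q.filter (fun K => w ∈ K ∧ ¬ ∃ b ∈ K, b ≠ w ∧ c b = c w)).card

noncomputable def cv {C : Type} (G : SimpleGraph V) (c : V → C) (Q : Finset (Finset V))
    (w : V) : ℕ :=
  (sel (fun z => (G.Adj w z ∧ c z = c w) ∧ Us Q w z)).card

lemma deg_le {C : Type} {G : SimpleGraph V} (c : V → C) {r : ℕ} {Q : Finset (Finset V)}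
    (hQ : IsPacking G r Q) (w : V) :
    (Q.filter (fun K => w ∈ K)).card ≤ cv G c Q w + extn c Q w := by
  rw [← card_filter_add_card_filter_not (s := Q.filter (fun K => w ∈ K))
    (fun K => ∃ b ∈ K, b ≠ w ∧ c b = c w), filter_filter, filter_filter]
  refine add_le_add ?_ le_rfl
  have hex : ∀ K ∈ Q.filter (fun K => w ∈ K ∧ ∃ b ∈ K, b ≠ w ∧ c b = c w),
      ∃ b ∈ K, b ≠ w ∧ c b = c w := fun K hK => (mem_filter.1 hK).2.2
  have hV : Nonempty V := ⟨w⟩
  choose! f h1 h2 h3 using hex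
  refine card_le_card_of_injOn f (fun K hK => ?_) (fun K hK K' hK' e => ?_)
  · have hK' := mem_filter.1 (mem_coe.1 hK)
    exact mem_coe.2 (mem_sel.2 ⟨⟨(hQ.1 K hK'.1).isClique hK'.2.1 (h1 K hK) (h2 K hK).symm,
      h3 K hK⟩, K, hK'.1, hK'.2.1, h1 K hK⟩)
  · have a := mem_filter.1 (mem_coe.1 hK)
    have a' := mem_filter.1 (mem_coe.1 hK')
    by_contra hne
    exact hQ.2 K a.1 K' a'.1 hne w (f K)
      ((hQ.1 K a.1).isClique a.2.1 (h1 K hK) (h2 K hK).symm)
      ⟨a.2.1, h1 K hK, a'.2.1, e ▸ h1 K' hK'⟩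

lemma atyp_us {C : Type} {G : SimpleGraph V} {c : V → C} {r : ℕ} {Q : Finset (Finset V)}
    {T : Finset V} (hQ : IsPacking G r Q) (hg : ∀ K ∈ Q, Good c T K) {v : V} (hv : v ∉ T)
    {j : C} (hj : j ≠ c v) : (sel (fun z => c z = j ∧ Us Q v z)).card ≤ cv G c Q v := by
  have h0 : extn c Q v = 0 := by
    rw [extn, card_eq_zero, filter_eq_empty_iff]
    intro K hK h
    obtain ⟨p, p1, p2, p3, -⟩ := hg K hK
    have e : v = p.2 := by
      by_contra h'
      exact hv (p1 v h.1 h')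
    exact h.2 ⟨p.1, p3.1, e ▸ p3.2, e ▸ p2⟩
  have h1 := deg_le c hQ v
  rw [h0, add_zero, ← mul_one (Q.filter _).card] at h1
  refine le_trans (card_le_card (t := (Q.filter (fun K => v ∈ K)).biUnion
    (fun K => K.filter (fun z => c z = j))) ?_)
    (le_trans (card_biUnion_le_card_mul _ _ 1 (fun K hK => ?_)) h1)
  · intro z hz
    obtain ⟨h, K, hK, h1, h2⟩ := mem_sel.1 hz
    exact mem_biUnion.2 ⟨K, mem_filter.2 ⟨hK, h1⟩, mem_filter.2 ⟨h2, h⟩⟩
  · rw [card_le_one]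
    intro a ha b hb
    by_contra hne
    obtain ⟨hK, hvK⟩ := mem_filter.1 hK
    obtain ⟨p, p1, p2, -, p3⟩ := hg K hK
    have e : v = p.2 := by
      by_contra h
      exact hv (p1 v hvK h)
    obtain ⟨ha, ha'⟩ := mem_filter.1 ha
    obtain ⟨hb, hb'⟩ := mem_filter.1 hb
    rcases p3 a ha b hb hne (ha'.trans hb'.symm) with h | h
    · exact hj (by rw [e, ← h, hb'])
    · exact hj (by rw [e, ← ha', show a = p.2 from (Prod.ext_iff.1 h).1])

lemma sum_cv {k : ℕ} {G : SimpleGraph V} {c : V → Fin k} {Q : Finset (Finset V)}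
    {T : Finset V} (hg : ∀ K ∈ Q, Good c T K) (f : Fin k → ℕ)
    (hf : ∀ j, f j ≤ ∑ x ∈ sel (fun x => c x = j), cv G c Q x) :
    ∑ j, (f j + 1) / 2 ≤ Q.card := by
  rcases isEmpty_or_nonempty V with hV | hV
  · have : ∀ j, f j = 0 := fun j => by
      have := hf j
      rwa [eq_empty_of_isEmpty (sel _), sum_empty, Nat.le_zero] at this
    simp [this]
  choose! p p1 p2 p0 p3 using hg
  rw [card_eq_sum_card_fiberwise (f := fun K => c (p K).1) (t := univ)
    (fun _ _ => mem_coe.2 (mem_univ _))]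
  refine sum_le_sum (fun j _ => ?_)
  have h1 := hf j
  unfold cv at h1
  rw [sum_pairs] at h1
  have h2 := le_trans (card_le_card (s := sel (fun q : V × V => q.1 ∈ sel (fun x => c x = j) ∧
      (G.Adj q.1 q.2 ∧ c q.2 = c q.1) ∧ Us Q q.1 q.2))
      (t := (Q.filter (fun K => c (p K).1 = j)).biUnion
      (fun K => {p K, (p K).swap})) (by
        rintro ⟨a, b⟩ hq
        simp only [mem_sel] at hq
        obtain ⟨h, ⟨h2, h3⟩, K, hK, ha, hb⟩ := hq
        have h4 := p3 K hK a ha b hb h2.ne h3.symm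
        refine mem_biUnion.2 ⟨K, mem_filter.2 ⟨hK, ?_⟩, by simpa using h4⟩
        rcases h4 with h4 | h4
        · rw [← h4, h]
        · rw [p2 K hK, ← h, show a = (p K).2 from (Prod.ext_iff.1 h4).1]))
    (card_biUnion_le_card_mul _ _ 2 (fun K _ => card_le_two))
  omega

end Pool.Agent.Lib.MP_dcb632_co
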