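import Mathlib
import Pool.Agent.Lib.MP_dcb632_co.Pack

namespace Pool.Agent.Lib.MP_dcb632_co

open Finset
open scoped Classical

variable {V : Type} [Fintype V]

omit [Fintype V] in
lemma extend {k : ℕ} {G : SimpleGraph V} {c : V → Fin k} {Q : Finset (Finset V)}
    {T : Finset V} {x : ℕ} (hQ : IsPacking G (k + 1) Q) (hg : ∀ K ∈ Q, Good c T K)
    (hx : ∀ w, extn c Q w ≤ x) {u v : V} (hu : u ∈ T) (huv : G.Adj u v) (hc : c u = c v)
    (hn : ¬ Us Q u v) (A : Finset V) (hA : ∀ a ∈ A, a ∈ T ∧ extn c Q a < x)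
    (hcard : A.card + 1 = k)
    (h1 : ∀ a ∈ A, c a ≠ c v ∧ (G.Adj u a ∧ ¬ Us Q u a) ∧ G.Adj v a ∧ ¬ Us Q v a)
    (h2 : ∀ a ∈ A, ∀ a' ∈ A, a ≠ a' → c a ≠ c a' ∧ G.Adj a a' ∧ ¬ Us Q a a') :
    ∃ Q' : Finset (Finset V), (IsPacking G (k + 1) Q' ∧ (∀ K ∈ Q', Good c T K) ∧
      ∀ w, extn c Q' w ≤ x) ∧ Q.card < Q'.card := by
  have us_symm : ∀ a b, Us Q a b → Us Q b a := fun a b ⟨K, h, h1, h2⟩ => ⟨K, h, h2, h1⟩
  have hvA : v ∉ A := fun h => (h1 v h).1 rfl
  have huA : u ∉ insert v A := by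
    rw [mem_insert, not_or]
    exact ⟨huv.ne, fun h => (h1 u h).1 hc⟩
  have hR : ∀ a ∈ insert u (insert v A), ∀ b ∈ insert u (insert v A), a ≠ b →
      (G.Adj a b ∧ ¬ Us Q a b) ∧ (c a = c b → (a, b) = (u, v) ∨ (a, b) = (u, v).swap) := by
    intro a ha b hb hne
    simp only [mem_insert] at ha hb
    rcases ha with rfl | rfl | ha <;> rcases hb with rfl | rfl | hb
    · exact absurd rfl hne
    · exact ⟨⟨huv, hn⟩, fun _ => Or.inl rfl⟩
    · exact ⟨(h1 b hb).2.1, fun e => absurd (e.symm.trans hc) (h1 b hb).1⟩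
    · exact ⟨⟨huv.symm, fun h => hn (us_symm _ _ h)⟩, fun _ => Or.inr rfl⟩
    · exact absurd rfl hne
    · exact ⟨(h1 b hb).2.2, fun e => absurd e.symm (h1 b hb).1⟩
    · exact ⟨⟨(h1 a ha).2.1.1.symm, fun h => (h1 a ha).2.1.2 (us_symm _ _ h)⟩,
        fun e => absurd (e.trans hc) (h1 a ha).1⟩
    · exact ⟨⟨(h1 a ha).2.2.1.symm, fun h => (h1 a ha).2.2.2 (us_symm _ _ h)⟩,
        fun e => absurd e (h1 a ha).1⟩
    · exact ⟨(h2 a ha b hb hne).2, fun e => absurd e (h2 a ha b hb hne).1⟩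
  set K := insert u (insert v A) with hK
  have huK : u ∈ K := mem_insert_self _ _
  have hvK : v ∈ K := mem_insert_of_mem (mem_insert_self _ _)
  have hKQ : K ∉ Q := fun h => hn ⟨K, h, huK, hvK⟩
  refine ⟨insert K Q, ⟨⟨fun L hL => ?_, fun L hL L' hL' hne a b hab h => ?_⟩, fun L hL => ?_,
    fun w => ?_⟩, by rw [card_insert_of_notMem hKQ]; omega⟩
  · rcases mem_insert.1 hL with rfl | hL
    · refine ⟨fun a ha b hb hne => (hR a ha b hb hne).1.1, ?_⟩
      rw [hK, card_insert_of_notMem huA, card_insert_of_notMem hvA, hcard]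
    · exact hQ.1 L hL
  · rcases mem_insert.1 hL with e | h3 <;> rcases mem_insert.1 hL' with e' | h4
    · exact hne (e.trans e'.symm)
    · exact (hR a (e ▸ h.1) b (e ▸ h.2.1) hab.ne).1.2 ⟨L', h4, h.2.2⟩
    · exact (hR a (e' ▸ h.2.2.1) b (e' ▸ h.2.2.2) hab.ne).1.2 ⟨L, h3, h.1, h.2.1⟩
    · exact hQ.2 L h3 L' h4 hne a b hab h
  · rcases mem_insert.1 hL with rfl | hL
    · refine ⟨(u, v), fun w hw hwv => ?_, hc, ⟨huK, huv.ne⟩,
        fun a ha b hb hne => (hR a ha b hb hne).2⟩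
      simp only [hK, mem_insert] at hw
      rcases hw with rfl | rfl | hw
      · exact hu
      · exact absurd rfl hwv
      · exact (hA w hw).1
    · exact hg L hL
  · unfold extn
    rw [filter_insert]
    split_ifs with h
    · refine (card_insert_le _ _).trans ?_
      have hw := h.1
      simp only [hK, mem_insert] at hw
      rcases hw with rfl | rfl | hw
      · exact absurd ⟨v, hvK, huv.ne.symm, hc.symm⟩ h.2
      · exact absurd ⟨u, huK, huv.ne, hc⟩ h.2
      · exact (hA w hw).2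
    · exact hx w

lemma pack_core {k : ℕ} (hk : 2 ≤ k) (G : SimpleGraph V) (c : V → Fin k) (s t : ℕ) (ht : 1 ≤ t)
    (hs : 25 * ((k + 1) * (k + 1) * t) ≤ s)
    (hdeg : ∀ v, (sel (fun z => ¬ G.Adj v z)).card ≤ s)
    (hcut : ∀ v j, dc G c v (c v) ≤ dc G c v j)
    (hS : (sel (fun v => ¬ dc G c v (c v) ≤ 2 * t)).card ≤ t)
    (hP : ∀ Q, IsPacking G (k + 1) Q → Q.card * (k + 1) ≤ t * (2 * t))
    (hhi : ∀ j, (sel (fun x => c x = j)).card ≤ s + t)
    (hlo : ∀ j, s ≤ (sel (fun x => c x = j)).card + t) :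
    ∃ Q, IsPacking G (k + 1) Q ∧ ∑ j, ((sel (fun x => c x = j)).card *
      ((sel (fun x => c x = j)).card - s) + 1) / 2 ≤ Q.card := by
  set T := sel (fun v => dc G c v (c v) ≤ 2 * t) with hT
  obtain ⟨Q, hQ, hmax⟩ := exists_max_image (sel (fun Q : Finset (Finset V) =>
    IsPacking G (k + 1) Q ∧ (∀ K ∈ Q, Good c T K) ∧ ∀ w, extn c Q w ≤ 2 * t)) card
    ⟨∅, by simp [IsPacking, extn]⟩
  obtain ⟨hQ, hg, hx⟩ := mem_sel.1 hQ
  have hcard : ∀ K ∈ Q, K.card = k + 1 := fun K hK => (hQ.1 K hK).card_eq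
  have us_symm : ∀ a b, Us Q a b → Us Q b a := fun a b ⟨K, h, h1, h2⟩ => ⟨K, h, h2, h1⟩
  have hnn : ∀ v j, (sel (fun x => c x = j)).card =
      dc G c v j + (sel (fun z => c z = j ∧ ¬ G.Adj v z)).card := by
    intro v j
    rw [card_sel_split _ (fun z => G.Adj v z), dc]
    simp only [and_comm]
  have hnn1 : ∀ v j, (sel (fun z => c z = j ∧ ¬ G.Adj v z)).card ≤ s :=
    fun v j => (sel_mono (fun z h => h.2)).trans (hdeg v)
  have hnn2 : ∀ v i j, j ≠ i → (sel (fun z => c z = i ∧ ¬ G.Adj v z)).card +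
      (sel (fun z => c z = j ∧ ¬ G.Adj v z)).card ≤ s := by
    intro v i j hij
    refine le_trans ?_ (hdeg v)
    rw [card_sel_split (fun z => ¬ G.Adj v z) (fun z => c z = i)]
    exact add_le_add (sel_mono (fun z h => h.symm))
      (sel_mono (fun z h => ⟨h.2, fun e => hij (h.1.symm.trans e)⟩))
  have hcv : ∀ w, cv G c Q w ≤ dc G c w (c w) := fun w => sel_mono (fun z h => h.1)
  have ht3 : 3 * t ≤ (k + 1) * t := Nat.mul_le_mul_right t (by omega)
  have ht4 : 3 * ((k + 1) * t) ≤ (k + 1) * (k + 1) * t := by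
    rw [mul_assoc]; exact Nat.mul_le_mul_right _ (by omega)
  have hb : ∀ a ∈ T, ∀ j, j ≠ c a →
      (sel (fun z => c z = j ∧ ¬ (G.Adj a z ∧ ¬ Us Q a z))).card ≤ 5 * ((k + 1) * t) := by
    intro a ha j hj
    have h1 := card_sel_or (fun z => c z = j ∧ ¬ (G.Adj a z ∧ ¬ Us Q a z))
      (fun z => c z = j ∧ ¬ G.Adj a z) (fun z => Us Q a z) (fun z h => by tauto)
    have h2 := card_us hcard a
    have h3 := deg_le c hQ a
    have h4 := hcv a
    have h5 := hx a
    have h6 : dc G c a (c a) ≤ 2 * t := (mem_sel.1 ha :)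
    have h7 := hnn a (c a)
    have h8 := hnn2 a (c a) j hj
    have h9 := hlo (c a)
    have h10 : (Q.filter (fun K => a ∈ K)).card * (k + 1) ≤ (4 * t) * (k + 1) :=
      Nat.mul_le_mul_right _ (by omega)
    have h11 : (4 * t) * (k + 1) = 4 * ((k + 1) * t) := by ring
    omega
  have hW : (sel (fun z => ¬ extn c Q z < 2 * t)).card ≤ t := by
    have h1 := card_nsmul_le_sum (sel (fun z => ¬ extn c Q z < 2 * t))
      (fun w => (Q.filter (fun K => w ∈ K)).card) (2 * t) (fun w hw => by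
        refine le_trans (not_lt.1 (mem_sel.1 hw :)) (card_le_card (fun K hK => ?_))
        simp only [mem_filter] at hK ⊢
        exact ⟨hK.1, hK.2.1⟩)
    have h2 := sum_le_sum_of_subset (f := fun w => (Q.filter (fun K => w ∈ K)).card)
      (subset_univ (sel (fun z => ¬ extn c Q z < 2 * t)))
    rw [sum_mem hcard] at h2
    exact Nat.le_of_mul_le_mul_right (h1.trans (h2.trans (hP Q hQ))) (by omega)
  have key : ∀ u ∈ T, ∀ v, G.Adj u v → c u = c v → ¬ Us Q u v → ∃ j, j ≠ c v ∧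
      (sel (fun z => c z = j ∧ G.Adj v z ∧ ¬ Us Q v z)).card ≤ 5 * ((k + 1) * (k + 1) * t) := by
    intro u hu v huv hc hn
    by_contra hcon
    push Not at hcon
    obtain ⟨A, hA, h0, h1, h2⟩ := greedy c (fun a z => G.Adj a z ∧ ¬ Us Q a z)
      (fun a b h => ⟨h.1.symm, fun h' => h.2 (us_symm _ _ h')⟩) T
      (sel (fun z => z ∈ T ∧ extn c Q z < 2 * t)) (fun z h => (mem_sel.1 h).1) _ hb u v hu hc
      (fun j hj => by
        have h1 := hcon j hj
        have h2 := card_sel_or (fun z => c z = j ∧ G.Adj v z ∧ ¬ Us Q v z)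
          (fun z => (c z = j ∧ G.Adj v z ∧ ¬ Us Q v z) ∧
            z ∈ sel (fun z => z ∈ T ∧ extn c Q z < 2 * t))
          (fun z => ¬ (z ∈ T ∧ extn c Q z < 2 * t)) (fun z h => by
            rw [mem_sel]; tauto)
        have h3 := card_sel_or (fun z => ¬ (z ∈ T ∧ extn c Q z < 2 * t))
          (fun v => ¬ dc G c v (c v) ≤ 2 * t) (fun z => ¬ extn c Q z < 2 * t)
          (fun z h => by rw [hT, mem_sel] at h; tauto)
        have h4 : 5 * ((k + 1) * (k + 1) * t) = k * (5 * ((k + 1) * t)) + 5 * ((k + 1) * t) := by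
          ring
        omega) (univ.erase (c v)) (by simp)
    obtain ⟨Q', hQ', hlt⟩ := extend hQ hg hx hu huv hc hn A (fun a ha => (mem_sel.1 (hA ha) :))
      (by rw [h0, card_erase_of_mem (mem_univ _)]; simp; omega)
      (fun a ha => ⟨(mem_erase.1 (h1 a ha).1).1, (h1 a ha).2⟩) h2
    exact absurd (hmax Q' (mem_sel.2 hQ')) (not_le.2 hlt)
  have typ : ∀ u ∈ T, ∀ v ∈ T, G.Adj u v → c u = c v → Us Q u v := by
    intro u hu v hv huv hc
    by_contra hn
    obtain ⟨j, hj, h1⟩ := key u hu v huv hc hn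
    have h2 := hb v hv j hj
    have h3 := card_sel_split (fun z => c z = j) (fun z => G.Adj v z ∧ ¬ Us Q v z)
    have h4 := hlo j
    omega
  let H : SimpleGraph V :=
    { Adj := fun a b => (G.Adj a b ∧ c b = c a) ∧ ¬ Us Q a b
      symm := ⟨fun a b h => ⟨⟨h.1.1.symm, h.1.2.symm⟩, fun h' => h.2 (us_symm _ _ h')⟩⟩
      loopless := ⟨fun _ h => h.1.1.ne rfl⟩ }
  have hdc : ∀ v, dc G c v (c v) = cv G c Q v + (sel (fun z => H.Adj v z)).card :=
    fun v => card_sel_split _ _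
  refine ⟨Q, hQ, sum_cv (G := G) hg _ (fun i => ?_)⟩
  set Vi := sel (fun x => c x = i) with hVi
  have e1 : ∀ u ∈ Vi.filter (fun x => x ∈ T), Vi.card - s ≤ cv G c Q u +
      (sel (fun z => H.Adj u z ∧ z ∈ Vi.filter (fun x => ¬ x ∈ T))).card := by
    intro u hu
    obtain ⟨hu, huT⟩ := mem_filter.1 hu
    have hu' : c u = i := (mem_sel.1 hu :)
    have h1 := hnn u i
    have h2 := hnn1 u i
    have h3 := hdc u
    have h4 : (sel (fun z => H.Adj u z)).card ≤
        (sel (fun z => H.Adj u z ∧ z ∈ Vi.filter (fun x => ¬ x ∈ T))).card :=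
      sel_mono (fun z h => ⟨h, mem_filter.2 ⟨mem_sel.2 (h.1.2.trans hu'),
        fun hz => h.2 (typ u huT z hz h.1.1 h.1.2.symm)⟩⟩)
    rw [hu'] at h3
    rw [← hVi] at h1
    omega
  have e2 : ∀ v ∈ Vi.filter (fun x => ¬ x ∈ T), (Vi.card - s) +
      (sel (fun z => H.Adj v z ∧ z ∈ Vi.filter (fun x => x ∈ T))).card ≤ cv G c Q v := by
    intro v hv
    obtain ⟨hv, hvT⟩ := mem_filter.1 hv
    have hv' : c v = i := (mem_sel.1 hv :)
    have h1 := hdc v
    have h2 : ¬ dc G c v (c v) ≤ 2 * t := fun h => hvT (mem_sel.2 h)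
    have h3 := hhi i
    rw [← hVi] at h3
    rcases (sel (fun z => H.Adj v z ∧ z ∈ Vi.filter (fun x => x ∈ T))).eq_empty_or_nonempty
      with h | ⟨u, hu⟩
    · have h4 : (sel (fun z => H.Adj v z)).card ≤
          (sel (fun v => ¬ dc G c v (c v) ≤ 2 * t)).card := by
        refine sel_mono (fun z hz hz' => ?_)
        exact (eq_empty_iff_forall_notMem.1 h) z (mem_sel.2 ⟨hz, mem_filter.2
          ⟨mem_sel.2 (hz.1.2.trans hv'), mem_sel.2 hz'⟩⟩)
      rw [h, card_empty]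
      omega
    · obtain ⟨hu, hu'⟩ := (mem_sel.1 hu :)
      obtain ⟨j, hj, h4⟩ := key u (mem_filter.1 hu').2 v hu.1.1.symm hu.1.2
        (fun h => hu.2 (us_symm _ _ h))
      have h5 := atyp_us hQ hg hvT hj
      have h6 := card_sel_or (fun z => G.Adj v z ∧ c z = j)
        (fun z => c z = j ∧ G.Adj v z ∧ ¬ Us Q v z) (fun z => c z = j ∧ Us Q v z)
        (fun z h => by tauto)
      have h7 : (sel (fun z => H.Adj v z ∧ z ∈ Vi.filter (fun x => x ∈ T))).card ≤
          (sel (fun z => H.Adj v z)).card := sel_mono (fun z h => h.1)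
      have h8 := hcut v j
      have h9 := hnn v j
      have h10 := hnn v (c v)
      have h11 := hnn2 v (c v) j hj
      have h12 := hlo j
      have h13 := hlo (c v)
      unfold dc at h8 h9 h10 h1
      omega
  have s1 := card_nsmul_le_sum _ (fun u => cv G c Q u +
      (sel (fun z => H.Adj u z ∧ z ∈ Vi.filter (fun x => ¬ x ∈ T))).card) _ e1
  have s2 := sum_le_sum e2
  rw [sum_add_distrib, sum_swap_adj] at s1
  rw [sum_add_distrib, sum_const] at s2
  rw [← sum_filter_add_sum_filter_not Vi (fun x => x ∈ T)]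
  have s3 : Vi.card * (Vi.card - s) = (Vi.filter (fun x => x ∈ T)).card * (Vi.card - s) +
      (Vi.filter (fun x => ¬ x ∈ T)).card * (Vi.card - s) := by
    rw [← add_mul, card_filter_add_card_filter_not]
  simp only [smul_eq_mul] at s1 s2
  omega

end Pool.Agent.Lib.MP_dcb632_co
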