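import Pool.Agent.Lib.MP_dcb632_co.Grow

namespace Pool.Agent.Lib.MP_dcb632_co.Top

open Finset
open scoped Classical

variable {V : Type} [Fintype V]

lemma sum_sub_average (I : Finset V) {j r : ℕ} (hj : j ≤ r) (f : Finset V → ℝ) :
    ∑ K ∈ I.powersetCard r, ∑ S ∈ K.powersetCard j, f S =
      ((I.card - j).choose (r - j) : ℝ) * ∑ S ∈ I.powersetCard j, f S := by
  rw [sum_comm' (t' := I.powersetCard j) (s' := fun S => (I.powersetCard r).filter (S ⊆ ·)),
    mul_sum]
  · refine sum_congr rfl fun S hS => ?_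
    obtain ⟨a, b⟩ := mem_powersetCard.1 hS
    rw [sum_const, card_filter_powersetCard_subset S I r a (by omega), b, nsmul_eq_mul]
  · intro K S
    simp only [mem_powersetCard, mem_filter]
    constructor
    · rintro ⟨⟨a, b⟩, c, d⟩
      exact ⟨⟨⟨a, b⟩, c⟩, c.trans a, d⟩
    · rintro ⟨⟨⟨a, b⟩, c⟩, -, d⟩
      exact ⟨⟨a, b⟩, c, d⟩

lemma large_nonneg {G : SimpleGraph V} {r : ℕ} (hr : 3 ≤ r) {w t : Finset V → ℝ}
    (ht : ∀ S, 0 ≤ t S) (h : ∀ K, G.IsNClique r K →
      0 ≤ ∑ S ∈ K.powersetCard 2, w S + ∑ S ∈ K.powersetCard 3, t S)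
    {I : Finset V} (hI : G.IsClique (I : Set V)) (hc : r ≤ I.card) :
    0 ≤ ∑ S ∈ I.powersetCard 2, w S + ∑ S ∈ I.powersetCard 3, t S := by
  have a := sum_nonneg (s := I.powersetCard r) fun K hK => h K
    ⟨hI.subset (coe_subset.2 (mem_powersetCard.1 hK).1), (mem_powersetCard.1 hK).2⟩
  rw [sum_add_distrib, sum_sub_average I (by omega), sum_sub_average I hr] at a
  have b : (I.card - 3).choose (r - 3) ≤ (I.card - 2).choose (r - 2) := by
    rw [show I.card - 2 = I.card - 3 + 1 by omega, show r - 2 = r - 3 + 1 by omega,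
      Nat.choose_succ_succ]
    omega
  have b' : ((I.card - 3).choose (r - 3) : ℝ) ≤ (I.card - 2).choose (r - 2) := by exact_mod_cast b
  have c : (0 : ℝ) < (I.card - 2).choose (r - 2) := by
    exact_mod_cast Nat.choose_pos (by omega)
  have d : 0 ≤ ∑ S ∈ I.powersetCard 3, t S := sum_nonneg fun S _ => ht S
  have := mul_le_mul_of_nonneg_right b' d
  refine nonneg_of_mul_nonneg_right ?_ c
  linarith

lemma pen_zero (s : ℝ) (S I : Finset V) :
    pen s S I 0 = if S ⊆ I then (1 - s) ^ I.card else 0 := by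
  split_ifs with h
  · simp [pen, sdiff_eq_empty_iff_subset.2 h]
  · obtain ⟨x, hx⟩ := sdiff_nonempty.2 h
    rw [pen, prod_eq_zero hx rfl]
    simp

lemma sum_ite_subset {G : SimpleGraph V} {I : Finset V} (hI : G.IsClique (I : Set V)) (j : ℕ)
    (f : Finset V → ℝ) : ∑ S ∈ G.cliqueFinset j, (if S ⊆ I then f S else 0) =
      ∑ S ∈ I.powersetCard j, f S := by
  rw [← sum_filter]
  refine sum_congr ?_ fun _ _ => rfl
  ext S
  simp only [mem_filter, SimpleGraph.mem_cliqueFinset_iff, mem_powersetCard]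
  exact ⟨fun h => ⟨h.2, h.1.2⟩, fun h => ⟨⟨hI.subset (coe_subset.2 h.1), h.2⟩, h.1⟩⟩

lemma pen_cont (s : ℝ) (S I : Finset V) : Continuous (pen s S I) := by
  unfold pen
  fun_prop

/-- The dual inequality. -/
lemma dual (G : SimpleGraph V) {r : ℕ} (hr : 3 ≤ r) {b p s e : ℝ} (hp : 0 ≤ p) (hs : 0 ≤ s)
    (hs1 : s < 1) (hb : ∀ x, ((univ.filter fun y => ¬ G.Adj x y).card : ℝ) ≤ b)
    (he : e = 2 * Real.exp (-s * (Fintype.card V * p)) / (1 - s) ^ (r + 1)) (he1 : e ≤ 1)
    (hrow : p * (b + e * Fintype.card V) ≤ 1 / 2) (w t : Finset V → ℝ) (ht : ∀ S, 0 ≤ t S)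
    (h : ∀ K, G.IsNClique r K →
      0 ≤ ∑ S ∈ K.powersetCard 2, w S + ∑ S ∈ K.powersetCard 3, t S) :
    0 ≤ (1 - e) * p ^ 2 * ∑ S ∈ G.cliqueFinset 2, w S +
      6 * p ^ 3 * ∑ S ∈ G.cliqueFinset 3, t S := by
  have hθ : 0 < 1 - s := by linarith
  have he0 : 0 ≤ e := by rw [he]; positivity
  have hxy : ∀ S : G.cliqueFinset 2, ∃ x y, G.Adj x y ∧ S.1 = {x, y} := fun S => by
    have h2 := SimpleGraph.mem_cliqueFinset_iff.1 S.2
    obtain ⟨x, y, hne, e⟩ := card_eq_two.1 h2.2
    exact ⟨x, y, h2.1 (by simp [e]) (by simp [e]) hne, e⟩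
  choose X Y hA hS using hxy
  let c : Finset V → ℝ := fun S => if 0 ≤ w S then 1 - e else 1
  let g : V → V → ℝ := fun x y => if G.Adj x y then c {x, y} else 0
  let A : ℝ := 1 / (1 - s) ^ (r - 1)
  have hA0 : 0 ≤ A := by positivity
  have c0 : ∀ S, 1 - e ≤ c S := fun S => by simp only [c]; split_ifs <;> linarith
  have c1 : ∀ S, c S ≤ 1 := fun S => by simp only [c]; split_ifs <;> linarith
  let F : Finset V → (V → ℝ) → ℝ := fun I q =>
    ∑ S : G.cliqueFinset 2, w S * pr2 (c S) (X S) (Y S) I q +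
    ∑ S ∈ G.cliqueFinset 2, A * max (-w S) 0 * pen s S I q +
    ∑ S ∈ G.cliqueFinset 3, t S * pen 0 S I q
  refine le_of_forall_pos_le_add fun ε hε => ?_
  have hM : 0 < Fintype.card V * p + 1 := by positivity
  obtain ⟨I, hI, hle⟩ := descend G (fun _ => p) (fun _ => hp) g
    (fun x y => by simp only [g, G.adj_comm x y, pair_comm x y])
    (fun x y => by simp only [g]; split_ifs; linarith [c0 {x, y}]; exact le_rfl)
    (fun x y => by simp only [g]; split_ifs; exact c1 _; exact zero_le_one)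
    (fun x y h => if_neg h)
    (fun x => by
      have : ∑ y, (1 - g x y) ≤ ∑ y, ((if ¬ G.Adj x y then 1 else 0) + e) :=
        sum_le_sum fun y _ => by
          simp only [g]
          by_cases h : G.Adj x y
          · simp only [h, if_true, not_true, if_false]
            linarith [c0 {x, y}]
          · simp [h, he0]
      rw [sum_add_distrib, sum_boole, sum_const, card_univ, nsmul_eq_mul] at this
      rw [← sum_mul]
      nlinarith [hb x])
    F (fun I => by
      have := fun s S => pen_cont (V := V) s S I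
      simp only [F, pr2]
      fun_prop) (div_pos hε hM)
    (fun I q k q0 qI ks k0 k1 kr ke => by
      have a1 := Gen.sum (I := I) (q := q) (k := k) univ fun (S : G.cliqueFinset 2) _ =>
        gen_pair qI ks (hA S).ne (c := c S) (by
          rw [ke]
          simp only [g, hA S, if_true, ← hS S]) (w S)
      have a2 := Gen.sum (I := I) (q := q) (k := k) (G.cliqueFinset 2) fun S _ => by
        simpa only [mul_zero] using (gen_pen q0 qI ks k0 k1 kr hs hs1 S).smul
          (mul_nonneg hA0 (le_max_right (-w S) 0))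
      have a3 := Gen.sum (I := I) (q := q) (k := k) (G.cliqueFinset 3) fun S _ => by
        simpa only [mul_zero] using (gen_pen q0 qI ks k0 k1 kr le_rfl one_pos S).smul (ht S)
      simpa only [add_zero] using (a1.add a2).add a3)
  have e1 : F I 0 = ∑ S ∈ I.powersetCard 2, w S +
      A * (1 - s) ^ I.card * ∑ S ∈ I.powersetCard 2, max (-w S) 0 +
      ∑ S ∈ I.powersetCard 3, t S := by
    simp only [F, pen_zero, mul_sum, ← sum_ite_subset hI]
    congr 1
    · congr 1
      · rw [← sum_coe_sort (G.cliqueFinset 2)]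
        refine sum_congr rfl fun S _ => ?_
        have : S.1 ⊆ I ↔ X S ∈ I ∧ Y S ∈ I := by rw [hS S]; simp [insert_subset_iff]
        by_cases hx : X S ∈ I <;> by_cases hy : Y S ∈ I <;> simp [pr2, this, hx, hy]
      · exact sum_congr rfl fun S _ => by split_ifs <;> ring
    · exact sum_congr rfl fun S _ => by split_ifs <;> simp
  have e2 : F ∅ (fun _ => p) = (1 - e) * p ^ 2 * ∑ S ∈ G.cliqueFinset 2, w S +
      6 * p ^ 3 * ∑ S ∈ G.cliqueFinset 3, t S := by
    simp only [F, mul_sum]
    congr 1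
    · rw [← sum_coe_sort (G.cliqueFinset 2), ← sum_coe_sort (G.cliqueFinset 2), ← sum_add_distrib]
      refine sum_congr rfl fun S _ => ?_
      have h2 := (SimpleGraph.mem_cliqueFinset_iff.1 S.2).2
      have : A * pen s S.1 ∅ (fun _ => p) = e * p ^ 2 := by
        obtain ⟨m, rfl⟩ : ∃ m, r = m + 1 := ⟨r - 1, by omega⟩
        simp only [pen, sdiff_empty, h2, prod_const, sum_const, card_univ, nsmul_eq_mul, he, A,
          card_empty, Nat.add_sub_cancel]
        norm_num [Nat.factorial]
        field_simp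
        ring
      rw [mul_right_comm A, this]
      simp only [pr2, c, notMem_empty, if_false]
      split_ifs with hw
      · rw [max_eq_right (by linarith)]
        ring
      · rw [max_eq_left (by linarith)]
        ring
    · refine sum_congr rfl fun S hS => ?_
      have h3 := (SimpleGraph.mem_cliqueFinset_iff.1 hS).2
      simp only [pen, sdiff_empty, h3, prod_const]
      norm_num [Nat.factorial]
      ring
  have e3 : 0 ≤ F I 0 := by
    rw [e1]
    have u0 : 0 ≤ ∑ S ∈ I.powersetCard 2, max (-w S) 0 := sum_nonneg fun S _ => le_max_right _ _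
    rcases le_or_gt r I.card with hc | hc
    · have := large_nonneg hr ht h hI hc
      have : 0 ≤ A * (1 - s) ^ I.card * ∑ S ∈ I.powersetCard 2, max (-w S) 0 := by positivity
      linarith
    · have a1 : 1 ≤ A * (1 - s) ^ I.card := by
        simp only [A]
        rw [one_div, inv_mul_eq_div, one_le_div (by positivity)]
        exact pow_le_pow_of_le_one hθ.le (by linarith) (by omega)
      have a2 : 0 ≤ ∑ S ∈ I.powersetCard 2, w S + ∑ S ∈ I.powersetCard 2, max (-w S) 0 := by
        rw [← sum_add_distrib]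
        exact sum_nonneg fun S _ => by linarith [le_max_left (-w S) 0]
      have a3 : 0 ≤ ∑ S ∈ I.powersetCard 3, t S := sum_nonneg fun S _ => ht S
      nlinarith
  rw [e2, sum_const, card_univ, nsmul_eq_mul] at hle
  have : ε / (Fintype.card V * p + 1) * (Fintype.card V * p) ≤ ε := by
    rw [div_mul_eq_mul_div, div_le_iff₀ hM]
    nlinarith
  linarith

end Pool.Agent.Lib.MP_dcb632_co.Top
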