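import Pool.Agent.Lib.MP_dcb632_co.Numeric

namespace Pool.Agent.Lib.MP_dcb632_co.Top

lemma Par.mono {r : ℕ} {β β' : ℝ} (h : Par r β) (hβ : β' ≤ β) : Par r β' := by
  obtain ⟨M, s, hM, hs, hs1, h⟩ := h
  exact ⟨M, s, hM, hs, hs1, by nlinarith⟩

lemma log_le_frac {x : ℝ} (hx : 1 ≤ x) : Real.log x ≤ (x - x⁻¹) / 2 := by
  have h := Real.self_le_sinh_iff.2 (Real.log_nonneg hx)
  rwa [Real.sinh_log (by linarith)] at h

lemma par_explicit {r : ℕ} (hr : 5 ≤ r) :
    Par r (1 / (2 * r + 14 * Real.sqrt (r * Real.log r))) := by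
  have r5 : (5 : ℝ) ≤ r := by exact_mod_cast hr
  have L0 : 0 ≤ Real.log r := Real.log_nonneg (by linarith)
  set t := Real.sqrt (r * Real.log r) with ht
  have t0 : 0 ≤ t := Real.sqrt_nonneg _
  have t2 : t ^ 2 = r * Real.log r := Real.sq_sqrt (by positivity)
  have l2 := Real.log_two_gt_d9
  have l2' := Real.log_two_lt_d9
  rcases le_or_gt r 8 with h8 | h8
  · refine (par_nine hr).mono (one_div_le_one_div_of_le (by positivity) ?_)
    have a : (r : ℝ) ≤ 8 := by exact_mod_cast h8
    have b : r / 4 ≤ Real.log r := by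
      have c := Real.one_sub_inv_le_log_of_pos (show (0 : ℝ) < r / 8 by positivity)
      have c' := Real.one_sub_inv_le_log_of_pos (show (0 : ℝ) < r / 4 by positivity)
      rw [Real.log_div (by positivity) (by norm_num)] at c c'
      have d : Real.log 8 = 3 * Real.log 2 := by
        rw [show (8 : ℝ) = 2 ^ 3 by norm_num, Real.log_pow]; norm_num
      have d' : Real.log 4 = 2 * Real.log 2 := by
        rw [show (4 : ℝ) = 2 ^ 2 by norm_num, Real.log_pow]; norm_num
      interval_cases r <;> norm_num at c c' ⊢ <;> linarith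
    have : r / 2 ≤ t := Real.le_sqrt_of_sq_le (by nlinarith)
    linarith
  have r9 : (9 : ℝ) ≤ r := by exact_mod_cast h8
  have d8 : Real.log 8 = 3 * Real.log 2 := by
    rw [show (8 : ℝ) = 2 ^ 3 by norm_num, Real.log_pow]; norm_num
  have La : Real.log r ≤ r / 4 := by
    have c := Real.log_le_sub_one_of_pos (show (0 : ℝ) < r / 8 by positivity)
    rw [Real.log_div (by positivity) (by norm_num)] at c
    linarith
  have Lb : 2.07 ≤ Real.log r := by
    have := Real.log_le_log (by norm_num : (0 : ℝ) < 8) (by linarith : (8 : ℝ) ≤ r)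
    linarith
  have ta : t ≤ r / 2 := Real.sqrt_le_iff.2 ⟨by positivity, by nlinarith⟩
  have tb : 4.25 ≤ t := Real.le_sqrt_of_sq_le (by nlinarith)
  set M := r + 1 + 5 * t with hM
  have M0 : 0 < M := by positivity
  have j0 : (0 : ℝ) < r + 1 := by positivity
  refine ⟨M, 5 * t / M, by linarith, by positivity, by rw [div_lt_one M0]; linarith, ?_⟩
  have e1 : 1 - 5 * t / M = (M / (r + 1))⁻¹ := by
    rw [inv_div, eq_div_iff M0.ne', sub_mul, div_mul_cancel₀ _ M0.ne']
    ring
  have x1 : 1 ≤ M / (r + 1) := by rw [one_le_div j0]; linarith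
  have e2 : Real.exp (-(5 * t / M) * M) / (1 - 5 * t / M) ^ (r + 1) ≤ 1 / r ^ 3 := by
    rw [e1, inv_pow, div_inv_eq_mul, ← Real.exp_log (show 0 < (M / (r + 1)) ^ (r + 1) by positivity),
      ← Real.exp_add, Real.log_pow, one_div, ← Real.exp_log (show (0 : ℝ) < r ^ 3 by positivity),
      ← Real.exp_neg, Real.exp_le_exp, Real.log_pow, neg_mul, div_mul_cancel₀ _ M0.ne']
    have a := mul_le_mul_of_nonneg_left (log_le_frac x1) j0.le
    have b : (r + 1) * ((M / (r + 1) - (M / (r + 1))⁻¹) / 2) = 5 * t - 25 * t ^ 2 / (2 * M) := by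
      rw [inv_div]
      field_simp
      rw [hM]
      ring
    have c : 3 * Real.log r ≤ 25 * t ^ 2 / (2 * M) := by
      rw [le_div_iff₀ (by positivity), t2]
      nlinarith
    push_cast
    linarith
  have T0 : 0 < 2 * r + 14 * t := by positivity
  have e3 : M * (1 / (2 * r + 14 * t)) = 1 / 2 - (4 * t - 2) / (2 * (2 * r + 14 * t)) := by
    field_simp
    rw [hM]
    ring
  have e4 : 15 / (18 * r) ≤ (4 * t - 2) / (2 * (2 * r + 14 * t)) :=
    div_le_div₀ (by linarith) (by linarith) (by positivity) (by linarith)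
  have e5 : M * (2 * (1 / r ^ 3)) < 15 / (18 * r) := by
    rw [mul_one_div, ← mul_div_assoc, div_lt_div_iff₀ (by positivity) (by positivity)]
    have : M * 36 < 15 * r ^ 2 := by nlinarith
    nlinarith
  rw [mul_add, e3, mul_div_assoc]
  nlinarith [mul_le_mul_of_nonneg_left e2 M0.le]

end Pool.Agent.Lib.MP_dcb632_co.Top
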