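import Pool.Agent.Lib.MP_dcb632_co.Dual

namespace Pool.Agent.Lib.MP_dcb632_co.Top

open Finset
open scoped Classical

lemma farkas {κ ι : Type*} [Fintype κ] [Fintype ι] (g : κ → ι → ℝ) (x : ι → ℝ)
    (h : ∀ (y : ι → ℝ) (u : ℝ), (∀ p, ∑ j, y j * g p j < u) → ∑ j, y j * x j ≤ u) :
    ∃ a : κ → ℝ, (∀ p, 0 ≤ a p) ∧ ∀ j, ∑ p, a p * g p j = x j := by
  let L : (κ → ℝ) →ₗ[ℝ] (ι → ℝ) :=
    { toFun := fun a j => ∑ p, a p * g p j
      map_add' := by intro a b; funext j; simp [add_mul, sum_add_distrib]
      map_smul' := by intro r a; funext j; simp [mul_sum, mul_assoc] }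
  have hc : Convex ℝ (L '' stdSimplex ℝ κ) := (convex_stdSimplex ℝ κ).linear_image L
  have hk : IsCompact (L '' stdSimplex ℝ κ) :=
    (isCompact_stdSimplex ℝ κ).image L.continuous_of_finiteDimensional
  by_contra hn
  have hx : x ∉ L '' stdSimplex ℝ κ := by
    rintro ⟨a, ha, e⟩
    exact hn ⟨a, ha.1, fun j => congrFun e j⟩
  obtain ⟨f, u, h1, h2⟩ := geometric_hahn_banach_closed_point hc hk.isClosed hx
  have hf : ∀ z : ι → ℝ, f z = ∑ j, f (Pi.single j 1) * z j := by
    intro z
    conv_lhs => rw [pi_eq_sum_univ' z]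
    rw [map_sum]
    apply sum_congr rfl
    intro j _
    rw [map_smul, smul_eq_mul, mul_comm]
  have := h (fun j => f (Pi.single j 1)) u (by
    intro p
    rw [← hf]
    apply h1
    refine ⟨Pi.single p 1, single_mem_stdSimplex ℝ p, ?_⟩
    funext j
    simp [L, Pi.single_apply])
  rw [← hf] at this
  linarith

variable {V : Type} [Fintype V]

/-- From the dual inequality to a spread fractional decomposition. -/
lemma frac_of_dual (G : SimpleGraph V) {r : ℕ} (hr : 3 ≤ r) {δ : ℝ} (hδ : 0 ≤ δ)
    (hd : ∀ w t : Finset V → ℝ, (∀ S, 0 ≤ t S) → (∀ K, G.IsNClique r K →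
      0 ≤ ∑ S ∈ K.powersetCard 2, w S + ∑ S ∈ K.powersetCard 3, t S) →
      0 ≤ ∑ S ∈ G.cliqueFinset 2, w S + δ * ∑ S ∈ G.cliqueFinset 3, t S) :
    ∃ x : Finset V → ℝ, (∀ K, 0 ≤ x K) ∧
      (∀ S ∈ G.cliqueFinset 2, ∑ K ∈ (G.cliqueFinset r).filter (S ⊆ ·), x K = 1) ∧
      ∀ S ∈ G.cliqueFinset 3, ∑ K ∈ (G.cliqueFinset r).filter (S ⊆ ·), x K ≤ δ := by
  let N : ℝ := (G.cliqueFinset 2).card + δ * (G.cliqueFinset 3).card + 1
  have hN : 0 < N := by positivity
  have dj : ∀ S, S ∈ G.cliqueFinset 2 → S ∉ G.cliqueFinset 3 := fun S a b => by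
    have := (SimpleGraph.mem_cliqueFinset_iff.1 a).2
    have := (SimpleGraph.mem_cliqueFinset_iff.1 b).2
    omega
  have split : ∀ y a b : Finset V → ℝ, ∑ S, y S * ((if S ∈ G.cliqueFinset 2 then a S else 0) +
      (if S ∈ G.cliqueFinset 3 then b S else 0)) =
      ∑ S ∈ G.cliqueFinset 2, y S * a S + ∑ S ∈ G.cliqueFinset 3, y S * b S := fun y a b => by
    simp only [mul_add, sum_add_distrib, mul_ite, mul_zero, sum_ite_mem, univ_inter]
  obtain ⟨a, a0, a1⟩ := farkas (κ := Finset V × Bool) (ι := Finset V)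
    (fun P S => (if S ∈ G.cliqueFinset 2 then
        (if P.2 = true ∧ P.1 ∈ G.cliqueFinset r ∧ S ⊆ P.1 then N else 0) else 0) +
      (if S ∈ G.cliqueFinset 3 then
        (if (P.2 = true ∧ P.1 ∈ G.cliqueFinset r ∧ S ⊆ P.1) ∨ (P.2 = false ∧ S = P.1)
          then N else 0) else 0))
    (fun S => (if S ∈ G.cliqueFinset 2 then 1 else 0) + (if S ∈ G.cliqueFinset 3 then δ else 0))
    (by
      intro y u hy
      simp only [split] at hy ⊢
      have u0 : 0 < u := by
        have := hy (∅, false)
        rw [sum_eq_zero (by simp), sum_eq_zero] at this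
        · simpa using this
        · intro S hS
          have := (SimpleGraph.mem_cliqueFinset_iff.1 hS).2
          have : S ≠ ∅ := by rintro rfl; simp at this
          simp [this]
      have u1 : ∀ S ∈ G.cliqueFinset 3, y S ≤ u / N := fun S hS => by
        have := hy (S, false)
        simp only [Bool.false_eq_true, false_and, if_false, mul_zero, sum_const_zero, false_or,
          true_and, mul_ite, sum_ite_eq', hS, if_true, zero_add] at this
        rw [le_div_iff₀ hN]
        exact this.le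
      have un : 0 < u / N := div_pos u0 hN
      have := hd (fun S => u / N - y S) (fun S => max (u / N - y S) 0) (fun S => le_max_right _ _)
        (fun K hK => by
          have h1 := hy (K, true)
          simp only [SimpleGraph.mem_cliqueFinset_iff.2 hK, true_and, Bool.true_eq_false,
            false_and, or_false, mul_ite, mul_zero, sum_ite_subset hK.1, ← sum_mul] at h1
          have h2 : ∑ S ∈ K.powersetCard 3, (u / N - y S) ≤
              ∑ S ∈ K.powersetCard 3, max (u / N - y S) 0 := sum_le_sum fun S _ => le_max_left _ _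
          have h3 : (1 : ℝ) ≤ (K.powersetCard 2).card := by
            rw [card_powersetCard, hK.2]
            exact_mod_cast Nat.choose_pos (by omega)
          have h4 : ∑ S ∈ K.powersetCard 2, y S + ∑ S ∈ K.powersetCard 3, y S ≤ u / N := by
            rw [le_div_iff₀ hN]
            linarith
          simp only [sum_sub_distrib, sum_const, nsmul_eq_mul] at h2 ⊢
          have h5 : (0 : ℝ) ≤ (K.powersetCard 3).card * (u / N) := by positivity
          nlinarith)
      rw [sum_congr rfl (fun S hS => max_eq_left (sub_nonneg.2 (u1 S hS)))] at this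
      simp only [sum_sub_distrib, sum_const, nsmul_eq_mul, mul_one, ← sum_mul] at this ⊢
      have e : N * (u / N) = u := by field_simp
      simp only [N] at e
      nlinarith)
  refine ⟨fun K => a (K, true) * N, fun K => mul_nonneg (a0 _) hN.le, fun S hS => ?_,
    fun S hS => ?_⟩
  · have := a1 S
    simp only [hS, dj S hS, if_true, if_false, add_zero, Fintype.sum_prod_type, Fintype.sum_bool,
      true_and, Bool.false_eq_true, false_and, mul_zero, mul_ite] at this
    rw [← this, sum_filter, ← sum_subset (subset_univ (G.cliqueFinset r))]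
    · exact sum_congr rfl fun K hK => by simp [hK]
    · intro K _ hK
      simp [hK]
  · have := a1 S
    have h2 : S ∉ G.cliqueFinset 2 := fun h => dj S h hS
    simp only [hS, h2, if_true, if_false, zero_add, Fintype.sum_prod_type, Fintype.sum_bool,
      true_and, Bool.false_eq_true, Bool.true_eq_false, false_and, or_false, false_or, mul_zero,
      mul_ite, sum_add_distrib] at this
    have h3 : 0 ≤ ∑ K, if S = K then a (K, false) * N else 0 := sum_nonneg fun K _ => by
      split_ifs
      · exact mul_nonneg (a0 _) hN.le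
      · exact le_rfl
    rw [← this, sum_filter, ← sum_subset (subset_univ (G.cliqueFinset r))]
    · refine le_add_of_le_of_nonneg (le_of_eq (sum_congr rfl fun K hK => by simp [hK])) h3
    · intro K _ hK
      simp [hK]

lemma frac (G : SimpleGraph V) {r : ℕ} (hr : 3 ≤ r) {b p s e : ℝ} (hp : 0 < p) (hs : 0 ≤ s)
    (hs1 : s < 1) (hb : ∀ x, ((univ.filter fun y => ¬ G.Adj x y).card : ℝ) ≤ b)
    (he : e = 2 * Real.exp (-s * (Fintype.card V * p)) / (1 - s) ^ (r + 1)) (he1 : e ≤ 1 / 2)
    (hrow : p * (b + e * Fintype.card V) ≤ 1 / 2) :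
    ∃ x : Finset V → ℝ, (∀ K, 0 ≤ x K) ∧
      (∀ S ∈ G.cliqueFinset 2, ∑ K ∈ (G.cliqueFinset r).filter (S ⊆ ·), x K = 1) ∧
      ∀ S ∈ G.cliqueFinset 3, ∑ K ∈ (G.cliqueFinset r).filter (S ⊆ ·), x K ≤ 12 * p := by
  refine frac_of_dual G hr (by positivity) fun w t ht h => ?_
  have a := dual G hr hp.le hs hs1 hb he (by linarith) hrow w t ht h
  have t0 : 0 ≤ ∑ S ∈ G.cliqueFinset 3, t S := sum_nonneg fun S _ => ht S
  have a2 : 0 < (1 - e) * p ^ 2 := mul_pos (by linarith) (by positivity)
  refine nonneg_of_mul_nonneg_right ?_ a2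
  have : 0 ≤ (1 / 2 - e) * (p ^ 3 * ∑ S ∈ G.cliqueFinset 3, t S) :=
    mul_nonneg (by linarith) (by positivity)
  nlinarith

end Pool.Agent.Lib.MP_dcb632_co.Top
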