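import Pool.Agent.Lib.MP_dcb632_co.Kernel

namespace Pool.Agent.Lib.MP_dcb632_co.Top

open Finset
open scoped Classical

variable {V : Type} [Fintype V]

noncomputable def Kq (k : V → V → ℝ) (q : V → ℝ) (x : V) : ℝ := ∑ y, k x y * q y

noncomputable def drift (k : V → V → ℝ) (q : V → ℝ) (ε : ℝ) (x : V) : ℝ :=
  q x * (1 - ε * (1 - Kq k q x))

def jump (k : V → V → ℝ) (q : V → ℝ) (v x : V) : ℝ := q x * (1 - k v x)

/-- The generator of the clique growing process applied to `F` is at most `L`. -/
def Gen (F : Finset V → (V → ℝ) → ℝ) (I : Finset V) (q : V → ℝ) (k : V → V → ℝ) (L : ℝ) : Prop :=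
  ∃ D, HasDerivAt (fun ε => F I (drift k q ε)) D 0 ∧
    ∑ v, q v * (F (insert v I) (jump k q v) - F I q) + D ≤ L

variable {I : Finset V} {q : V → ℝ} {k : V → V → ℝ}

lemma Gen.add {F F' : Finset V → (V → ℝ) → ℝ} {L L' : ℝ} (h : Gen F I q k L)
    (h' : Gen F' I q k L') : Gen (fun I q => F I q + F' I q) I q k (L + L') := by
  obtain ⟨D, a, b⟩ := h
  obtain ⟨D', a', b'⟩ := h'
  refine ⟨D + D', a.add a', ?_⟩
  have : ∑ v, q v * (F (insert v I) (jump k q v) + F' (insert v I) (jump k q v) - (F I q + F' I q)) =
      ∑ v, q v * (F (insert v I) (jump k q v) - F I q) +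
      ∑ v, q v * (F' (insert v I) (jump k q v) - F' I q) := by
    rw [← sum_add_distrib]
    exact sum_congr rfl fun v _ => by ring
  linarith

lemma Gen.smul {F : Finset V → (V → ℝ) → ℝ} {L a : ℝ} (ha : 0 ≤ a) (h : Gen F I q k L) :
    Gen (fun I q => a * F I q) I q k (a * L) := by
  obtain ⟨D, a1, b⟩ := h
  refine ⟨a * D, a1.const_mul a, ?_⟩
  have : ∑ v, q v * (a * F (insert v I) (jump k q v) - a * F I q) =
      a * ∑ v, q v * (F (insert v I) (jump k q v) - F I q) := by
    rw [mul_sum]
    exact sum_congr rfl fun v _ => by ring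
  rw [this, ← mul_add]
  exact mul_le_mul_of_nonneg_left b ha

lemma Gen.sum {ι : Type} (T : Finset ι) {F : ι → Finset V → (V → ℝ) → ℝ}
    (h : ∀ i ∈ T, Gen (F i) I q k 0) : Gen (fun I q => ∑ i ∈ T, F i I q) I q k 0 := by
  induction T using Finset.induction_on with
  | empty => exact ⟨0, by simpa using hasDerivAt_const _ _, by simp⟩
  | insert i T hi ih =>
    have := (h i (mem_insert_self _ _)).add (ih fun j hj => h j (mem_insert_of_mem hj))
    simpa only [sum_insert hi, add_zero] using this

lemma drift_deriv (x : V) : HasDerivAt (fun ε => drift k q ε x) (-(q x * (1 - Kq k q x))) 0 := by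
  unfold drift
  have := (((hasDerivAt_id (0 : ℝ)).mul_const (1 - Kq k q x)).const_sub 1).const_mul (q x)
  simp only [one_mul, mul_neg] at this
  exact this

@[simp] lemma drift_zero : drift k q 0 = q := by
  funext x
  simp [drift]

lemma sum_jump (v : V) : ∑ x, jump k q v x = ∑ x, q x - Kq k q v := by
  rw [Kq, ← sum_sub_distrib]
  exact sum_congr rfl fun x _ => by simp only [jump]; ring

lemma gen_mass : Gen (fun _ q => ∑ x, q x) I q k (-∑ x, q x) := by
  refine ⟨∑ x, -(q x * (1 - Kq k q x)), HasDerivAt.fun_sum fun x _ => drift_deriv x, le_of_eq ?_⟩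
  simp only [sum_jump]
  rw [← sum_add_distrib, ← sum_neg_distrib]
  exact sum_congr rfl fun x _ => by ring

/-- Conditional probability that both `x` and `y` end up in the clique. -/
noncomputable def pr2 (c : ℝ) (x y : V) (I : Finset V) (q : V → ℝ) : ℝ :=
  (if x ∈ I then 1 else 0) * (if y ∈ I then 1 else 0) + (if x ∈ I then 1 else 0) * q y +
    q x * (if y ∈ I then 1 else 0) + c * (q x * q y)

lemma gen_pair (hI : ∀ x ∈ I, q x = 0) (ks : ∀ x y, k x y = k y x) {x y : V} (hxy : x ≠ y)
    {c : ℝ} (hc : 1 - k x y = c * (1 - (∑ v, k v x * k v y * q v) / 2)) (a : ℝ) :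
    Gen (fun I q => a * pr2 c x y I q) I q k 0 := by
  set ix : ℝ := if x ∈ I then 1 else 0 with hix
  set iy : ℝ := if y ∈ I then 1 else 0 with hiy
  have hd : HasDerivAt (fun ε => a * pr2 c x y I (drift k q ε))
      (a * (ix * (-(q y * (1 - Kq k q y))) + (-(q x * (1 - Kq k q x))) * iy +
        c * ((-(q x * (1 - Kq k q x))) * q y + q x * (-(q y * (1 - Kq k q y)))))) 0 := by
    have := ((((hasDerivAt_const (0 : ℝ) (ix * iy)).add ((drift_deriv (k := k) (q := q) y).const_mul ix)).add
      ((drift_deriv (k := k) (q := q) x).mul_const iy)).add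
      (((drift_deriv (k := k) (q := q) x).mul (drift_deriv (k := k) (q := q) y)).const_mul c)).const_mul a
    simp only [drift_zero, zero_add] at this
    exact this
  refine ⟨_, hd, le_of_eq ?_⟩
  have key : ∀ v, q v * (a * pr2 c x y (insert v I) (jump k q v) - a * pr2 c x y I q) =
      a * ((if v = x then q x * iy + q x * q y * (1 - k x y) else 0) +
        (if v = y then q y * ix + q x * q y * (1 - k x y) else 0) -
        ix * q y * (k y v * q v) - q x * iy * (k x v * q v) -
        c * (q x * q y) * (k x v * q v + k y v * q v - k v x * k v y * q v)) := by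
    intro v
    by_cases hv : q v = 0
    · by_cases h1 : v = x
      · rw [if_pos h1, if_neg (fun h2 => hxy (h1.symm.trans h2)), ← h1, hv]
        ring
      · by_cases h2 : v = y
        · rw [if_neg h1, if_pos h2, ← h2, hv]
          ring
        · rw [if_neg h1, if_neg h2, hv]
          ring
    have hvI : v ∉ I := fun h => hv (hI v h)
    simp only [pr2, jump, mem_insert, ← hix, ← hiy, ks x v, ks y v]
    by_cases h1 : v = x
    · subst h1
      have : ix = 0 := by rw [hix, if_neg hvI]
      simp only [true_or, if_true, hxy, hxy.symm, false_or, if_false, ← hiy, this]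
      ring
    · by_cases h2 : v = y
      · subst h2
        have : iy = 0 := by rw [hiy, if_neg hvI]
        simp only [true_or, if_true, hxy, hxy.symm, false_or, if_false, ← hix, this, ks v x]
        ring
      · simp only [h1, h2, Ne.symm h1, Ne.symm h2, false_or, if_false, ← hix, ← hiy]
        ring
  simp only [key]
  rw [← mul_sum, ← mul_add]
  simp only [sum_sub_distrib, sum_add_distrib, sum_ite_eq', mem_univ, if_true, ← mul_sum]
  rw [hc]
  simp only [Kq]
  ring

end Pool.Agent.Lib.MP_dcb632_co.Top
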