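import Pool.Agent.Lib.MP_dcb632_co.Pen

namespace Pool.Agent.Lib.MP_dcb632_co.Top

open Finset
open scoped Classical

variable {V : Type} [Fintype V]

/-- States of the clique growing process. -/
def St (G : SimpleGraph V) (p : V → ℝ) (I : Finset V) : Set (V → ℝ) :=
  {q | (∀ x, 0 ≤ q x) ∧ (∀ x, q x ≤ p x) ∧ ∀ x, ∀ y ∈ I, ¬ G.Adj y x → q x = 0}

lemma St_compact (G : SimpleGraph V) (p : V → ℝ) (I : Finset V) : IsCompact (St G p I) := by
  refine (isCompact_Icc (a := (0 : V → ℝ)) (b := p)).of_isClosed_subset ?_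
    fun q hq => ⟨hq.1, hq.2.1⟩
  simp only [St, Set.ofPred_and, Set.ofPred_forall]
  refine IsClosed.inter ?_ (IsClosed.inter ?_ ?_)
  · exact isClosed_iInter fun x => isClosed_le (by fun_prop) (by fun_prop)
  · exact isClosed_iInter fun x => isClosed_le (by fun_prop) (by fun_prop)
  · exact isClosed_iInter fun x => isClosed_iInter fun y => isClosed_iInter fun _ =>
      isClosed_iInter fun _ => isClosed_eq (by fun_prop) (by fun_prop)

/-- A potential with negative generator is minimised at a finished clique. -/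
lemma descend (G : SimpleGraph V) (p : V → ℝ) (hp : ∀ x, 0 ≤ p x) (g : V → V → ℝ)
    (hs : ∀ x y, g x y = g y x) (h0 : ∀ x y, 0 ≤ g x y) (h1 : ∀ x y, g x y ≤ 1)
    (hG : ∀ x y, ¬ G.Adj x y → g x y = 0) (hrow : ∀ x, ∑ y, (1 - g x y) * p y ≤ 1 / 2)
    (F : Finset V → (V → ℝ) → ℝ) (hF : ∀ I, Continuous (F I)) {ε : ℝ} (hε : 0 < ε)
    (hgen : ∀ (I : Finset V) (q : V → ℝ) (k : V → V → ℝ), (∀ x, 0 ≤ q x) → (∀ x ∈ I, q x = 0) →
      (∀ x y, k x y = k y x) → (∀ x y, 0 ≤ k x y) → (∀ x y, k x y ≤ 1) → (∀ x, Kq k q x ≤ 1) →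
      (∀ x y, 1 - k x y = g x y * (1 - (∑ v, k v x * k v y * q v) / 2)) → Gen F I q k 0) :
    ∃ I : Finset V, G.IsClique (I : Set V) ∧ F I 0 ≤ F ∅ p + ε * ∑ x, p x := by
  let F' : Finset V → (V → ℝ) → ℝ := fun I q => F I q + ε * ∑ x, q x
  have hmin : ∀ I, ∃ q ∈ St G p I, IsMinOn (F' I) (St G p I) q := fun I =>
    (St_compact G p I).exists_isMinOn ⟨0, fun _ => le_rfl, hp, fun _ _ _ _ => rfl⟩
      (((hF I).add (by fun_prop)).continuousOn)
  choose Q hQ hQm using hmin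
  obtain ⟨I, hI, hIm⟩ := exists_min_image (univ.filter fun I : Finset V => G.IsClique (I : Set V))
    (fun I => F' I (Q I)) ⟨∅, by simp⟩
  replace hI := (mem_filter.1 hI).2
  have hm : ∀ J : Finset V, G.IsClique (J : Set V) → ∀ q ∈ St G p J, F' I (Q I) ≤ F' J q :=
    fun J hJ q hq => (hIm J (mem_filter.2 ⟨mem_univ _, hJ⟩)).trans (hQm J hq)
  obtain ⟨q0, qp, qI⟩ := hQ I
  set q := Q I
  obtain ⟨k, ks, k0, k1, kr, ke⟩ := exists_kernel g hs h0 h1 q q0 (fun x =>
    le_trans (sum_le_sum fun y _ => mul_le_mul_of_nonneg_left (qp y) (sub_nonneg.2 (h1 x y)))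
      (hrow x))
  have K0 : ∀ x, 0 ≤ Kq k q x := fun x => sum_nonneg fun y _ => mul_nonneg (k0 _ _) (q0 _)
  obtain ⟨D, hD, hL⟩ := (hgen I q k q0 (fun x hx => qI x x hx (G.loopless.irrefl x)) ks k0 k1 kr
    ke).add (gen_mass.smul hε.le)
  have a1 : 0 ≤ ∑ v, q v * (F' (insert v I) (jump k q v) - F' I q) := by
    refine sum_nonneg fun v _ => ?_
    by_cases hv : q v = 0
    · rw [hv, zero_mul]
    refine mul_nonneg (q0 v) (sub_nonneg.2 (hm _ ?_ _ ⟨fun x => ?_, fun x => ?_, fun x y hy h => ?_⟩))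
    · rw [coe_insert]
      refine hI.insert fun y hy _ => ?_
      by_contra h
      exact hv (qI v y hy fun h' => h h'.symm)
    · exact mul_nonneg (q0 x) (sub_nonneg.2 (k1 _ _))
    · exact (mul_le_of_le_one_right (q0 x) (by linarith [k0 v x])).trans (qp x)
    · rcases mem_insert.1 hy with rfl | hy
      · rw [jump, ke, hG _ _ h]
        ring
      · rw [jump, qI x y hy h, zero_mul]
  have a2 : 0 ≤ D := by
    by_contra hneg
    have hlt := (hasDerivAt_iff_tendsto_slope_zero.1 hD).eventually (gt_mem_nhds (not_le.1 hneg))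
    have hev : ∀ᶠ t in nhdsWithin (0 : ℝ) (Set.Ioi 0), t ∈ Set.Ioo (0 : ℝ) 1 :=
      Ioo_mem_nhdsGT one_pos
    have hsub : Set.Ioi (0 : ℝ) ⊆ {0}ᶜ := fun t ht => ne_of_gt ht
    obtain ⟨t, ht, ht0, ht1⟩ := ((hlt.filter_mono (nhdsWithin_mono _ hsub)).and hev).exists
    have hst : drift k q t ∈ St G p I := by
      refine ⟨fun x => mul_nonneg (q0 x) ?_, fun x => ?_, fun x y hy h => ?_⟩
      · nlinarith [K0 x, kr x]
      · refine (mul_le_of_le_one_right (q0 x) ?_).trans (qp x)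
        have : Kq k q x ≤ 1 := kr x
        nlinarith
      · rw [drift, qI x y hy h, zero_mul]
    have := hm I hI _ hst
    simp only [zero_add, drift_zero, smul_eq_mul] at ht
    have h2 : 0 ≤ t⁻¹ * (F' I (drift k q t) - F' I q) :=
      mul_nonneg (inv_nonneg.2 ht0.le) (sub_nonneg.2 this)
    exact absurd ht (not_lt.2 h2)
  have a3 : ∑ x, q x ≤ 0 := by
    by_contra h
    have := mul_pos hε (not_le.1 h)
    simp only [F'] at a1
    linarith
  have a4 : q = 0 := funext fun x =>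
    (sum_eq_zero_iff_of_nonneg fun x _ => q0 x).1 (le_antisymm a3 (sum_nonneg fun x _ => q0 x)) x
      (mem_univ _)
  refine ⟨I, hI, ?_⟩
  have := hm ∅ (by simp) p ⟨hp, fun _ => le_rfl, by simp⟩
  rw [a4] at this
  simpa [F'] using this

end Pool.Agent.Lib.MP_dcb632_co.Top
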