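import Mathlib

namespace Pool.Agent.Lib.MP_dcb632_co.Top

open Finset
open scoped Classical

variable {V : Type} [Fintype V]

/-- Blocking kernel that cancels its own pair correlations. -/
lemma exists_kernel (g : V → V → ℝ) (hs : ∀ x y, g x y = g y x) (h0 : ∀ x y, 0 ≤ g x y)
    (h1 : ∀ x y, g x y ≤ 1) (q : V → ℝ) (hq : ∀ x, 0 ≤ q x)
    (hrow : ∀ x, ∑ y, (1 - g x y) * q y ≤ 1 / 2) :
    ∃ k : V → V → ℝ, (∀ x y, k x y = k y x) ∧ (∀ x y, 0 ≤ k x y) ∧ (∀ x y, k x y ≤ 1) ∧
      (∀ x, ∑ y, k x y * q y ≤ 1) ∧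
      ∀ x y, 1 - k x y = g x y * (1 - (∑ v, k v x * k v y * q v) / 2) := by
  let Φ : (V → V → ℝ) → V → V → ℝ :=
    fun k x y => 1 - g x y * (1 - (∑ v, k v x * k v y * q v) / 2)
  let S : Set (V → V → ℝ) := {k | (∀ x y, k x y = k y x) ∧ (∀ x y, 0 ≤ k x y) ∧
    (∀ x y, k x y ≤ 1) ∧ (∀ x, ∑ y, k x y * q y ≤ 1) ∧ ∀ x y, k x y ≤ Φ k x y}
  have hcl : IsClosed S := by
    simp only [S, Φ, Set.ofPred_and, Set.ofPred_forall]
    refine IsClosed.inter ?_ (IsClosed.inter ?_ (IsClosed.inter ?_ (IsClosed.inter ?_ ?_)))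
    · exact isClosed_iInter fun x => isClosed_iInter fun y => isClosed_eq (by fun_prop) (by fun_prop)
    · exact isClosed_iInter fun x => isClosed_iInter fun y => isClosed_le (by fun_prop) (by fun_prop)
    · exact isClosed_iInter fun x => isClosed_iInter fun y => isClosed_le (by fun_prop) (by fun_prop)
    · exact isClosed_iInter fun x => isClosed_le (by fun_prop) (by fun_prop)
    · exact isClosed_iInter fun x => isClosed_iInter fun y => isClosed_le (by fun_prop) (by fun_prop)
  have hcp : IsCompact S := by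
    refine (isCompact_Icc (a := (0 : V → V → ℝ)) (b := 1)).of_isClosed_subset hcl ?_
    intro k hk
    exact ⟨fun x y => hk.2.1 x y, fun x y => hk.2.2.1 x y⟩
  have hne : S.Nonempty := ⟨0, by
    refine ⟨fun _ _ => rfl, fun _ _ => le_rfl, fun _ _ => zero_le_one, fun x => by simp,
      fun x y => ?_⟩
    simp [Φ, h1 x y]⟩
  obtain ⟨k, hk, hmax⟩ := hcp.exists_isMaxOn hne
    (f := fun k : V → V → ℝ => ∑ x, ∑ y, k x y) (by fun_prop)
  obtain ⟨ks, k0, k1, kr, kΦ⟩ := hk
  have hC0 : ∀ x y, 0 ≤ ∑ v, k v x * k v y * q v := fun x y =>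
    sum_nonneg fun v _ => mul_nonneg (mul_nonneg (k0 _ _) (k0 _ _)) (hq v)
  have hC1 : ∀ x y, ∑ v, k v x * k v y * q v ≤ 1 := fun x y => by
    refine le_trans (sum_le_sum fun v _ => ?_) (kr x)
    rw [ks x v]
    have := mul_le_mul_of_nonneg_left (k1 v y) (k0 v x)
    exact mul_le_mul_of_nonneg_right (by linarith) (hq v)
  have hΦ : Φ k ∈ S := by
    refine ⟨fun x y => ?_, fun x y => ?_, fun x y => ?_, fun x => ?_, fun x y => ?_⟩
    · simp only [Φ, hs x y, mul_comm (k _ x) (k _ y)]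
    · have := hC0 x y
      have := h0 x y
      have := h1 x y
      simp only [Φ]
      nlinarith
    · have := hC1 x y
      have := h0 x y
      simp only [Φ]
      nlinarith
    · have e1 : ∑ y, Φ k x y * q y ≤ ∑ y, ((1 - g x y) * q y +
          (∑ v, k v x * k v y * q v) * q y / 2) := by
        refine sum_le_sum fun y _ => ?_
        have := mul_nonneg (hC0 x y) (hq y)
        have := h1 x y
        simp only [Φ]
        nlinarith
      have e2 : ∑ y, (∑ v, k v x * k v y * q v) * q y ≤ 1 := by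
        simp only [sum_mul]
        rw [sum_comm]
        refine le_trans (sum_le_sum fun v _ => ?_) (kr x)
        have : ∑ y, k v x * k v y * q v * q y = k x v * q v * ∑ y, k v y * q y := by
          rw [mul_sum, ks x v]
          exact sum_congr rfl fun y _ => by ring
        rw [this]
        exact mul_le_of_le_one_right (mul_nonneg (k0 _ _) (hq _)) (kr v)
      rw [sum_add_distrib, ← sum_div] at e1
      linarith [hrow x]
    · have : ∑ v, k v x * k v y * q v ≤ ∑ v, Φ k v x * Φ k v y * q v :=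
        sum_le_sum fun v _ => mul_le_mul_of_nonneg_right
          (mul_le_mul (kΦ v x) (kΦ v y) (k0 _ _) ((k0 _ _).trans (kΦ v x))) (hq v)
      have := h0 x y
      show 1 - g x y * (1 - (∑ v, k v x * k v y * q v) / 2) ≤
        1 - g x y * (1 - (∑ v, Φ k v x * Φ k v y * q v) / 2)
      nlinarith
  have hle : ∑ x, ∑ y, Φ k x y ≤ ∑ x, ∑ y, k x y := hmax hΦ
  have he : ∀ x y, k x y = Φ k x y := by
    have a1 := (sum_eq_sum_iff_of_le (s := univ) (f := fun x => ∑ y, k x y)
      (g := fun x => ∑ y, Φ k x y) (fun x _ => sum_le_sum fun y _ => kΦ x y)).1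
      (le_antisymm (sum_le_sum fun x _ => sum_le_sum fun y _ => kΦ x y) hle)
    intro x y
    exact (sum_eq_sum_iff_of_le (s := univ) (fun y _ => kΦ x y)).1 (a1 x (mem_univ _)) y (mem_univ _)
  refine ⟨k, ks, k0, k1, kr, fun x y => ?_⟩
  have := he x y
  simp only [Φ] at this
  linarith

end Pool.Agent.Lib.MP_dcb632_co.Top
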