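import Pool.Agent.Lib.MP_dcb632_co.Round

namespace Pool.Agent.Lib.MP_dcb632_co.Top

open Finset Filter Topology
open scoped Classical

lemma choose_two (r : ℕ) : 2 * (r.choose 2 : ℝ) = r * (r - 1) := by
  rw [Nat.cast_choose_two]
  ring

lemma mp_upper {r n δ : ℕ} (hδ : δ < n) :
    (∃ G : SimpleGraph (Fin n), (∀ v, δ ≤ dg G v) ∧ packingNumber G r = minPacking r n δ) ∧
      (minPacking r n δ : ℝ) * (r * (r - 1)) ≤ n * δ + 1 := by
  obtain ⟨G, -, h1, h2⟩ := exists_near_regular (univ : Finset (Fin n)) (n - δ) (by omega)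
  rw [card_univ, Fintype.card_fin, show n - (n - δ) = δ by omega] at h1 h2
  have hm : packingNumber G r ∈ {m | ∃ G : SimpleGraph (Fin n),
      (∀ v, δ ≤ (G.neighborSet v).ncard) ∧ packingNumber G r = m} :=
    ⟨G, fun v => by rw [ncard_eq]; exact h1 v (mem_univ _), rfl⟩
  constructor
  · obtain ⟨G', a, b⟩ := Nat.sInf_mem ⟨_, hm⟩
    exact ⟨G', fun v => by rw [← ncard_eq]; exact a v, b⟩
  · obtain ⟨P, hP, e, -⟩ := pn_spec G r
    have a : minPacking r n δ ≤ P.card := e ▸ Nat.sInf_le hm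
    have b := packing_le hP
    rw [handshake] at h2
    have c : 2 * (minPacking r n δ * r.choose 2) ≤ n * δ + 1 :=
      (Nat.mul_le_mul_left 2 ((Nat.mul_le_mul_right _ a).trans b)).trans h2
    rw [← choose_two]
    have : ((2 * (minPacking r n δ * r.choose 2) : ℕ) : ℝ) ≤ (n * δ + 1 : ℕ) := by exact_mod_cast c
    push_cast at this
    linarith

lemma pn_lower {r : ℕ} (hr : 3 ≤ r) {ε : ℝ} (hε : 0 < ε) : ∃ δ > 0, ∃ n0 : ℕ,
    ∀ (V : Type) [Fintype V] (G : SimpleGraph V) (n d : ℕ) (p s e : ℝ), Fintype.card V = n →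
      n0 ≤ n → 0 < p → 12 * p ≤ δ → 0 ≤ s → s < 1 → (∀ v, d ≤ dg G v) →
      e = 2 * Real.exp (-s * (n * p)) / (1 - s) ^ (r + 1) → e ≤ 1 / 2 →
      p * (n - d + e * n) ≤ 1 / 2 →
      (n : ℝ) * d ≤ (packingNumber G r + ε * n ^ 2) * (r * (r - 1)) := by
  obtain ⟨δ, δ0, n0, hn0⟩ := round (r := r) (by omega) hε
  refine ⟨δ, δ0, n0, fun V _ G n d p s e hn a0 hp a2 hs hs1 hG he he1 hrow => ?_⟩
  subst hn
  obtain ⟨x, x0, x2, x3⟩ := frac G hr (b := Fintype.card V - d) hp hs hs1 (fun v => by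
      have := card_sel_add (fun y => G.Adj v y)
      have h2 := hG v
      have : (sel fun y => ¬ G.Adj v y).card + d ≤ Fintype.card V := by unfold dg at h2; omega
      have : ((sel fun y => ¬ G.Adj v y).card : ℝ) + d ≤ Fintype.card V := by exact_mod_cast this
      rw [le_sub_iff_add_le]
      refine le_trans (le_of_eq ?_) this
      congr 3
      ext y
      simp) he he1 hrow
  obtain ⟨P, hP, lo⟩ := hn0 V G x a0 x0 (fun S hS => (x2 S hS).le) fun S hS => (x3 S hS).trans a2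
  obtain ⟨Q, -, eQ, hQ⟩ := pn_spec G r
  have l1 : (P.card : ℝ) ≤ packingNumber G r := by exact_mod_cast eQ ▸ hQ P hP
  have l2 := sum_decomp x2
  have l3 : (Fintype.card V : ℝ) * d ≤ 2 * (G.cliqueFinset 2).card := by
    have := card_nsmul_le_sum univ (dg G) d fun v _ => hG v
    rw [handshake, card_univ, smul_eq_mul] at this
    exact_mod_cast this
  rw [← l2, ← mul_assoc, choose_two, mul_comm ((r : ℝ) * (r - 1))] at l3
  have r3 : (3 : ℝ) ≤ r := by exact_mod_cast hr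
  exact l3.trans (mul_le_mul_of_nonneg_right (by linarith) (by nlinarith))

lemma top {r : ℕ} (hr : 3 ≤ r) {M s γ : ℝ} (hM : 1 ≤ M) (hs : 0 ≤ s) (hs1 : s < 1) (h0 : 0 ≤ γ)
    (h1 : γ < 1) (h : M * (1 - γ + 2 * Real.exp (-s * M) / (1 - s) ^ (r + 1)) < 1 / 2) :
    Tendsto (fun n : ℕ => (minPacking r n ⌊γ * n⌋₊ : ℝ) / n ^ 2) atTop
      (𝓝 (γ / (r * (r - 1)))) := by
  set e := 2 * Real.exp (-s * M) / (1 - s) ^ (r + 1) with he
  have e0 : 0 ≤ e := by
    have : 0 < 1 - s := by linarith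
    positivity
  have r3 : (3 : ℝ) ≤ r := by exact_mod_cast hr
  have R1 : (1 : ℝ) ≤ r * (r - 1) := by nlinarith
  rw [Metric.tendsto_atTop]
  intro ε hε
  obtain ⟨δ, δ0, n0, hn0⟩ := pn_lower hr (half_pos hε)
  have ev : ∀ c d : ℝ, 0 < d → ∀ᶠ n : ℕ in atTop, c < d * n := fun c d hd =>
    (tendsto_natCast_atTop_atTop.const_mul_atTop hd).eventually_gt_atTop c
  obtain ⟨N, hN⟩ := eventually_atTop.1 ((eventually_ge_atTop n0).and ((ev 1 1 one_pos).and
    ((ev (12 * M) δ δ0).and ((ev M _ (sub_pos.2 h)).and (ev 1 _ (half_pos hε))))))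
  refine ⟨N, fun n hn => ?_⟩
  obtain ⟨a0, a1, a2, a3, a4⟩ := hN n hn
  rw [one_mul] at a1
  have n0' : (0 : ℝ) < n := by linarith
  have f1 : (⌊γ * n⌋₊ : ℝ) ≤ γ * n := Nat.floor_le (by positivity)
  have f2 : γ * n < ⌊γ * n⌋₊ + 1 := Nat.lt_floor_add_one _
  have f3 : ⌊γ * n⌋₊ < n := by
    have : (⌊γ * n⌋₊ : ℝ) < n := by nlinarith
    exact_mod_cast this
  obtain ⟨⟨G, hG, eG⟩, up⟩ := mp_upper (r := r) f3
  set d := ⌊γ * n⌋₊
  have lo := hn0 (Fin n) G n d (M / n) s e (Fintype.card_fin n) a0 (by positivity)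
    (by
      rw [← mul_div_assoc, div_le_iff₀ n0']
      exact a2.le) hs hs1 hG (by rw [mul_div_cancel₀ _ n0'.ne']) (by nlinarith)
    (by
      rw [div_mul_eq_mul_div, div_le_iff₀ n0']
      nlinarith)
  rw [eG] at lo
  clear hn0 hN
  generalize (r : ℝ) * (r - 1) = R at *
  generalize (minPacking r n d : ℝ) = f at *
  have R0 : 0 < R := by linarith
  have n2 : (0 : ℝ) < n ^ 2 := by positivity
  have key : f / n ^ 2 - γ / R = (f * R - γ * n ^ 2) / (R * n ^ 2) := by field_simp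
  have b1 : (n : ℝ) < ε / 2 * n ^ 2 := by nlinarith
  have b2 : ε / 2 * n ^ 2 ≤ ε / 2 * n ^ 2 * R := le_mul_of_one_le_right (by positivity) R1
  rw [Real.dist_eq, key, abs_lt, lt_div_iff₀ (by positivity), div_lt_iff₀ (by positivity)]
  constructor
  · nlinarith
  · nlinarith

end Pool.Agent.Lib.MP_dcb632_co.Top
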