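import Mathlib
import Pool.Agent.Lib.MP_dcb632_co.Core

namespace Pool.Agent.Lib.MP_dcb632_co

open Finset
open scoped Classical

variable {V : Type} [Fintype V]

lemma sum_class {k : ℕ} (c : V → Fin k) :
    ∑ j, (sel (fun x => c x = j)).card = Fintype.card V := by
  rw [← card_univ, card_eq_sum_card_fiberwise (f := c) (t := univ)
    (fun _ _ => mem_coe.2 (mem_univ _))]
  refine sum_congr rfl (fun j _ => congrArg card ?_)
  ext x
  simp

lemma few_inside {k : ℕ} (hk : 2 ≤ k) (G : SimpleGraph V) (s : ℕ)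
    (hn : k * s ≤ Fintype.card V) (hdeg : ∀ v, (sel (fun z => ¬ G.Adj v z)).card ≤ s)
    (P : Finset (Finset V)) (hP : IsPacking G (k + 1) P)
    (hmax : ∀ Q, IsPacking G (k + 1) Q → Q.card ≤ P.card) :
    ∃ c : V → Fin k, ∑ x, dc G c x (c x) ≤ 2 * (P.card * (k + 1) * (k + 1)) := by
  have us_symm : ∀ a b, Us P a b → Us P b a := fun a b ⟨K, h, h1, h2⟩ => ⟨K, h, h2, h1⟩
  let H : SimpleGraph V :=
    { Adj := fun a b => G.Adj a b ∧ ¬ Us P a b
      symm := ⟨fun a b h => ⟨h.1.symm, fun h' => h.2 (us_symm _ _ h')⟩⟩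
      loopless := ⟨fun _ h => h.1.ne rfl⟩ }
  obtain ⟨c, hc, hb⟩ := furedi H k univ (fun K _ hK => by
    have hKP : K ∉ P := fun h => by
      obtain ⟨a, ha, b, hb, hab⟩ := one_lt_card.1 (show 1 < K.card by rw [hK.card_eq]; omega)
      exact (hK.isClique ha hb hab).2 ⟨K, h, ha, hb⟩
    have := hmax (insert K P) ⟨fun L hL => by
      rcases mem_insert.1 hL with rfl | hL
      · exact ⟨fun a ha b hb hne => (hK.isClique ha hb hne).1, hK.card_eq⟩
      · exact hP.1 L hL, fun L hL L' hL' hne a b hab h => by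
      rcases mem_insert.1 hL with e | h3 <;> rcases mem_insert.1 hL' with e' | h4
      · exact hne (e.trans e'.symm)
      · exact (hK.isClique (e ▸ h.1) (e ▸ h.2.1) hab.ne).2 ⟨L', h4, h.2.2⟩
      · exact (hK.isClique (e' ▸ h.2.2.1) (e' ▸ h.2.2.2) hab.ne).2 ⟨L, h3, h.1, h.2.1⟩
      · exact hP.2 L h3 L' h4 hne a b hab h⟩
    rw [card_insert_of_notMem hKP] at this
    omega)
  have hcard : ∀ K ∈ P, K.card = k + 1 := fun K hK => (hP.1 K hK).card_eq
  have hU : ∑ v, (sel (fun z => Us P v z)).card ≤ P.card * (k + 1) * (k + 1) := by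
    rw [← sum_mem hcard, sum_mul]
    exact sum_le_sum (fun v _ => card_us hcard v)
  refine ⟨fun v => ⟨c v, hc v (mem_univ v)⟩, ?_⟩
  have h1 : ∑ x, dc G (fun v => (⟨c v, hc v (mem_univ v)⟩ : Fin k)) x ⟨c x, hc x (mem_univ x)⟩ ≤
      ∑ v, (sel (fun y => (H.Adj v y ∧ y ∈ univ) ∧ c y = c v)).card +
        ∑ v, (sel (fun z => Us P v z)).card := by
    rw [← sum_add_distrib]
    refine sum_le_sum (fun v _ => card_sel_or _ _ _ (fun z h => ?_))
    by_cases h' : Us P v z
    · exact Or.inr h'
    · exact Or.inl ⟨⟨⟨h.1, h'⟩, mem_univ _⟩, congrArg Fin.val h.2⟩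
  have h2 : Fintype.card V * Fintype.card V ≤
      ∑ v, (sel (fun y => H.Adj v y ∧ y ∈ univ)).card +
        ∑ v, (sel (fun z => Us P v z)).card + Fintype.card V * s := by
    have := card_nsmul_le_sum univ (fun v => (sel (fun y => H.Adj v y ∧ y ∈ univ)).card +
      (sel (fun z => Us P v z)).card + s) (Fintype.card V) (fun v _ => by
        have h1 := card_sel_add (fun z => G.Adj v z)
        have h2 := hdeg v
        have h3 := card_sel_or (fun z => G.Adj v z) (fun y => H.Adj v y ∧ y ∈ univ)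
          (fun z => Us P v z) (fun z h => by
            by_cases h' : Us P v z
            · exact Or.inr h'
            · exact Or.inl ⟨⟨h, h'⟩, mem_univ _⟩)
        omega)
    rwa [sum_add_distrib, sum_add_distrib, sum_const, card_univ, smul_eq_mul, smul_eq_mul] at this
  have h3 : ∑ v, (sel (fun y => H.Adj v y ∧ y ∈ univ)).card +
      ∑ v, (sel (fun y => (H.Adj v y ∧ y ∈ univ) ∧ c y = c v)).card + Fintype.card V * s ≤
      Fintype.card V * Fintype.card V := by
    rw [← Nat.cast_le (α := ℝ), Nat.cast_add]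
    rw [card_univ] at hb
    have hk0 : (0 : ℝ) < k := by exact_mod_cast (by omega : 0 < k)
    have hn' : (s : ℝ) ≤ 1 / k * Fintype.card V := by
      rw [one_div, ← div_eq_inv_mul, le_div_iff₀ hk0, mul_comm]
      exact_mod_cast hn
    have := mul_le_mul_of_nonneg_left hn' (Nat.cast_nonneg (Fintype.card V))
    push_cast at hb ⊢
    nlinarith
  exact h1.trans (by omega)

lemma lower {k : ℕ} (hk : 2 ≤ k) (G : SimpleGraph V) (s y : ℕ) (hy : 1 ≤ y)
    (hs : 25 * ((k + 1) * (k + 1) * (k * y)) ≤ s)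
    (hn : k * s ≤ Fintype.card V) (hdeg : ∀ v, (sel (fun z => ¬ G.Adj v z)).card ≤ s)
    (P : Finset (Finset V)) (hP : IsPacking G (k + 1) P)
    (hmax : ∀ Q, IsPacking G (k + 1) Q → Q.card ≤ P.card)
    (hsmall : 2 * (P.card * (k + 1) * (k + 1)) ≤ y * y) :
    ∃ c : V → Fin k, ∑ j, ((sel (fun x => c x = j)).card *
      ((sel (fun x => c x = j)).card - s) + 1) / 2 ≤ P.card := by
  obtain ⟨c0, h0⟩ := few_inside hk G s hn hdeg P hP hmax
  obtain ⟨c, h1, hcut⟩ := max_cut G c0
  have hI : ∑ x, dc G c x (c x) ≤ y * y := h1.trans (h0.trans hsmall)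
  have hyt : y ≤ k * y := Nat.le_mul_of_pos_left y (by omega)
  have hyy : y * y ≤ k * y * (2 * (k * y)) := Nat.mul_le_mul hyt (by omega)
  have hhi : ∀ j, (sel (fun x => c x = j)).card ≤ s + y := by
    intro j
    by_contra hcon
    have h2 := card_nsmul_le_sum (sel (fun x => c x = j)) (fun x => dc G c x (c x)) (y + 1)
      (fun v hv => by
        have e : c v = j := (mem_sel.1 hv :)
        have h3 := card_sel_or (fun x => c x = j) (fun z => G.Adj v z ∧ c z = c v)
          (fun z => ¬ G.Adj v z) (fun z h => by rw [e]; tauto)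
        have h4 := hdeg v
        unfold dc
        omega)
    have h3 := sum_le_sum_of_subset (f := fun x => dc G c x (c x))
      (subset_univ (sel (fun x => c x = j)))
    have h4 : (y + 1) * (y + 1) ≤ (sel (fun x => c x = j)).card * (y + 1) :=
      Nat.mul_le_mul_right _ (by omega)
    rw [smul_eq_mul] at h2
    nlinarith
  obtain ⟨Q, hQ, h⟩ := pack_core hk G c s (k * y) (by omega) hs hdeg hcut (by
      have h2 := card_nsmul_le_sum (sel (fun v => ¬ dc G c v (c v) ≤ 2 * (k * y)))
        (fun x => dc G c x (c x)) (2 * (k * y)) (fun v hv => (not_le.1 (mem_sel.1 hv :)).le)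
      have h3 := sum_le_sum_of_subset (f := fun x => dc G c x (c x))
        (subset_univ (sel (fun v => ¬ dc G c v (c v) ≤ 2 * (k * y))))
      exact Nat.le_of_mul_le_mul_right (h2.trans (h3.trans (hI.trans hyy))) (by omega))
    (fun Q hQ => by
      have h2 := Nat.mul_le_mul_right (k + 1) (hmax Q hQ)
      have h3 : P.card * (k + 1) ≤ P.card * (k + 1) * (k + 1) :=
        Nat.le_mul_of_pos_right _ (by omega)
      omega) (fun j => (hhi j).trans (by omega)) (fun j => by
      have h2 := sum_class c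
      rw [← add_sum_erase univ _ (mem_univ j)] at h2
      have h3 := sum_le_card_nsmul (univ.erase j) _ _ (fun i _ => hhi i)
      rw [card_erase_of_mem (mem_univ _), card_univ, Fintype.card_fin, smul_eq_mul] at h3
      obtain ⟨m, rfl⟩ : ∃ m, k = m + 1 := ⟨k - 1, by omega⟩
      rw [Nat.add_sub_cancel] at h3
      nlinarith)
  exact ⟨c, h.trans (hmax Q hQ)⟩

lemma tangent (g : ℕ → ℕ) (hg : ∀ m, 2 * g (m + 1) ≤ g m + g (m + 2)) (q m : ℕ) :
    (g q : ℤ) + (m - q) * (g (q + 1) - g q) ≤ g m := by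
  have hm : Monotone (fun m => (g (m + 1) : ℤ) - g m) :=
    monotone_nat_of_le_succ (fun m => by
      have := hg m
      show (g (m + 1) : ℤ) - g m ≤ g (m + 2) - g (m + 1)
      omega)
  rcases le_total q m with h | h
  · induction m, h using Nat.le_induction with
    | base => simp
    | succ m h ih =>
      have := hm h
      push_cast
      linarith
  · induction h using Nat.decreasingInduction with
    | self => simp
    | of_succ m h ih =>
      have := hm h.le
      push_cast at ih
      linarith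

lemma convex_sum {k : ℕ} (s q ρ : ℕ) (hρ : ρ ≤ k) (f : Fin k → ℕ) (hf : ∑ j, f j = k * q + ρ) :
    ρ * (((q + 1) * (q + 1 - s) + 1) / 2) + (k - ρ) * ((q * (q - s) + 1) / 2) ≤
      ∑ j, (f j * (f j - s) + 1) / 2 := by
  have hg : ∀ m, 2 * (((m + 1) * (m + 1 - s) + 1) / 2) ≤ (m * (m - s) + 1) / 2 +
      ((m + 2) * (m + 2 - s) + 1) / 2 := by
    intro m
    rcases le_or_gt s m with h | h
    · obtain ⟨a, rfl⟩ := Nat.exists_eq_add_of_le h
      have e1 : (s + a + 1) * (s + a + 1 - s) = (s + a) * a + 2 * a + s + 1 := by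
        rw [show s + a + 1 - s = a + 1 by omega]; ring
      have e2 : (s + a + 2) * (s + a + 2 - s) = (s + a) * a + 4 * a + 2 * s + 4 := by
        rw [show s + a + 2 - s = a + 2 by omega]; ring
      rw [e1, e2, Nat.add_sub_cancel_left]
      omega
    · rw [show m + 1 - s = 0 by omega]
      simp
  have key : ∀ g : ℕ → ℕ, (∀ m, 2 * g (m + 1) ≤ g m + g (m + 2)) →
      ρ * g (q + 1) + (k - ρ) * g q ≤ ∑ j, g (f j) := by
    intro g hg
    have h := sum_le_sum (fun j (_ : j ∈ univ) => tangent g hg q (f j))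
    rw [sum_add_distrib, ← sum_mul, sum_sub_distrib, ← Nat.cast_sum univ f,
      ← Nat.cast_sum univ (fun j => g (f j)), hf, sum_const, sum_const, card_univ,
      Fintype.card_fin] at h
    generalize ∑ j, g (f j) = S at h ⊢
    zify [hρ]
    simp only [nsmul_eq_mul] at h
    push_cast at h
    linarith
  exact key (fun m => (m * (m - s) + 1) / 2) hg

end Pool.Agent.Lib.MP_dcb632_co
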