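import Mathlib
import Pool.Agent.Lib.MP_dcb632_co.Lower

namespace Pool.Agent.Lib.MP_dcb632_co

open Finset
open scoped Classical

lemma pn_spec {V : Type} [Fintype V] (G : SimpleGraph V) (r : ℕ) :
    ∃ P, IsPacking G r P ∧ P.card = packingNumber G r ∧
      ∀ Q, IsPacking G r Q → Q.card ≤ P.card := by
  have hb : BddAbove {m | ∃ P, IsPacking G r P ∧ P.card = m} :=
    ⟨Fintype.card (Finset V), by rintro m ⟨P, -, rfl⟩; exact card_le_univ P⟩
  obtain ⟨P, hP, e⟩ := Nat.sSup_mem (s := {m | ∃ P, IsPacking G r P ∧ P.card = m})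
    ⟨0, ∅, by simp [IsPacking], rfl⟩ hb
  exact ⟨P, hP, e, fun Q hQ => e ▸ le_csSup hb ⟨Q, hQ, rfl⟩⟩

lemma ncard_eq {V : Type} [Fintype V] (G : SimpleGraph V) (v : V) :
    (G.neighborSet v).ncard = dg G v := by
  rw [dg, ← Set.ncard_coe_finset]
  congr 1
  ext y
  simp

lemma upper_fin (k n s : ℕ) (hk : 0 < k) (hs : 1 ≤ s) :
    ∃ G : SimpleGraph (Fin n), (∀ v, n - s ≤ (G.neighborSet v).ncard) ∧
      packingNumber G (k + 1) ≤ n % k * (((n / k + 1) * (n / k + 1 - s) + 1) / 2) +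
        (k - n % k) * ((n / k * (n / k - s) + 1) / 2) := by
  obtain ⟨G, h1, h2⟩ := upper (fun v : Fin n => (⟨v % k, Nat.mod_lt _ hk⟩ : Fin k)) s hs
  refine ⟨G, fun v => by simpa [ncard_eq] using h1 v, ?_⟩
  obtain ⟨P, hP, e, -⟩ := pn_spec G (k + 1)
  refine e ▸ (h2 P hP).trans (le_of_eq ?_)
  have hc : ∀ j : Fin k, (sel (fun x : Fin n => (⟨x % k, Nat.mod_lt _ hk⟩ : Fin k) = j)).card =
      n / k + if (j : ℕ) < n % k then 1 else 0 := by
    intro j
    have := Nat.count_modEq_card n hk j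
    rw [Nat.mod_eq_of_lt j.2, Nat.count_eq_card_filter_range] at this
    rw [← this]
    refine card_bij (fun x _ => (x : ℕ)) (fun x hx => ?_) (fun _ _ _ _ h => Fin.ext h)
      (fun x hx => ?_)
    · have := congrArg Fin.val (mem_sel.1 hx :)
      simpa [Nat.ModEq, Nat.mod_eq_of_lt j.2] using this
    · simp only [mem_filter, mem_range, Nat.ModEq, Nat.mod_eq_of_lt j.2] at hx
      exact ⟨⟨x, hx.1⟩, mem_sel.2 (Fin.ext hx.2), rfl⟩
  simp only [hc]
  rw [Fin.sum_univ_eq_sum_range (fun j => ((n / k + if j < n % k then 1 else 0) *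
    ((n / k + if j < n % k then 1 else 0) - s) + 1) / 2) k]
  have hρ := (Nat.mod_lt n hk).le
  generalize n % k = ρ at hρ ⊢
  obtain ⟨m, rfl⟩ := Nat.exists_eq_add_of_le hρ
  rw [sum_range_add, sum_congr rfl (g := fun _ => ((n / (ρ + m) + 1) *
    (n / (ρ + m) + 1 - s) + 1) / 2) (fun j hj => by rw [if_pos (mem_range.1 hj)])]
  simp

lemma lower_fin (k n s : ℕ) (hk : 2 ≤ k) (hs : 1 ≤ s)
    (hw : 80000 * (k + 1) ^ 11 * (n - k * s) ≤ k * n)
    (G : SimpleGraph (Fin n)) (hG : ∀ v, n - s ≤ (G.neighborSet v).ncard) :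
    n % k * (((n / k + 1) * (n / k + 1 - s) + 1) / 2) +
        (k - n % k) * ((n / k * (n / k - s) + 1) / 2) ≤ packingNumber G (k + 1) := by
  have hdm := Nat.div_add_mod n k
  have hρ := Nat.mod_lt n (show 0 < k by omega)
  generalize n % k = ρ at hdm hρ ⊢
  generalize n / k = q at hdm ⊢
  rcases le_or_gt n (k * s) with h | h
  · have h1 : q ≤ s := Nat.le_of_mul_le_mul_left (by omega : k * q ≤ k * s) (by omega)
    rw [show q - s = 0 by omega]
    rcases Nat.eq_zero_or_pos ρ with rfl | h0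
    · simp
    · have h2 : q < s := Nat.lt_of_mul_lt_mul_left (by omega : k * q < k * s)
      rw [show q + 1 - s = 0 by omega]
      simp
  obtain ⟨P, hP, e, hmax⟩ := pn_spec G (k + 1)
  rw [← e]
  by_contra hcon
  obtain ⟨d, hd⟩ : ∃ d, n = k * s + (d + 1) := ⟨n - k * s - 1, by omega⟩
  rw [show n - k * s = d + 1 by omega] at hw
  set r := k + 1 with hr
  have hr11 : r ≤ r ^ 11 := Nat.le_self_pow (by omega) r
  have h2 : n ≤ 2 * (k * s) := by
    have : k * (2 * (d + 1)) ≤ k * n := by nlinarith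
    have := Nat.le_of_mul_le_mul_left this (by omega)
    omega
  have h3 : 25 * r ^ 3 ≤ s := by
    have h4 : r ^ 2 * (25 * r ^ 3) ≤ r ^ 2 * s := by
      have : r ^ 5 ≤ r ^ 11 := Nat.pow_le_pow_right (by omega) (by omega)
      have h5 : k * n ≤ r * (2 * (r * s)) :=
        Nat.mul_le_mul (by omega) (h2.trans (by nlinarith))
      nlinarith
    exact Nat.le_of_mul_le_mul_left h4 (by positivity)
  have hpos : 0 < 25 * r ^ 3 := by positivity
  have hy : 1 ≤ s / (25 * r ^ 3) := (Nat.le_div_iff_mul_le hpos).2 (by omega)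
  have hy1 := Nat.mul_div_le s (25 * r ^ 3)
  have hy2 := Nat.lt_mul_div_succ s hpos
  generalize s / (25 * r ^ 3) = y at hy hy1 hy2
  have hq : q ≤ s + d := by
    by_contra hq
    have : k * (s + d + 1) ≤ k * q := Nat.mul_le_mul_left k (by omega)
    nlinarith
  have hF : P.card ≤ n * (4 * (d + 1)) := by
    have a1 : ((q + 1) * (q + 1 - s) + 1) / 2 ≤ (q + 1) * (2 * (d + 1)) := by
      have : (q + 1) * (q + 1 - s) ≤ (q + 1) * (d + 1) := Nat.mul_le_mul_left _ (by omega)
      have : 1 ≤ (q + 1) * (d + 1) := Nat.succ_le_of_lt (by positivity)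
      have : (q + 1) * (2 * (d + 1)) = 2 * ((q + 1) * (d + 1)) := by ring
      omega
    have a2 : (q * (q - s) + 1) / 2 ≤ (q + 1) * (2 * (d + 1)) := by
      have : q * (q - s) ≤ (q + 1) * (q + 1 - s) := Nat.mul_le_mul (by omega) (by omega)
      omega
    have a3 := Nat.mul_le_mul_left ρ a1
    have a4 := Nat.mul_le_mul_left (k - ρ) a2
    have a5 : ρ * ((q + 1) * (2 * (d + 1))) + (k - ρ) * ((q + 1) * (2 * (d + 1))) =
        k * (q + 1) * (2 * (d + 1)) := by
      rw [← add_mul, Nat.add_sub_cancel' hρ.le, mul_assoc]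
    have a6 : k * (q + 1) ≤ 2 * n := by nlinarith
    have a7 := Nat.mul_le_mul_right (2 * (d + 1)) a6
    have a8 : 2 * n * (2 * (d + 1)) = n * (4 * (d + 1)) := by ring
    omega
  obtain ⟨c, hc⟩ := lower hk G s y hy (by
      refine le_trans ?_ hy1
      have : k * y ≤ r * y := Nat.mul_le_mul_right y (by omega)
      calc 25 * (r * r * (k * y)) ≤ 25 * (r * r * (r * y)) := by gcongr
        _ = _ := by ring) (by simpa using h.le) (fun v => by
      have h4 := card_sel_add (fun z => G.Adj v z)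
      have h5 := hG v
      rw [ncard_eq, dg] at h5
      rw [Fintype.card_fin] at h4
      omega) P hP hmax (by
      have b1 : n ≤ 100 * r ^ 4 * y := by
        have : k * s ≤ r * (25 * r ^ 3 * (2 * y)) :=
          Nat.mul_le_mul (by omega) (hy2.le.trans (Nat.mul_le_mul_left _ (by omega)))
        nlinarith
      have b2 : n * (k * n) ≤ (100 * r ^ 4 * y) * (r * (100 * r ^ 4 * y)) :=
        Nat.mul_le_mul b1 (Nat.mul_le_mul (by omega) b1)
      have b3 := Nat.mul_le_mul_left n hw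
      have b4 := Nat.mul_le_mul_left (20000 * r ^ 11) hF
      have b5 : 10000 * r ^ 9 * (2 * (P.card * r * r)) ≤ 10000 * r ^ 9 * (y * y) := by
        nlinarith
      exact Nat.le_of_mul_le_mul_left b5 (by positivity))
  exact hcon ((convex_sum s q ρ hρ.le _ (by rw [sum_class, Fintype.card_fin, hdm])).trans hc)

lemma exact_fin (k n δ : ℕ) (hk : 2 ≤ k) (hδ : δ + 1 ≤ n)
    (hw : 80000 * (k + 1) ^ 11 * (n - k * (n - δ)) ≤ k * n) :
    minPacking (k + 1) n δ = n % k * (((n / k + 1) * (n / k + 1 - (n - δ)) + 1) / 2) +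
        (k - n % k) * ((n / k * (n / k - (n - δ)) + 1) / 2) := by
  obtain ⟨G, h1, h2⟩ := upper_fin k n (n - δ) (by omega) (by omega)
  rw [show n - (n - δ) = δ by omega] at h1
  refine le_antisymm (le_trans (Nat.sInf_le ⟨G, h1, rfl⟩) h2) ?_
  refine le_csInf ⟨_, G, h1, rfl⟩ ?_
  rintro m ⟨H, h3, rfl⟩
  exact lower_fin k n (n - δ) hk (by omega) hw H (by rwa [show n - (n - δ) = δ by omega])

end Pool.Agent.Lib.MP_dcb632_co
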