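import Mathlib

namespace Pool.Agent.Lib.MP_dcb632_co.Top

open Finset
open scoped Classical

variable {X ι J : Type}

/-- Weighted degree. -/
noncomputable def wd (e : ι → Finset X) (H : Finset ι) (w : ι → ℝ) (x : X) : ℝ :=
  ∑ i ∈ H, if x ∈ e i then w i else 0

/-- Weighted codegree. -/
noncomputable def wc (e : ι → Finset X) (H : Finset ι) (w : ι → ℝ) (x y : X) : ℝ :=
  ∑ i ∈ H, if x ∈ e i ∧ y ∈ e i then w i else 0

/-- Squared excess of the degrees. -/
noncomputable def ex (e : ι → Finset X) (U : Finset X) (H : Finset ι) (w : ι → ℝ) : ℝ :=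
  ∑ x ∈ U, max (wd e H w x - 1) 0 ^ 2

lemma swap_deg {e : ι → Finset X} {U : Finset X} {H : Finset ι} (hU : ∀ i ∈ H, e i ⊆ U)
    (w : ι → ℝ) (f : X → ℝ) :
    ∑ i ∈ H, w i * ∑ y ∈ e i, f y = ∑ y ∈ U, wd e H w y * f y := by
  simp only [wd, sum_mul]
  rw [sum_comm]
  refine sum_congr rfl fun i hi => ?_
  simp only [ite_mul, zero_mul, sum_ite_mem, inter_eq_right.2 (hU i hi), mul_sum]

lemma hit_le (A R : Finset X) :
    (if Disjoint A R then (0 : ℝ) else 1) ≤ ∑ y ∈ A, if y ∈ R then 1 else 0 := by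
  split_ifs with h
  · exact sum_nonneg fun _ _ => by split_ifs <;> norm_num
  · obtain ⟨y, a, b⟩ := not_disjoint_iff.1 h
    refine le_trans ?_ (single_le_sum (f := fun y => if y ∈ R then (1 : ℝ) else 0)
      (fun _ _ => by split_ifs <;> norm_num) a)
    simp [b]

lemma le_hit (A R : Finset X) : (∑ y ∈ A, if y ∈ R then (1 : ℝ) else 0) -
    ∑ y ∈ A, ∑ z ∈ A.erase y, (if y ∈ R ∧ z ∈ R then (1 : ℝ) else 0) ≤
    if Disjoint A R then 0 else 1 := by
  set t : ℝ := ∑ y ∈ A, if y ∈ R then (1 : ℝ) else 0 with ht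
  have : ∑ y ∈ A, ∑ z ∈ A.erase y, (if y ∈ R ∧ z ∈ R then (1 : ℝ) else 0) = t * (t - 1) := by
    rw [ht, sum_mul]
    refine sum_congr rfl fun y hy => ?_
    by_cases h : y ∈ R
    · rw [← add_sum_erase A _ hy]
      simp [h]
    · simp [h]
  rw [this]
  split_ifs with h
  · have : t = 0 := sum_eq_zero fun y hy => if_neg (disjoint_left.1 h hy)
    simp [this]
  · nlinarith [sq_nonneg (t - 1)]

lemma sq_step (d h : ℝ) : max (d + h - 1) 0 ^ 2 ≤
    max (d - 1) 0 ^ 2 + 2 * max (d - 1) 0 * h + h ^ 2 := by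
  have a := le_max_left (d - 1) 0
  have b := le_max_right (d - 1) 0
  rcases le_total (d + h - 1) 0 with c | c
  · rw [max_eq_right c]
    nlinarith [sq_nonneg (max (d - 1) 0 + h)]
  · rw [max_eq_left c]
    nlinarith

lemma wd_mul (d : ℝ) : d * max (d - 1) 0 = max (d - 1) 0 + max (d - 1) 0 ^ 2 := by
  rcases le_total (d - 1) 0 with c | c
  · simp [max_eq_right c]
  · rw [max_eq_left c]
    ring

section
variable {e : ι → Finset X} {U : Finset X} {H : Finset ι} {w : ι → ℝ} {k : ℕ}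
  {T : Finset J} {π : J → ℝ} {R : J → Finset X} {Z Δ κ : ℝ}

lemma wd_nonneg (w0 : ∀ i, 0 ≤ w i) (x : X) : 0 ≤ wd e H w x :=
  sum_nonneg fun i _ => by split_ifs; exact w0 i; exact le_rfl

lemma exp_weight (hU : ∀ i ∈ H, e i ⊆ U) (hk : ∀ i ∈ H, (e i).card = k) (w0 : ∀ i, 0 ≤ w i)
    (π0 : ∀ j, 0 ≤ π j) (hZ : ∑ j ∈ T, π j = Z)
    (h1 : ∀ y ∈ U, ∑ j ∈ T, (if y ∈ R j then π j else 0) = 1 + max (wd e H w y - 1) 0) :
    (Z - k) * ∑ i ∈ H, w i - (∑ y ∈ U, max (wd e H w y - 1) 0 + ex e U H w) ≤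
      ∑ j ∈ T, π j * ∑ i ∈ H.filter (fun i => Disjoint (e i) (R j)), w i := by
  have a1 : ∑ y ∈ U, max (wd e H w y - 1) 0 + ex e U H w =
      ∑ i ∈ H, w i * ∑ y ∈ e i, max (wd e H w y - 1) 0 := by
    rw [swap_deg hU, ex, ← sum_add_distrib]
    exact sum_congr rfl fun y _ => (wd_mul _).symm
  simp only [a1, sum_filter, mul_sum (s := H)]
  rw [sum_comm, ← sum_sub_distrib]
  refine sum_le_sum fun i hi => ?_
  have a2 : ∑ j ∈ T, π j * (if Disjoint (e i) (R j) then 0 else 1) ≤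
      k + ∑ y ∈ e i, max (wd e H w y - 1) 0 := by
    refine (sum_le_sum fun j _ => mul_le_mul_of_nonneg_left (hit_le _ _) (π0 j)).trans ?_
    simp only [mul_sum, mul_ite, mul_one, mul_zero]
    rw [sum_comm, sum_congr rfl fun y hy => h1 y (hU i hi hy), sum_add_distrib]
    simp [hk i hi]
  have a3 : ∑ j ∈ T, π j * (if Disjoint (e i) (R j) then w i else 0) =
      w i * (Z - ∑ j ∈ T, π j * (if Disjoint (e i) (R j) then 0 else 1)) := by
    rw [← hZ, ← sum_sub_distrib, mul_sum]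
    exact sum_congr rfl fun j _ => by split_ifs <;> ring
  rw [a3]
  nlinarith [mul_le_mul_of_nonneg_left a2 (w0 i)]

end

end Pool.Agent.Lib.MP_dcb632_co.Top
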