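import Pool.Agent.Lib.MP_dcb632_co.Nib1

namespace Pool.Agent.Lib.MP_dcb632_co.Top

open Finset
open scoped Classical

variable {X ι J : Type}

/-- Weight lost at `x` when `R` is removed. -/
noncomputable def lost (e : ι → Finset X) (H : Finset ι) (w : ι → ℝ) (x : X) (R : Finset X) : ℝ :=
  ∑ i ∈ H, if x ∈ e i then w i * (if Disjoint ((e i).erase x) R then 0 else 1) else 0

variable {e : ι → Finset X} {U : Finset X} {H : Finset ι} {w : ι → ℝ} {k : ℕ}
  {T : Finset J} {π : J → ℝ} {R : J → Finset X} {Z Δ κ : ℝ}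

lemma wd_new {x : X} {S : Finset X} (hx : x ∉ S) (c : ℝ) :
    wd e (H.filter fun i => Disjoint (e i) S) (fun i => c * w i) x =
      c * (wd e H w x - lost e H w x S) := by
  rw [wd, wd, lost, sum_filter, ← sum_sub_distrib, mul_sum]
  refine sum_congr rfl fun i _ => ?_
  have : Disjoint ((e i).erase x) S ↔ Disjoint (e i) S := by
    simp only [disjoint_left, mem_erase]
    exact ⟨fun h y a b => h ⟨fun c => hx (c ▸ b), a⟩ b, fun h y a => h a.2⟩
  simp only [this]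
  split_ifs <;> ring

lemma lost_nonneg (w0 : ∀ i, 0 ≤ w i) (x : X) (S : Finset X) : 0 ≤ lost e H w x S :=
  sum_nonneg fun i _ => by
    have := w0 i
    split_ifs <;> simp [this]

lemma lost_le (w0 : ∀ i, 0 ≤ w i) (hΔ : 0 ≤ Δ) (hc : ∀ x y, x ≠ y → wc e H w x y ≤ Δ) (x : X)
    {S : Finset X} (hS : S.card ≤ k) : lost e H w x S ≤ k * Δ := by
  have a : lost e H w x S ≤ ∑ y ∈ S.erase x, wc e H w x y := by
    simp only [lost, wc]
    rw [sum_comm]
    refine sum_le_sum fun i _ => ?_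
    have h0 : ∀ y, 0 ≤ if x ∈ e i ∧ y ∈ e i then w i else 0 := fun y => by
      split_ifs
      · exact w0 i
      · exact le_rfl
    split_ifs with h1 h2
    · simpa using sum_nonneg fun y _ => h0 y
    · obtain ⟨y, a, b⟩ := not_disjoint_iff.1 h2
      refine le_trans ?_ (single_le_sum (fun y _ => h0 y) (mem_erase.2 ⟨(mem_erase.1 a).1, b⟩))
      simp [h1, (mem_erase.1 a).2]
    · exact sum_nonneg fun y _ => h0 y
  refine a.trans ((sum_le_card_nsmul _ _ Δ fun y hy => hc x y (mem_erase.1 hy).1.symm).trans ?_)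
  rw [nsmul_eq_mul]
  exact mul_le_mul_of_nonneg_right (by exact_mod_cast card_erase_le.trans hS) hΔ

lemma exp_lost (x : X) : ∑ j ∈ T, π j * lost e H w x (R j) = ∑ i ∈ H, if x ∈ e i then
    w i * ∑ j ∈ T, π j * (if Disjoint ((e i).erase x) (R j) then 0 else 1) else 0 := by
  simp only [lost, mul_sum]
  rw [sum_comm]
  refine sum_congr rfl fun i _ => ?_
  split_ifs
  · exact sum_congr rfl fun j _ => by ring
  · simp

lemma exp_lost_ge (hU : ∀ i ∈ H, e i ⊆ U) (hk : ∀ i ∈ H, (e i).card = k) (w0 : ∀ i, 0 ≤ w i)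
    (π0 : ∀ j, 0 ≤ π j) (hΔ : 0 ≤ Δ)
    (h1 : ∀ y ∈ U, ∑ j ∈ T, (if y ∈ R j then π j else 0) = 1 + max (wd e H w y - 1) 0)
    (h2 : ∀ y z, y ≠ z → ∑ j ∈ T, (if y ∈ R j ∧ z ∈ R j then π j else 0) ≤ Δ) (x : X) :
    wd e H w x * (k - 1 - k ^ 2 * Δ) ≤ ∑ j ∈ T, π j * lost e H w x (R j) := by
  rw [exp_lost, wd, sum_mul]
  refine sum_le_sum fun i hi => ?_
  split_ifs with hx
  swap
  · simp
  refine mul_le_mul_of_nonneg_left ?_ (w0 i)
  refine le_trans ?_ (sum_le_sum fun j _ => mul_le_mul_of_nonneg_left (le_hit _ _) (π0 j))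
  simp only [mul_sub, sum_sub_distrib, mul_sum, mul_ite, mul_one, mul_zero]
  have c1 : (((e i).erase x).card : ℝ) = k - 1 := by
    rw [← hk i hi, ← card_erase_add_one hx]
    push_cast
    ring
  refine sub_le_sub ?_ ?_
  · rw [sum_comm, ← c1, card_eq_sum_ones]
    push_cast
    refine sum_le_sum fun y hy => ?_
    rw [h1 y (hU i hi (mem_of_mem_erase hy))]
    linarith [le_max_right (wd e H w y - 1) 0]
  · rw [sum_comm]
    have : ∀ y ∈ (e i).erase x, ∑ j ∈ T, ∑ z ∈ ((e i).erase x).erase y,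
        (if y ∈ R j ∧ z ∈ R j then π j else 0) ≤ k * Δ := fun y _ => by
      rw [sum_comm]
      refine (sum_le_card_nsmul _ _ Δ fun z hz => h2 y z (mem_erase.1 hz).1.symm).trans ?_
      rw [nsmul_eq_mul]
      exact mul_le_mul_of_nonneg_right
        (by exact_mod_cast card_erase_le.trans (card_erase_le.trans (hk i hi).le)) hΔ
    refine (sum_le_card_nsmul _ _ _ this).trans ?_
    rw [nsmul_eq_mul, c1]
    nlinarith [mul_nonneg (Nat.cast_nonneg (α := ℝ) k) hΔ]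

lemma exp_lost_le (hU : ∀ i ∈ H, e i ⊆ U) (hk : ∀ i ∈ H, (e i).card = k) (w0 : ∀ i, 0 ≤ w i)
    (π0 : ∀ j, 0 ≤ π j)
    (h1 : ∀ y ∈ U, ∑ j ∈ T, (if y ∈ R j then π j else 0) = 1 + max (wd e H w y - 1) 0) :
    ∑ x ∈ U, ∑ j ∈ T, π j * lost e H w x (R j) ≤ k * (2 * U.card + 2 * ex e U H w) := by
  have a : ∀ x, ∑ j ∈ T, π j * lost e H w x (R j) ≤ ∑ i ∈ H, if x ∈ e i then
      w i * ∑ y ∈ e i, (1 + max (wd e H w y - 1) 0) else 0 := fun x => by
    rw [exp_lost]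
    refine sum_le_sum fun i hi => ?_
    split_ifs with hx
    swap
    · exact le_rfl
    refine mul_le_mul_of_nonneg_left ?_ (w0 i)
    refine (sum_le_sum fun j _ => mul_le_mul_of_nonneg_left (hit_le _ _) (π0 j)).trans ?_
    simp only [mul_sum, mul_ite, mul_one, mul_zero]
    rw [sum_comm, sum_congr rfl fun y hy => h1 y (hU i hi (mem_of_mem_erase hy))]
    exact sum_le_sum_of_subset_of_nonneg (erase_subset _ _) fun y _ _ => by
      linarith [le_max_right (wd e H w y - 1) 0]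
  refine (sum_le_sum fun x _ => a x).trans ?_
  rw [sum_comm, sum_congr rfl (g := fun i => k * (w i * ∑ y ∈ e i,
    (1 + max (wd e H w y - 1) 0))) (fun i hi => by
      rw [sum_ite_mem, inter_eq_right.2 (hU i hi), sum_const, hk i hi, nsmul_eq_mul]),
    ← mul_sum, swap_deg hU]
  refine mul_le_mul_of_nonneg_left ?_ (Nat.cast_nonneg k)
  rw [ex, card_eq_sum_ones, mul_sum]
  push_cast
  rw [mul_sum, ← sum_add_distrib]
  refine sum_le_sum fun y _ => ?_
  have := le_max_left (wd e H w y - 1) 0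
  have := le_max_right (wd e H w y - 1) 0
  nlinarith [sq_nonneg (max (wd e H w y - 1) 0 - 1)]

lemma exp_excess (hU : ∀ i ∈ H, e i ⊆ U) (hk : ∀ i ∈ H, (e i).card = k) (w0 : ∀ i, 0 ≤ w i)
    (π0 : ∀ j, 0 ≤ π j) (hΔ : 0 ≤ Δ) (hZ : ∑ j ∈ T, π j = Z) (hR : ∀ j ∈ T, (R j).card ≤ k)
    (hc : ∀ x y, x ≠ y → wc e H w x y ≤ Δ)
    (h1 : ∀ y ∈ U, ∑ j ∈ T, (if y ∈ R j then π j else 0) = 1 + max (wd e H w y - 1) 0)
    (h2 : ∀ y z, y ≠ z → ∑ j ∈ T, (if y ∈ R j ∧ z ∈ R j then π j else 0) ≤ Δ)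
    (hk1 : 1 ≤ k) (hκ : κ * Z = k - 1) (κ0 : 0 ≤ κ) (κ1 : κ ≤ 1) (κ2 : κ ≤ k * Δ) :
    ∑ j ∈ T, π j * ex e (U \ R j) (H.filter fun i => Disjoint (e i) (R j))
      (fun i => (1 + κ) * w i) ≤ Z * ex e U H w + 28 * k ^ 2 * Δ * (U.card + ex e U H w) := by
  have k1 : (1 : ℝ) ≤ k := by exact_mod_cast hk1
  have a : ∀ j ∈ T, ex e (U \ R j) (H.filter fun i => Disjoint (e i) (R j))
      (fun i => (1 + κ) * w i) ≤ ∑ x ∈ U, (max (wd e H w x - 1) 0 ^ 2 + 2 * max (wd e H w x - 1) 0 *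
        (κ * wd e H w x - (1 + κ) * lost e H w x (R j)) + 2 * κ ^ 2 * wd e H w x ^ 2 +
        8 * (k * Δ) * lost e H w x (R j)) := fun j hj => by
    rw [ex, sum_congr rfl fun x hx => by rw [wd_new (mem_sdiff.1 hx).2]]
    refine (sum_le_sum_of_subset_of_nonneg sdiff_subset fun _ _ _ => sq_nonneg _).trans
      (sum_le_sum fun x _ => ?_)
    have l0 := lost_nonneg (e := e) (H := H) w0 x (R j)
    have l1 := lost_le w0 hΔ hc x (hR j hj)
    generalize lost e H w x (R j) = L at *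
    generalize wd e H w x = d
    have := sq_step d (κ * d - (1 + κ) * L)
    rw [show d + (κ * d - (1 + κ) * L) = (1 + κ) * (d - L) by ring] at this
    have b1 : ((1 + κ) * L) ^ 2 ≤ 4 * (k * Δ) * L := by
      have : (1 + κ) * L ≤ 2 * L := by nlinarith
      nlinarith [mul_le_mul_of_nonneg_right l1 l0, mul_nonneg (by linarith : 0 ≤ 1 + κ) l0]
    nlinarith [sq_nonneg (κ * d + (1 + κ) * L)]
  refine (sum_le_sum fun j hj => mul_le_mul_of_nonneg_left (a j hj) (π0 j)).trans ?_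
  simp only [mul_sum (s := U)]
  rw [sum_comm]
  have b : ∀ x ∈ U, ∑ j ∈ T, π j * (max (wd e H w x - 1) 0 ^ 2 + 2 * max (wd e H w x - 1) 0 *
      (κ * wd e H w x - (1 + κ) * lost e H w x (R j)) + 2 * κ ^ 2 * wd e H w x ^ 2 +
      8 * (k * Δ) * lost e H w x (R j)) ≤ Z * max (wd e H w x - 1) 0 ^ 2 +
      k ^ 2 * Δ * (8 + 12 * max (wd e H w x - 1) 0 ^ 2) +
      8 * (k * Δ) * ∑ j ∈ T, π j * lost e H w x (R j) := fun x _ => by
    have g1 := exp_lost_ge hU hk w0 π0 hΔ h1 h2 x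
    have d0 := wd_nonneg (e := e) (H := H) w0 x
    have m1 := wd_mul (wd e H w x)
    have m2 := le_max_left (wd e H w x - 1) 0
    have m3 := le_max_right (wd e H w x - 1) 0
    generalize max (wd e H w x - 1) 0 = u at *
    generalize wd e H w x = d at *
    have e1 : ∑ j ∈ T, π j * (u ^ 2 + 2 * u * (κ * d - (1 + κ) * lost e H w x (R j)) +
        2 * κ ^ 2 * d ^ 2 + 8 * (k * Δ) * lost e H w x (R j)) =
        (u ^ 2 + 2 * u * κ * d + 2 * κ ^ 2 * d ^ 2) * Z +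
        (8 * (k * Δ) - 2 * u * (1 + κ)) * ∑ j ∈ T, π j * lost e H w x (R j) := by
      rw [← hZ, mul_sum, mul_sum, ← sum_add_distrib]
      exact sum_congr rfl fun j _ => by ring
    rw [e1]
    generalize ∑ j ∈ T, π j * lost e H w x (R j) = E at *
    have q0 : 0 ≤ (k : ℝ) ^ 2 * Δ := by positivity
    have t1 : d * (κ * Z) - (1 + κ) * E ≤ 2 * (k ^ 2 * Δ) * d := by
      rw [hκ]
      nlinarith [mul_le_mul_of_nonneg_left g1 (by linarith : 0 ≤ 1 + κ),
        mul_nonneg κ0 (mul_nonneg d0 (by linarith : (0 : ℝ) ≤ k - 1)),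
        mul_nonneg (sub_nonneg.2 κ1) (mul_nonneg q0 d0)]
    have t2 := mul_le_mul_of_nonneg_left t1 m3
    have t3 : κ * (κ * Z) ≤ k ^ 2 * Δ := by
      rw [hκ]
      nlinarith
    have t4 : d ^ 2 ≤ 2 + 2 * u ^ 2 := by nlinarith [sq_nonneg (u - 1)]
    have t5 := mul_le_mul t3 t4 (sq_nonneg d) q0
    have t6 : d * u ≤ 1 + 2 * u ^ 2 := by nlinarith [sq_nonneg (u - 1)]
    nlinarith [mul_le_mul_of_nonneg_left t6 q0]
  refine (sum_le_sum b).trans ?_
  have c := mul_le_mul_of_nonneg_left (exp_lost_le hU hk w0 π0 h1)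
    (by positivity : 0 ≤ 8 * (k * Δ))
  simp only [sum_add_distrib, ← mul_sum, sum_const, nsmul_eq_mul]
  have x0 : 0 ≤ ex e U H w := sum_nonneg fun _ _ => sq_nonneg _
  rw [show ∑ x ∈ U, max (wd e H w x - 1) 0 ^ 2 = ex e U H w from rfl]
  have q1 : 0 ≤ (k : ℝ) ^ 2 * Δ * U.card := by positivity
  nlinarith

end Pool.Agent.Lib.MP_dcb632_co.Top
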