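import Pool.Agent.Lib.MP_dcb632_co.Nib2

namespace Pool.Agent.Lib.MP_dcb632_co.Top

open Finset
open scoped Classical

variable {X ι : Type} {e : ι → Finset X} {U : Finset X} {H : Finset ι} {w : ι → ℝ} {k : ℕ}

lemma sum_wd (hU : ∀ i ∈ H, e i ⊆ U) (hk : ∀ i ∈ H, (e i).card = k) :
    ∑ y ∈ U, wd e H w y = k * ∑ i ∈ H, w i := by
  have := swap_deg hU w fun _ => 1
  simp only [mul_one, sum_const, nsmul_eq_mul] at this
  rw [← this, mul_sum]
  exact sum_congr rfl fun i hi => by rw [hk i hi, mul_comm]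

lemma nib_step (hU : ∀ i ∈ H, e i ⊆ U) (hk : ∀ i ∈ H, (e i).card = k) (w0 : ∀ i, 0 ≤ w i)
    (hk1 : 1 ≤ k) {Δ m η l : ℝ} (hΔ : 0 ≤ Δ) (hc : ∀ x y, x ≠ y → wc e H w x y ≤ Δ)
    (hm : m ≤ U.card) (hkm : (k : ℝ) ^ 2 ≤ m) (hmΔ : k ≤ m * Δ) (hη : 0 < η) (hl : 0 ≤ l) :
    ∃ (R : Finset X) (g κ : ℝ), ((∃ i ∈ H, R = e i ∧ g = 1) ∨ (∃ x ∈ U, R = {x} ∧ g = 0)) ∧
      0 ≤ κ ∧ κ ≤ k ^ 2 / m ∧
      ∑ i ∈ H, w i - (k ^ 3 / m + 2 * k * η + l * (28 * k ^ 2 * Δ) * k) -
        (l + k / m * (2 / η + 2 + l * (28 * k ^ 2 * Δ))) * ex e U H w ≤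
      g + ∑ i ∈ H.filter (fun i => Disjoint (e i) R), (1 + κ) * w i -
        l * ex e (U \ R) (H.filter fun i => Disjoint (e i) R) (fun i => (1 + κ) * w i) := by
  have k1 : (1 : ℝ) ≤ k := by exact_mod_cast hk1
  have m0 : 0 < m := by nlinarith
  let π : ι ⊕ X → ℝ := Sum.elim w fun x => max (1 - wd e H w x) 0
  let R : ι ⊕ X → Finset X := Sum.elim e fun x => {x}
  let g : ι ⊕ X → ℝ := Sum.elim (fun _ => 1) fun _ => 0
  have π0 : ∀ j, 0 ≤ π j := by
    rintro (i | x)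
    · exact w0 i
    · exact le_max_right _ _
  set W := ∑ i ∈ H, w i with hW
  have W0 : 0 ≤ W := sum_nonneg fun i _ => w0 i
  set Z := ∑ j ∈ H.disjSum U, π j with hZ
  have A0 : 0 ≤ ∑ x ∈ U, max (1 - wd e H w x) 0 := sum_nonneg fun _ _ => le_max_right _ _
  have hZ' : Z = W + ∑ x ∈ U, max (1 - wd e H w x) 0 := by simp [hZ, π, hW, sum_disjSum]
  have hZN : (U.card : ℝ) ≤ k * Z := by
    have : (U.card : ℝ) ≤ ∑ x ∈ U, (wd e H w x + max (1 - wd e H w x) 0) := by
      rw [card_eq_sum_ones]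
      push_cast
      exact sum_le_sum fun x _ => by linarith [le_max_left (1 - wd e H w x) 0]
    rw [sum_add_distrib, sum_wd hU hk, ← hW] at this
    nlinarith
  have Zk : (k : ℝ) ≤ Z := by nlinarith
  have Z0 : 0 < Z := by linarith
  have iZ : 1 / Z ≤ k / m := by
    rw [div_le_div_iff₀ Z0 m0]
    linarith
  have h1 : ∀ y ∈ U, ∑ j ∈ H.disjSum U, (if y ∈ R j then π j else 0) =
      1 + max (wd e H w y - 1) 0 := fun y hy => by
    simp only [sum_disjSum, π, R, Sum.elim_inl, Sum.elim_inr, mem_singleton, sum_ite_eq, hy,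
      if_true]
    show wd e H w y + _ = _
    rcases le_total (wd e H w y) 1 with c | c
    · rw [max_eq_left (by linarith), max_eq_right (by linarith)]
      ring
    · rw [max_eq_right (by linarith), max_eq_left (by linarith)]
      ring
  have h2 : ∀ y z, y ≠ z → ∑ j ∈ H.disjSum U, (if y ∈ R j ∧ z ∈ R j then π j else 0) ≤ Δ :=
    fun y z hyz => by
      simp only [sum_disjSum, π, R, Sum.elim_inl, Sum.elim_inr, mem_singleton]
      rw [sum_eq_zero (s := U) fun x _ => if_neg fun h => hyz (h.1.trans h.2.symm), add_zero]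
      exact hc y z hyz
  have hR : ∀ j ∈ H.disjSum U, (R j).card ≤ k := by
    rintro (i | x) hj
    · exact (hk i (inl_mem_disjSum.1 hj)).le
    · simpa [R] using hk1
  set κ := (k - 1) / Z with hκ
  have κZ : κ * Z = k - 1 := by rw [hκ]; field_simp
  have κ0 : 0 ≤ κ := div_nonneg (by linarith) Z0.le
  have κ1 : κ ≤ 1 := by rw [hκ, div_le_one Z0]; linarith
  have κ2 : κ ≤ k ^ 2 / m := by
    have : κ ≤ k * (1 / Z) := by
      rw [hκ, mul_one_div]
      exact div_le_div_of_nonneg_right (by linarith) Z0.le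
    refine this.trans ((mul_le_mul_of_nonneg_left iZ (by linarith)).trans (le_of_eq ?_))
    ring
  have κ3 : κ ≤ k * Δ := by
    refine κ2.trans ?_
    rw [div_le_iff₀ m0]
    nlinarith
  have E1 := exp_weight hU hk w0 π0 hZ.symm h1
  have E2 := exp_excess hU hk w0 π0 hΔ hZ.symm hR hc h1 h2 hk1 κZ κ0 κ1 κ3
  set Φ := ex e U H w
  have Φ0 : 0 ≤ Φ := sum_nonneg fun _ _ => sq_nonneg _
  have E3 : ∑ y ∈ U, max (wd e H w y - 1) 0 ≤ η * U.card + Φ / η := by
    rw [card_eq_sum_ones, show Φ = ∑ x ∈ U, max (wd e H w x - 1) 0 ^ 2 from rfl, sum_div]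
    push_cast
    rw [mul_sum, ← sum_add_distrib]
    refine sum_le_sum fun y _ => ?_
    have := le_max_right (wd e H w y - 1) 0
    generalize max (wd e H w y - 1) 0 = u at *
    rw [← sub_le_iff_le_add', le_div_iff₀ hη]
    nlinarith [sq_nonneg (u - η)]
  have E0 : 0 ≤ ∑ y ∈ U, max (wd e H w y - 1) 0 := sum_nonneg fun _ _ => le_max_right _ _
  set C := 28 * (k : ℝ) ^ 2 * Δ with hC
  have C0 : 0 ≤ C := by positivity
  set B := W - (k ^ 3 / m + 2 * k * η + l * C * k) - (l + k / m * (2 / η + 2 + l * C)) * Φ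
  let val : ι ⊕ X → ℝ := fun j => g j +
    ∑ i ∈ H.filter (fun i => Disjoint (e i) (R j)), (1 + κ) * w i -
    l * ex e (U \ R j) (H.filter fun i => Disjoint (e i) (R j)) (fun i => (1 + κ) * w i)
  have tot : Z * B ≤ ∑ j ∈ H.disjSum U, π j * val j := by
    have s1 : ∑ j ∈ H.disjSum U, π j * val j = W + (1 + κ) * ∑ j ∈ H.disjSum U,
        π j * ∑ i ∈ H.filter (fun i => Disjoint (e i) (R j)), w i - l * ∑ j ∈ H.disjSum U, π j *
        ex e (U \ R j) (H.filter fun i => Disjoint (e i) (R j)) (fun i => (1 + κ) * w i) := by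
      have : W = ∑ j ∈ H.disjSum U, π j * g j := by simp [π, g, hW, sum_disjSum]
      rw [this, mul_sum, mul_sum, ← sum_add_distrib, ← sum_sub_distrib]
      refine sum_congr rfl fun j _ => ?_
      simp only [val, ← mul_sum]
      ring
    rw [s1]
    have z1 : 1 ≤ Z * (k / m) := by
      have := mul_le_mul_of_nonneg_left iZ Z0.le
      rwa [mul_one_div, div_self Z0.ne'] at this
    have f1 := mul_le_mul_of_nonneg_left E1 (by linarith : 0 ≤ 1 + κ)
    have f2 := mul_le_mul_of_nonneg_left E2 hl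
    have f3 : κ * (k * W) ≤ Z * (k ^ 3 / m) := by
      have : κ * W ≤ k := by nlinarith [mul_le_mul_of_nonneg_left (by linarith : W ≤ Z) κ0]
      have := mul_le_mul_of_nonneg_left z1 (by positivity : (0 : ℝ) ≤ k ^ 2)
      have e : Z * (k ^ 3 / m) = k ^ 2 * (Z * (k / m)) := by ring
      nlinarith
    have f4 : (1 + κ) * (∑ y ∈ U, max (wd e H w y - 1) 0 + Φ) ≤
        2 * (η * U.card + Φ / η + Φ) := by nlinarith
    have f5 := mul_le_mul_of_nonneg_left hZN hη.le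
    have f6 := mul_le_mul_of_nonneg_left hZN (mul_nonneg hl C0)
    have f7 := mul_le_mul_of_nonneg_right z1
      (by positivity : 0 ≤ (2 / η + 2 + l * C) * Φ)
    have f8 : κ * Z * W = (k - 1) * W := by rw [κZ]
    have f9 : Φ / η = 1 / η * Φ := by ring
    have f10 : 2 / η = 2 * (1 / η) := by ring
    simp only [B]
    rw [f9] at f4
    rw [f10] at f7 ⊢
    generalize 1 / η = a at *
    nlinarith
  obtain ⟨j, hj, hv⟩ : ∃ j ∈ H.disjSum U, B ≤ val j := by
    by_contra hn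
    push Not at hn
    obtain ⟨j, hj, hp⟩ : ∃ j ∈ H.disjSum U, π j ≠ 0 := by
      by_contra h0
      push Not at h0
      exact Z0.ne' (sum_eq_zero h0)
    have := sum_lt_sum (fun j hj => mul_le_mul_of_nonneg_left (hn j hj).le (π0 j))
      ⟨j, hj, mul_lt_mul_of_pos_left (hn j hj) (lt_of_le_of_ne (π0 j) hp.symm)⟩
    rw [← sum_mul] at this
    linarith
  refine ⟨R j, g j, κ, ?_, κ0, κ2, hv⟩
  rcases j with i | x
  · exact Or.inl ⟨i, inl_mem_disjSum.1 hj, rfl, rfl⟩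
  · exact Or.inr ⟨x, inr_mem_disjSum.1 hj, rfl, rfl⟩

end Pool.Agent.Lib.MP_dcb632_co.Top
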