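import Pool.Agent.Lib.MP_dcb632_co.Nib3

namespace Pool.Agent.Lib.MP_dcb632_co.Top

open Finset
open scoped Classical

lemma nib_ind {X ι : Type} {e : ι → Finset X} {k : ℕ} (hk1 : 1 ≤ k) {Δ m η Λ : ℝ} (hΔ : 0 ≤ Δ)
    (hkm : (k : ℝ) ^ 2 ≤ m) (hmΔ : k ≤ m * Δ) (hη : 0 < η) {N0 : ℕ}
    (hΛ : (1 + k / m * (2 / η + 2 + 28 * k ^ 2 * Δ)) ^ N0 ≤ Λ) :
    ∀ N ≤ N0, ∀ (U : Finset X) (H : Finset ι) (w : ι → ℝ), U.card ≤ N → (∀ i ∈ H, e i ⊆ U) →
      (∀ i ∈ H, (e i).card = k) → (∀ i, 0 ≤ w i) →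
      (∀ x y, x ≠ y → wc e H w x y ≤ Δ / (1 + k ^ 2 / m) ^ N) →
      ∃ M ⊆ H, (∀ i ∈ M, ∀ j ∈ M, i ≠ j → Disjoint (e i) (e j)) ∧
        ∑ i ∈ H, w i - (1 + k / m * (2 / η + 2 + 28 * k ^ 2 * Δ)) ^ N * ex e U H w -
          (k ^ 3 / m + 2 * k * η + Λ * (28 * k ^ 2 * Δ) * k) * N - 2 * m ≤ M.card := by
  have k1 : (1 : ℝ) ≤ k := by exact_mod_cast hk1
  have m0 : 0 < m := by nlinarith
  set β := k / m * (2 / η + 2 + 28 * k ^ 2 * Δ) with hβ
  have β0 : 0 ≤ β := by positivity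
  have Λ0 : 0 ≤ Λ := le_trans (by positivity) hΛ
  set μ := k ^ 3 / m + 2 * k * η + Λ * (28 * k ^ 2 * Δ) * k with hμ
  have μ0 : 0 ≤ μ := by positivity
  have base : ∀ (N : ℕ) (U : Finset X) (H : Finset ι) (w : ι → ℝ), (U.card : ℝ) ≤ m →
      (∀ i ∈ H, e i ⊆ U) → (∀ i ∈ H, (e i).card = k) → (∀ i, 0 ≤ w i) →
      ∃ M ⊆ H, (∀ i ∈ M, ∀ j ∈ M, i ≠ j → Disjoint (e i) (e j)) ∧
        ∑ i ∈ H, w i - (1 + β) ^ N * ex e U H w - μ * N - 2 * m ≤ M.card := by
    intro N U H w hm hU hk w0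
    refine ⟨∅, empty_subset _, by simp, ?_⟩
    have a := sum_wd (w := w) hU hk
    have b : ∑ y ∈ U, wd e H w y ≤ 2 * U.card + ex e U H w := by
      rw [ex, card_eq_sum_ones]
      push_cast
      rw [mul_sum, ← sum_add_distrib]
      refine sum_le_sum fun y _ => ?_
      nlinarith [le_max_left (wd e H w y - 1) 0, sq_nonneg (max (wd e H w y - 1) 0 - 1)]
    have c : 0 ≤ ∑ i ∈ H, w i := sum_nonneg fun i _ => w0 i
    have d : 0 ≤ ex e U H w := sum_nonneg fun _ _ => sq_nonneg _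
    have f : 1 ≤ (1 + β) ^ N := one_le_pow₀ (by linarith)
    have g : 0 ≤ μ * N := by positivity
    simp only [card_empty, Nat.cast_zero]
    nlinarith
  intro N
  induction N with
  | zero =>
    intro _ U H w hN hU hk w0 _
    refine base 0 U H w ?_ hU hk w0
    rw [Nat.le_zero.1 hN]
    simpa using m0.le
  | succ N ih =>
    intro hN0 U H w hN hU hk w0 hc
    rcases le_total (U.card : ℝ) m with hm | hm
    · exact base _ U H w hm hU hk w0
    have θ1 : (1 : ℝ) ≤ 1 + k ^ 2 / m := le_add_of_nonneg_right (by positivity)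
    have l1 : 1 ≤ (1 + β) ^ N := one_le_pow₀ (by linarith)
    have l2 : (1 + β) ^ N ≤ Λ := (pow_le_pow_right₀ (by linarith) (by omega)).trans hΛ
    obtain ⟨R, g, κ, hR, κ0, κ1, hv⟩ := nib_step hU hk w0 hk1 hΔ (fun x y h => (hc x y h).trans
      (div_le_self hΔ (one_le_pow₀ θ1))) hm hkm hmΔ hη (l := (1 + β) ^ N) (by linarith)
    have hRU : ∃ x ∈ U, x ∈ R := by
      rcases hR with ⟨i, hi, rfl, -⟩ | ⟨x, hx, rfl, -⟩
      · obtain ⟨x, hx⟩ := card_pos.1 (show 0 < (e i).card by rw [hk i hi]; omega)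
        exact ⟨x, hU i hi hx, hx⟩
      · exact ⟨x, hx, mem_singleton_self x⟩
    obtain ⟨M, hM, hd, hb⟩ := ih (by omega) (U \ R) (H.filter fun i => Disjoint (e i) R)
      (fun i => (1 + κ) * w i)
      (by
        obtain ⟨x, a, b⟩ := hRU
        have : (U \ R).card < U.card := card_lt_card ⟨sdiff_subset, fun h => by
          simpa [b] using h a⟩
        omega)
      (fun i hi => subset_sdiff.2 ⟨hU i (mem_filter.1 hi).1, (mem_filter.1 hi).2⟩)
      (fun i hi => hk i (mem_filter.1 hi).1) (fun i => mul_nonneg (by linarith) (w0 i))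
      (fun x y h => by
        have a : wc e (H.filter fun i => Disjoint (e i) R) (fun i => (1 + κ) * w i) x y ≤
            (1 + κ) * wc e H w x y := by
          rw [wc, wc, mul_sum]
          refine (sum_le_sum_of_subset_of_nonneg (filter_subset _ _) fun i _ _ => ?_).trans
            (le_of_eq (sum_congr rfl fun i _ => by split_ifs <;> simp))
          split_ifs
          · exact mul_nonneg (by linarith) (w0 i)
          · exact le_rfl
        have b := mul_le_mul (by linarith : 1 + κ ≤ 1 + k ^ 2 / m) (hc x y h)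
          (sum_nonneg fun i _ => by split_ifs; exact w0 i; exact le_rfl) (by linarith)
        refine a.trans (b.trans (le_of_eq ?_))
        generalize 1 + (k : ℝ) ^ 2 / m = t at θ1
        rw [pow_succ]
        field_simp)
    have Φ0 : 0 ≤ ex e U H w := sum_nonneg fun _ _ => sq_nonneg _
    have fin : ∑ i ∈ H, w i - (1 + β) ^ (N + 1) * ex e U H w - μ * (N + 1 : ℕ) - 2 * m ≤
        g + M.card := by
      have c0 : (0 : ℝ) ≤ 28 * k ^ 2 * Δ := by positivity
      have t1 := mul_le_mul_of_nonneg_right l2 (by positivity : (0 : ℝ) ≤ 28 * k ^ 2 * Δ * k)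
      have t2 : (1 + β) ^ N + k / m * (2 / η + 2 + (1 + β) ^ N * (28 * k ^ 2 * Δ)) ≤
          (1 + β) ^ (N + 1) := by
        have := mul_le_mul_of_nonneg_left l1 (by positivity : 0 ≤ k / m * (2 / η + 2))
        rw [pow_succ (1 + β)]
        generalize (1 + β) ^ N = l at *
        rw [hβ]
        nlinarith
      have t3 := mul_le_mul_of_nonneg_right t2 Φ0
      push_cast
      nlinarith
    rcases hR with ⟨i, hi, rfl, rfl⟩ | ⟨x, hx, rfl, rfl⟩
    · have hiM : i ∉ M := fun h => by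
        obtain ⟨x, -, hx⟩ := hRU
        exact disjoint_left.1 (mem_filter.1 (hM h)).2 hx hx
      refine ⟨insert i M, insert_subset hi (hM.trans (filter_subset _ _)), ?_, ?_⟩
      · intro a ha b hb' hab
        rcases mem_insert.1 ha with h1 | h1 <;> rcases mem_insert.1 hb' with h2 | h2
        · exact absurd (h1.trans h2.symm) hab
        · exact h1 ▸ (mem_filter.1 (hM h2)).2.symm
        · exact h2 ▸ (mem_filter.1 (hM h1)).2
        · exact hd a h1 b h2 hab
      · rw [card_insert_of_notMem hiM]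
        push_cast at fin ⊢
        linarith
    · exact ⟨M, hM.trans (filter_subset _ _), hd, by linarith⟩

/-- Fractional matchings with small codegrees round to matchings. -/
theorem nibble {k : ℕ} (hk1 : 1 ≤ k) {ε : ℝ} (hε : 0 < ε) : ∃ δ > 0, ∃ n0 : ℝ,
    ∀ (X ι : Type) (e : ι → Finset X) (U : Finset X) (H : Finset ι) (w : ι → ℝ),
      n0 ≤ U.card → (∀ i ∈ H, e i ⊆ U) → (∀ i ∈ H, (e i).card = k) → (∀ i, 0 ≤ w i) →
      (∀ x ∈ U, wd e H w x ≤ 1) → (∀ x y, x ≠ y → wc e H w x y ≤ δ) →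
      ∃ M ⊆ H, (∀ i ∈ M, ∀ j ∈ M, i ≠ j → Disjoint (e i) (e j)) ∧
        ∑ i ∈ H, w i - ε * U.card ≤ M.card := by
  have k1 : (1 : ℝ) ≤ k := by exact_mod_cast hk1
  obtain ⟨a, ha, rfl⟩ : ∃ a > 0, ε = 5 * a := ⟨ε / 5, by linarith, by ring⟩
  set η := a / (2 * k) with hη
  have η0 : 0 < η := by positivity
  set Λ := Real.exp (k * (2 / η + 2 + 28 * k ^ 2) / a) with hΛ
  have Λ0 : 0 < Λ := Real.exp_pos _
  set Δ := min 1 (a / (Λ * 28 * k ^ 3)) with hΔ
  have Δ0 : 0 < Δ := lt_min one_pos (by positivity)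
  refine ⟨Δ / Real.exp (k ^ 2 / a), by positivity, (k ^ 2 + k / Δ + k ^ 3 / a) / a,
    fun X ι e U H w hn hU hk w0 hd hc => ?_⟩
  rw [div_le_iff₀ ha] at hn
  have p1 : (0 : ℝ) < k ^ 2 := by positivity
  have p2 : 0 < k / Δ := by positivity
  have p3 : 0 < k ^ 3 / a := by positivity
  set m := U.card * a with hm
  have m0 : 0 < m := by linarith
  have N0 : (0 : ℝ) < U.card := (mul_pos_iff_of_pos_right ha).1 m0
  have pw : ∀ c : ℝ, 0 ≤ c → (1 + c / m) ^ U.card ≤ Real.exp (c / a) := fun c hc => by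
    have : c / a = U.card * (c / m) := by rw [hm]; field_simp
    rw [this, Real.exp_nat_mul]
    exact pow_le_pow_left₀ (by positivity) (by linarith [Real.add_one_le_exp (c / m)]) _
  obtain ⟨M, h1, h2, h3⟩ := nib_ind (e := e) hk1 Δ0.le (m := m) (η := η) (Λ := Λ) (by linarith)
    (by
      have : k / Δ ≤ m := by linarith
      rwa [div_le_iff₀ Δ0] at this) η0 (N0 := U.card)
    (by
      refine le_trans (pow_le_pow_left₀ (by positivity) ?_ _) (pw _ (by positivity))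
      rw [div_mul_eq_mul_div]
      have : Δ ≤ 1 := min_le_left _ _
      have : 28 * k ^ 2 * Δ ≤ 28 * k ^ 2 := by nlinarith
      gcongr)
    U.card le_rfl U H w le_rfl hU hk w0 fun x y h => (hc x y h).trans
      (div_le_div_of_nonneg_left Δ0.le (by positivity) (pw _ p1.le))
  refine ⟨M, h1, h2, le_trans ?_ h3⟩
  have x0 : ex e U H w = 0 := sum_eq_zero fun x hx => by
    rw [max_eq_right (by linarith [hd x hx])]
    simp
  have t1 : k ^ 3 / m ≤ a := by
    have : k ^ 3 / a ≤ m := by linarith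
    rw [div_le_iff₀ ha] at this
    rw [div_le_iff₀ m0]
    linarith
  have t2 : 2 * k * η = a := by rw [hη]; field_simp
  have t3 : Λ * (28 * k ^ 2 * Δ) * k ≤ a := by
    have := min_le_right 1 (a / (Λ * 28 * k ^ 3))
    rw [← hΔ, le_div_iff₀ (by positivity)] at this
    linarith
  rw [x0, t2]
  nlinarith

end Pool.Agent.Lib.MP_dcb632_co.Top
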