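import Pool.Agent.Lib.MP_dcb632_co.Limit

namespace Pool.Agent.Lib.MP_dcb632_co.Top

open Finset Filter Topology
open scoped Classical

/-- The numerical condition under which the clique growing process works. -/
def Par (r : ℕ) (β : ℝ) : Prop := ∃ M s : ℝ, 1 ≤ M ∧ 0 ≤ s ∧ s < 1 ∧
  M * (β + 2 * Real.exp (-s * M) / (1 - s) ^ (r + 1)) < 1 / 2

lemma par_nine {r : ℕ} (hr : 5 ≤ r) : Par r (1 / (9 * r)) := by
  have r5 : (5 : ℝ) ≤ r := by exact_mod_cast hr
  refine ⟨4 * r, 7 / 10, by linarith, by norm_num, by norm_num, ?_⟩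
  have a : Real.exp (-(14 / 5)) ≤ 63 / 1000 := by
    have h := Real.quadratic_le_exp_of_nonneg (by norm_num : (0 : ℝ) ≤ 7 / 25)
    have h2 := pow_le_pow_left₀ (by norm_num) h 10
    rw [← Real.exp_nat_mul] at h2
    rw [Real.exp_neg, inv_le_comm₀ (Real.exp_pos _) (by norm_num)]
    refine le_trans (by norm_num) (h2.trans (le_of_eq ?_))
    norm_num
  have b : ∀ m : ℕ, 5 ≤ m → 480 * (m : ℝ) * (21 / 100) ^ m < 1 := by
    intro m hm
    induction m, hm using Nat.le_induction with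
    | base => norm_num
    | succ m hm ih =>
      have : (5 : ℝ) ≤ m := by exact_mod_cast hm
      have p : (0 : ℝ) < (21 / 100) ^ m := by positivity
      rw [pow_succ]
      push_cast
      nlinarith
  have c : Real.exp (-(7 / 10) * (4 * r)) ≤ (21 / 100) ^ r * (3 / 10) ^ r := by
    rw [show -(7 / 10) * (4 * (r : ℝ)) = r * -(14 / 5) by ring, Real.exp_nat_mul, ← mul_pow]
    exact pow_le_pow_left₀ (Real.exp_pos _).le (a.trans (by norm_num)) r
  have d : 2 * Real.exp (-(7 / 10) * (4 * r)) / (1 - 7 / 10) ^ (r + 1) ≤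
      20 / 3 * (21 / 100) ^ r := by
    rw [div_le_iff₀ (by positivity), pow_succ, show (1 : ℝ) - 7 / 10 = 3 / 10 by norm_num]
    linarith
  have e : 4 * (r : ℝ) * (1 / (9 * r)) = 4 / 9 := by field_simp
  have := b r hr
  nlinarith [mul_le_mul_of_nonneg_left d (by linarith : (0 : ℝ) ≤ 4 * r)]

lemma par_large {c : ℝ} (hc : 2 < c) : ∀ᶠ r : ℕ in atTop, Par r (1 / (c * r)) := by
  obtain ⟨a, a1, a2⟩ : ∃ a : ℝ, 1 < a ∧ a / c < 1 / 2 :=
    ⟨(2 + c) / 4, by linarith, by rw [div_lt_iff₀ (by linarith)]; linarith⟩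
  set s := (a - 1) / (2 * a) with hs
  have s0 : 0 < s := div_pos (by linarith) (by linarith)
  have sa : s * a = (a - 1) / 2 := by rw [hs]; field_simp
  have s1 : s < 1 := by rw [hs, div_lt_one (by linarith)]; linarith
  have θ0 : 0 < 1 - s := by linarith
  have ρ1 : Real.exp (-s * a) / (1 - s) < 1 := by
    rw [div_lt_one θ0, neg_mul, Real.exp_neg, inv_lt_comm₀ (Real.exp_pos _) θ0]
    refine lt_of_lt_of_le ?_ (Real.add_one_le_exp _)
    rw [inv_lt_iff_one_lt_mul₀ θ0]
    nlinarith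
  have t := (tendsto_self_mul_const_pow_of_lt_one (by positivity) ρ1).const_mul (2 * a / (1 - s))
  rw [mul_zero] at t
  filter_upwards [t.eventually (gt_mem_nhds (sub_pos.2 a2)), eventually_ge_atTop 1] with r h1 h2
  have r1 : (1 : ℝ) ≤ r := by exact_mod_cast h2
  refine ⟨a * r, s, by nlinarith, s0.le, s1, ?_⟩
  have e1 : a * r * (1 / (c * r)) = a / c := by field_simp
  have e2 : a * r * (2 * Real.exp (-s * (a * r)) / (1 - s) ^ (r + 1)) =
      2 * a / (1 - s) * (r * (Real.exp (-s * a) / (1 - s)) ^ r) := by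
    rw [show -s * (a * r) = r * (-s * a) by ring, Real.exp_nat_mul, div_pow, pow_succ]
    field_simp
  rw [mul_add, e1, e2]
  linarith

lemma Par.lim {r : ℕ} (hr : 3 ≤ r) {β γ : ℝ} (h : Par r β) (h0 : 1 - β ≤ γ) (h1 : γ < 1) :
    Tendsto (fun n : ℕ => (minPacking r n ⌊γ * n⌋₊ : ℝ) / n ^ 2) atTop
      (𝓝 (γ / (r * (r - 1)))) := by
  obtain ⟨M, s, hM, hs, hs1, h⟩ := h
  have e0 : 0 ≤ 2 * Real.exp (-s * M) / (1 - s) ^ (r + 1) := by
    have : 0 < 1 - s := by linarith
    positivity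
  refine top hr hM hs hs1 (by nlinarith) h1 (by nlinarith)

lemma Par.dec {r : ℕ} (hr : 3 ≤ r) {β : ℝ} (h : Par r β) (hβ : 0 ≤ β) {V : Type} [Fintype V]
    (G : SimpleGraph V) (hG : ∀ v, (1 - β) * Fintype.card V ≤ (G.neighborSet v).ncard) :
    ∃ x : Finset V → ℝ, (∀ K, 0 ≤ x K) ∧ (∀ K, ¬ G.IsNClique r K → x K = 0) ∧
      ∀ u v, G.Adj u v → ∑ K, (if u ∈ K ∧ v ∈ K then x K else 0) = 1 := by
  obtain ⟨M, s, hM, hs, hs1, h⟩ := h
  rcases isEmpty_or_nonempty V with hV | hV
  · exact ⟨0, fun _ => le_rfl, fun _ _ => rfl, fun u => isEmptyElim u⟩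
  have n0 : (0 : ℝ) < Fintype.card V := by exact_mod_cast Fintype.card_pos
  obtain ⟨x, x0, x2, -⟩ := frac G hr (b := β * Fintype.card V) (p := M / Fintype.card V)
    (e := 2 * Real.exp (-s * M) / (1 - s) ^ (r + 1)) (by positivity) hs hs1 (fun v => by
      have a : (((sel fun y => G.Adj v y).card : ℝ) + (sel fun y => ¬ G.Adj v y).card) =
        Fintype.card V := by exact_mod_cast card_sel_add (fun y => G.Adj v y)
      have b := hG v
      rw [ncard_eq, dg] at b
      refine le_trans (le_of_eq ?_) (by linarith : ((sel fun y => ¬ G.Adj v y).card : ℝ) ≤ _)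
      congr 2
      ext y
      simp) (by rw [mul_div_cancel₀ _ n0.ne']) (by nlinarith)
    (by
      rw [← add_mul, mul_comm _ (Fintype.card V : ℝ), ← mul_assoc, div_mul_cancel₀ _ n0.ne']
      exact h.le)
  refine ⟨fun K => if G.IsNClique r K then x K else 0, fun K => ?_, fun K hK => if_neg hK,
    fun u v huv => ?_⟩
  · dsimp only
    split_ifs
    · exact x0 K
    · exact le_rfl
  · rw [← x2 {u, v} (by simp [SimpleGraph.isNClique_iff, huv, card_pair huv.ne]), sum_filter,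
      ← sum_subset (subset_univ (G.cliqueFinset r))]
    · exact sum_congr rfl fun K hK => by
        simp [SimpleGraph.mem_cliqueFinset_iff.1 hK, insert_subset_iff]
    · intro K _ hK
      simp [mt SimpleGraph.mem_cliqueFinset_iff.2 hK]

end Pool.Agent.Lib.MP_dcb632_co.Top
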