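import Pool.Agent.Lib.MP_dcb632_co.Gen

namespace Pool.Agent.Lib.MP_dcb632_co.Top

open Finset
open scoped Classical

variable {V : Type} [Fintype V] {I : Finset V} {q : V → ℝ} {k : V → V → ℝ}

/-- Exponential supermartingale for the event that `S` ends up in a small clique. -/
noncomputable def pen (s : ℝ) (S I : Finset V) (q : V → ℝ) : ℝ :=
  (1 - s) ^ I.card * Real.exp (-s * ∑ x, q x) *
    (((S \ I).card.factorial : ℝ) / (1 - s) ^ (S \ I).card * ∏ x ∈ S \ I, q x)

lemma beta_le {s K : ℝ} (hs : 0 ≤ s) (hs1 : s < 1) (h0 : 0 ≤ K) (h1 : K ≤ 1) :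
    (1 - s) * Real.exp (s * K) ≤ 1 - s * (1 - K) := by
  have a := convexOn_exp.2 (Set.mem_univ 0) (Set.mem_univ s) (sub_nonneg.2 h1) h0 (by ring)
  simp only [smul_eq_mul, mul_zero, zero_add, Real.exp_zero, mul_one] at a
  have b : (1 - s) * Real.exp s ≤ 1 := by
    have := Real.add_one_le_exp (-s)
    have e : Real.exp (-s) * Real.exp s = 1 := by rw [← Real.exp_add]; simp
    nlinarith [Real.exp_pos s]
  rw [mul_comm s K]
  nlinarith

lemma gen_pen (hq : ∀ x, 0 ≤ q x) (hI : ∀ x ∈ I, q x = 0) (ks : ∀ x y, k x y = k y x)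
    (k0 : ∀ x y, 0 ≤ k x y) (k1 : ∀ x y, k x y ≤ 1) (kr : ∀ x, Kq k q x ≤ 1)
    {s : ℝ} (hs : 0 ≤ s) (hs1 : s < 1) (S : Finset V) : Gen (pen s S) I q k 0 := by
  set A := S \ I with hA
  set θ := 1 - s with hθ
  have hθ0 : 0 < θ := by linarith
  set U := θ ^ I.card * Real.exp (-s * ∑ x, q x) with hU
  have hU0 : 0 < U := by positivity
  set c : ℕ → ℝ := fun j => (j.factorial : ℝ) / θ ^ j with hc
  have hc0 : ∀ j, 0 ≤ c j := fun j => by positivity
  set P := ∏ x ∈ A, q x with hP
  have hP0 : 0 ≤ P := prod_nonneg fun x _ => hq x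
  have K0 : ∀ x, 0 ≤ Kq k q x := fun x => sum_nonneg fun y _ => mul_nonneg (k0 _ _) (hq _)
  have hd : HasDerivAt (fun ε => pen s S I (drift k q ε))
      (U * (c A.card * P) * (s * ∑ x, q x * (1 - Kq k q x) - ∑ x ∈ A, (1 - Kq k q x))) 0 := by
    have d1 := (((HasDerivAt.fun_sum (u := univ) fun x _ =>
      drift_deriv (k := k) (q := q) x).const_mul (-s)).exp).const_mul (θ ^ I.card)
    have d2 := (HasDerivAt.fun_finsetProd (u := A) fun x _ =>
      drift_deriv (k := k) (q := q) x).const_mul (c A.card)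
    have := d1.mul d2
    simp only [drift_zero, smul_eq_mul] at this
    have e : ∑ i ∈ A, (∏ j ∈ A.erase i, q j) * -(q i * (1 - Kq k q i)) =
        -(P * ∑ x ∈ A, (1 - Kq k q x)) := by
      rw [mul_sum, ← sum_neg_distrib]
      refine sum_congr rfl fun i hi => ?_
      rw [hP, ← mul_prod_erase A q hi]
      ring
    rw [e, sum_neg_distrib] at this
    refine HasDerivAt.congr_deriv this ?_
    rw [hU, hP]
    ring
  refine ⟨_, hd, ?_⟩
  set β : V → ℝ := fun v => θ * Real.exp (s * Kq k q v) with hβ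
  have β1 : ∀ v, β v ≤ 1 - s * (1 - Kq k q v) := fun v => beta_le hs hs1 (K0 v) (kr v)
  have β0 : ∀ v, θ ≤ β v := fun v =>
    le_mul_of_one_le_right hθ0.le (Real.one_le_exp (mul_nonneg hs (K0 v)))
  have β2 : ∀ v, β v ≤ 1 := fun v => by nlinarith [β1 v, kr v, mul_nonneg hs (sub_nonneg.2 (kr v))]
  have m0 : ∀ v, 0 ≤ ∏ x ∈ A, (1 - k v x) := fun v => prod_nonneg fun x _ => sub_nonneg.2 (k1 _ _)
  have key : ∀ v, q v * pen s S (insert v I) (jump k q v) ≤
      U * ((if v ∈ A then c (A.card - 1) * P else 0) +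
        c A.card * P * (q v * (β v * ∏ x ∈ A, (1 - k v x)))) := by
    intro v
    have hpos : 0 ≤ c A.card * P * (q v * (β v * ∏ x ∈ A, (1 - k v x))) :=
      mul_nonneg (mul_nonneg (hc0 _) hP0) (mul_nonneg (hq v)
        (mul_nonneg (hθ0.le.trans (β0 v)) (m0 v)))
    by_cases hv : q v = 0
    · rw [hv, zero_mul]
      refine mul_nonneg hU0.le (add_nonneg ?_ (by simp))
      split_ifs
      · exact mul_nonneg (hc0 _) hP0
      · exact le_rfl
    have hvI : v ∉ I := fun h => hv (hI v h)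
    have e1 : θ ^ (insert v I).card * Real.exp (-s * ∑ x, jump k q v x) = U * β v := by
      rw [card_insert_of_notMem hvI, sum_jump, hU, hβ, mul_sub, sub_eq_add_neg, Real.exp_add]
      simp only [neg_mul, neg_neg]
      ring
    have e2 : S \ insert v I = A.erase v := by
      ext x
      simp [hA, and_comm, and_assoc]
    rw [pen, ← hθ, e1, e2]
    by_cases hvA : v ∈ A
    · rw [if_pos hvA, card_erase_of_mem hvA]
      have e3 : q v * ∏ x ∈ A.erase v, jump k q v x ≤ P := by
        rw [hP, ← mul_prod_erase A q hvA]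
        refine mul_le_mul_of_nonneg_left (prod_le_prod (fun x _ => ?_) fun x _ => ?_) (hq v)
        · exact mul_nonneg (hq x) (sub_nonneg.2 (k1 _ _))
        · exact mul_le_of_le_one_right (hq x) (by linarith [k0 v x])
      have e4 : β v * (c (A.card - 1) * (q v * ∏ x ∈ A.erase v, jump k q v x)) ≤
          1 * (c (A.card - 1) * P) :=
        mul_le_mul (β2 v) (mul_le_mul_of_nonneg_left e3 (hc0 _)) (mul_nonneg (hc0 _)
          (mul_nonneg (hq v) (prod_nonneg fun x _ =>
            mul_nonneg (hq x) (sub_nonneg.2 (k1 _ _))))) zero_le_one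
      have e5 := mul_le_mul_of_nonneg_left (e4.trans (le_add_of_nonneg_right hpos)) hU0.le
      rw [one_mul] at e5
      refine le_trans (le_of_eq ?_) e5
      simp only [hc]
      ring
    · rw [if_neg hvA, erase_eq_of_notMem hvA, zero_add]
      simp only [jump, prod_mul_distrib, ← hP, hc]
      exact le_of_eq (by ring)
  have e0 : pen s S I q = U * (c A.card * P) := rfl
  have s1 : ∑ v, q v * (pen s S (insert v I) (jump k q v) - pen s S I q) ≤
      U * (A.card * (c (A.card - 1) * P) + c A.card * P *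
        (∑ v, q v * (β v * ∏ x ∈ A, (1 - k v x)) - ∑ v, q v)) := by
    simp only [mul_sub, sum_sub_distrib, e0]
    have := sum_le_sum (s := univ) fun v _ => key v
    rw [← mul_sum, sum_add_distrib, ← mul_sum, sum_ite_mem, univ_inter, sum_const,
      nsmul_eq_mul] at this
    rw [← sum_mul]
    linarith
  have s2 : A.card * (c (A.card - 1) * P) + c A.card * P *
      (∑ v, q v * (β v * ∏ x ∈ A, (1 - k v x)) - ∑ v, q v) + c A.card * P *
      (s * ∑ x, q x * (1 - Kq k q x) - ∑ x ∈ A, (1 - Kq k q x)) ≤ 0 := by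
    have t1 : ∑ v, q v * β v ≤ ∑ v, q v - s * ∑ x, q x * (1 - Kq k q x) := by
      rw [mul_sum, ← sum_sub_distrib]
      exact sum_le_sum fun v _ => by nlinarith [mul_le_mul_of_nonneg_left (β1 v) (hq v)]
    rcases A.eq_empty_or_nonempty with h | ⟨x, hx⟩
    · simp only [h, card_empty, prod_empty, sum_empty, mul_one, Nat.cast_zero, zero_mul] at *
      nlinarith [mul_nonneg (hc0 0) hP0]
    · have t2 : ∑ v, q v * (β v * ∏ x ∈ A, (1 - k v x)) ≤ ∑ v, q v * β v - θ * Kq k q x := by
        rw [Kq, mul_sum, ← sum_sub_distrib]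
        refine sum_le_sum fun v _ => ?_
        have a1 : ∏ x ∈ A, (1 - k v x) ≤ 1 - k v x := by
          rw [← mul_prod_erase A _ hx]
          exact mul_le_of_le_one_right (sub_nonneg.2 (k1 _ _))
            (prod_le_one (fun y _ => sub_nonneg.2 (k1 _ _)) fun y _ => by linarith [k0 v y])
        have a2 := mul_le_mul_of_nonneg_left a1 (hθ0.le.trans (β0 v))
        have a3 := mul_le_mul_of_nonneg_right (β0 v) (k0 v x)
        rw [ks x v]
        nlinarith [mul_le_mul_of_nonneg_left a2 (hq v), mul_le_mul_of_nonneg_left a3 (hq v)]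
      have t3 : 1 - Kq k q x ≤ ∑ x ∈ A, (1 - Kq k q x) :=
        single_le_sum (f := fun x => 1 - Kq k q x) (fun y _ => sub_nonneg.2 (kr y)) hx
      have t4 : (A.card : ℝ) * c (A.card - 1) = θ * c A.card := by
        obtain ⟨j, hj⟩ : ∃ j, A.card = j + 1 := ⟨A.card - 1, by
          have := card_pos.2 ⟨x, hx⟩
          omega⟩
        simp only [hc, hj, Nat.add_sub_cancel, Nat.factorial_succ]
        push_cast
        field_simp
        ring
      have t5 : θ + (∑ v, q v * (β v * ∏ x ∈ A, (1 - k v x)) - ∑ v, q v) +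
          (s * ∑ x, q x * (1 - Kq k q x) - ∑ x ∈ A, (1 - Kq k q x)) ≤ 0 := by
        nlinarith [kr x, mul_nonneg hs (sub_nonneg.2 (kr x))]
      have t6 := mul_le_mul_of_nonneg_left t5 (mul_nonneg (hc0 A.card) hP0)
      rw [← mul_assoc, t4]
      linarith
  nlinarith [mul_le_mul_of_nonneg_left s2 hU0.le]

end Pool.Agent.Lib.MP_dcb632_co.Top
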