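import Pool.Agent.Lib.MP_dcb632_co.Nib4
import Pool.Agent.Lib.MP_dcb632_co.Frac
import Pool.Agent.Lib.MP_dcb632_co.Main

namespace Pool.Agent.Lib.MP_dcb632_co.Top

open Finset
open scoped Classical

lemma handshake {V : Type} [Fintype V] (G : SimpleGraph V) :
    ∑ x, dg G x = 2 * (G.cliqueFinset 2).card := by
  have a : ∀ x, dg G x = ((G.cliqueFinset 2).filter (x ∈ ·)).card := fun x => by
    refine card_bij (fun y _ => {x, y}) (fun y hy => ?_) (fun y hy z hz h => ?_) (fun S hS => ?_)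
    · have h := mem_sel.1 hy
      simp [SimpleGraph.isNClique_iff, h, card_pair h.ne]
    · have : y ∈ ({x, z} : Finset V) := h ▸ (by simp)
      rcases mem_insert.1 this with c | c
      · exact absurd c.symm (mem_sel.1 hy).ne
      · exact mem_singleton.1 c
    · obtain ⟨h, hx⟩ := mem_filter.1 hS
      replace h := SimpleGraph.mem_cliqueFinset_iff.1 h
      obtain ⟨a, b, hab, rfl⟩ := card_eq_two.1 h.2
      have hA : G.Adj a b := h.1 (by simp) (by simp) hab
      rcases mem_insert.1 hx with rfl | c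
      · exact ⟨b, mem_sel.2 hA, rfl⟩
      · rw [mem_singleton.1 c]
        exact ⟨a, mem_sel.2 hA.symm, pair_comm _ _⟩
  simp only [a, card_filter]
  rw [sum_comm, mul_comm, card_eq_sum_ones, sum_mul]
  refine sum_congr rfl fun S hS => ?_
  simp [(SimpleGraph.mem_cliqueFinset_iff.1 hS).2]

lemma packing_le {V : Type} [Fintype V] {G : SimpleGraph V} {r : ℕ} {P : Finset (Finset V)}
    (hP : IsPacking G r P) : P.card * r.choose 2 ≤ (G.cliqueFinset 2).card := by
  have a : (P.biUnion (powersetCard 2)).card = P.card * r.choose 2 := by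
    rw [card_biUnion, sum_congr rfl fun K hK => by rw [card_powersetCard, (hP.1 K hK).2]]
    · simp
    · intro K hK K' hK' hne
      refine disjoint_left.2 fun S h1 h2 => ?_
      obtain ⟨h1, h3⟩ := mem_powersetCard.1 h1
      obtain ⟨u, v, huv, rfl⟩ := card_eq_two.1 h3
      have h2 := (mem_powersetCard.1 h2).1
      exact hP.2 K hK K' hK' hne u v ((hP.1 K hK).1 (h1 (by simp)) (h1 (by simp)) huv)
        ⟨h1 (by simp), h1 (by simp), h2 (by simp), h2 (by simp)⟩
  rw [← a]
  refine card_le_card fun S hS => ?_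
  obtain ⟨K, hK, h⟩ := mem_biUnion.1 hS
  obtain ⟨h1, h2⟩ := mem_powersetCard.1 h
  exact SimpleGraph.mem_cliqueFinset_iff.2 ⟨(hP.1 K hK).1.subset (coe_subset.2 h1), h2⟩

/-- Spread fractional packings round to packings. -/
lemma round {r : ℕ} (hr : 2 ≤ r) {ε : ℝ} (hε : 0 < ε) : ∃ δ > 0, ∃ n0 : ℕ,
    ∀ (V : Type) [Fintype V] (G : SimpleGraph V) (x : Finset V → ℝ), n0 ≤ Fintype.card V →
      (∀ K, 0 ≤ x K) →
      (∀ S ∈ G.cliqueFinset 2, ∑ K ∈ (G.cliqueFinset r).filter (S ⊆ ·), x K ≤ 1) →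
      (∀ S ∈ G.cliqueFinset 3, ∑ K ∈ (G.cliqueFinset r).filter (S ⊆ ·), x K ≤ δ) →
      ∃ P, IsPacking G r P ∧
        ∑ K ∈ G.cliqueFinset r, x K - ε * (Fintype.card V : ℝ) ^ 2 ≤ P.card := by
  obtain ⟨δ, δ0, n0, h⟩ := nibble (k := r.choose 2) (Nat.choose_pos hr) hε
  refine ⟨δ, δ0, ⌈n0⌉₊ + 2, fun V _ G x hn x0 h2 h3 => ?_⟩
  have bd : ∀ (j : ℕ) (c : ℝ) (p : Finset V → Prop) (_ : DecidablePred p) (T : Finset V), 0 ≤ c → T.card = j →
      (∀ K, p K → T ⊆ K) →
      (∀ S ∈ G.cliqueFinset j, ∑ K ∈ (G.cliqueFinset r).filter (S ⊆ ·), x K ≤ c) →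
      ∑ K ∈ G.cliqueFinset r, (if p K then x K else 0) ≤ c := fun j c p _ T c0 hT hp hc => by
    by_cases hcl : G.IsClique (T : Set V)
    · refine le_trans ?_ (hc T (SimpleGraph.mem_cliqueFinset_iff.2 ⟨hcl, hT⟩))
      rw [← sum_filter]
      exact sum_le_sum_of_subset_of_nonneg (fun K hK => mem_filter.2
        ⟨(mem_filter.1 hK).1, hp K (mem_filter.1 hK).2⟩) fun K _ _ => x0 K
    · rw [sum_eq_zero fun K hK => if_neg fun c => hcl
        ((SimpleGraph.mem_cliqueFinset_iff.1 hK).1.subset (coe_subset.2 (hp K c)))]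
      exact c0
  have hc : ((univ : Finset V).powersetCard 2).card = (Fintype.card V).choose 2 := by simp
  obtain ⟨M, hM, hd, hb⟩ := h (Finset V) (Finset V) (powersetCard 2) (univ.powersetCard 2)
    (G.cliqueFinset r) x
    (by
      rw [hc]
      refine (Nat.le_ceil n0).trans ?_
      obtain ⟨m, hm⟩ : ∃ m, Fintype.card V = m + 2 := ⟨Fintype.card V - 2, by omega⟩
      have : ⌈n0⌉₊ ≤ (Fintype.card V).choose 2 := by
        rw [hm, Nat.choose_succ_succ' (m + 1) 1, Nat.choose_one_right]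
        omega
      exact_mod_cast this)
    (fun K _ => powersetCard_mono (subset_univ _))
    (fun K hK => by rw [card_powersetCard, (SimpleGraph.mem_cliqueFinset_iff.1 hK).2]) x0
    (fun S hS => by
      unfold wd
      exact bd 2 1 (fun K => S ∈ powersetCard 2 K) _ S zero_le_one (mem_powersetCard.1 hS).2
        (fun K hK => (mem_powersetCard.1 hK).1) h2)
    (fun S S' hne => by
      by_cases hS : S.card = 2 ∧ S'.card = 2
      · have : 3 ≤ (S ∪ S').card := by
          by_contra hlt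
          have a := eq_of_subset_of_card_le (subset_union_left (s₁ := S) (s₂ := S')) (by omega)
          have b := eq_of_subset_of_card_le (subset_union_right (s₁ := S) (s₂ := S')) (by omega)
          exact hne (a.trans b.symm)
        obtain ⟨T, hT, hT3⟩ := exists_subset_card_eq this
        unfold wc
        exact bd 3 δ (fun K => S ∈ powersetCard 2 K ∧ S' ∈ powersetCard 2 K) _ T δ0.le hT3 (fun K hK => hT.trans (union_subset
          (mem_powersetCard.1 hK.1).1 (mem_powersetCard.1 hK.2).1)) h3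
      · unfold wc
        exact le_of_eq_of_le (sum_eq_zero fun K _ => if_neg fun c => hS
          ⟨(mem_powersetCard.1 c.1).2, (mem_powersetCard.1 c.2).2⟩) δ0.le)
  refine ⟨M, ⟨fun K hK => SimpleGraph.mem_cliqueFinset_iff.1 (hM hK),
    fun K hK K' hK' hne u v huv c => ?_⟩, le_trans ?_ hb⟩
  · have := Finset.disjoint_left.1 (hd K hK K' hK' hne)
    refine @this {u, v} ?_ ?_ <;>
      simp [mem_powersetCard, insert_subset_iff, c, card_pair huv.ne]
  · rw [hc]
    have : ((Fintype.card V).choose 2 : ℝ) ≤ (Fintype.card V : ℝ) ^ 2 := by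
      exact_mod_cast Nat.choose_le_pow _ _
    nlinarith

lemma sum_decomp {V : Type} [Fintype V] {G : SimpleGraph V} {r : ℕ} {x : Finset V → ℝ}
    (h : ∀ S ∈ G.cliqueFinset 2, ∑ K ∈ (G.cliqueFinset r).filter (S ⊆ ·), x K = 1) :
    (r.choose 2 : ℝ) * ∑ K ∈ G.cliqueFinset r, x K = (G.cliqueFinset 2).card := by
  rw [card_eq_sum_ones]
  push_cast
  rw [← sum_congr rfl h]
  simp only [sum_filter]
  rw [sum_comm, mul_sum]
  refine sum_congr rfl fun K hK => ?_
  have := SimpleGraph.mem_cliqueFinset_iff.1 hK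
  rw [sum_ite_subset this.1, sum_const, card_powersetCard, this.2, nsmul_eq_mul]

end Pool.Agent.Lib.MP_dcb632_co.Top
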